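import Pool.Agent.N875.D15.Cn

/-!
# Level 15: rank zero and `Ш[2] = 0` are equivalent to the criterion `Sg15`
-/

set_option autoImplicit false

open Finset

namespace Pool.Agent.N875.D15

open WeierstrassCurve
open Pool.Agent.N875.X15
open Pool.Agent.N875.P17 (sq_of Lm al ind zmod_cases cases5 q_even q_neg)
open Pool.Agent.TH841.SH (LocC SelG)
open Pool.Agent.N809.PQ (B3 B5 Sol15 Sg15)

section

variable {m : ℤ} {a c s : ZMod 2} {X Y : Finset ℕ}

lemma sqf_int_square {n : ℤ} (hn : Squarefree n) (h : IsSquare (n : ℚ)) : n = 1 := by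
  rw [Rat.isSquare_intCast_iff] at h
  obtain ⟨r, hr⟩ := h
  have h1 := hn r ⟨1, by rw [hr, mul_one]⟩
  rcases Int.isUnit_iff.1 h1 with h2 | h2 <;> rw [hr, h2] <;> norm_num

lemma sq_prod_empty (hs : Squarefree m) {W : Finset ℕ} (hW : W ⊆ PR m)
    (h : IsSquare ((∏ q ∈ W, ps m q : ℤ) : ℚ)) : W = ∅ := by
  classical
  have hm0 := hs.ne_zero
  have hme : m = (∏ q ∈ W, ps m q) * ∏ q ∈ PR m \ W, ps m q := by
    rw [mul_comm, Finset.prod_sdiff hW, prod_PR hs]
  have hsq : Squarefree (∏ q ∈ W, ps m q) := hs.squarefree_of_dvd ⟨_, hme⟩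
  have h1 := sqf_int_square hsq h
  rw [Finset.eq_empty_iff_forall_notMem]
  intro p hp
  have hpp := prime_PR hm0 (hW hp)
  have hd : ∀ q ∈ W, q = 2 := by
    intro q hq
    by_contra hq2
    have h2 : ps m q ∣ ∏ q ∈ W, ps m q := Finset.dvd_prod_of_mem _ hq
    rw [h1, ps_odd hq2] at h2
    have h3 := Int.natAbs_dvd_natAbs.2 h2
    rw [sgp_abs] at h3
    exact (prime_PR hm0 (hW hq)).one_lt.ne' (Nat.dvd_one.1 h3)
  have hW2 : W = {2} := by
    rw [Finset.eq_singleton_iff_unique_mem]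
    exact ⟨(hd p hp) ▸ hp, hd⟩
  rw [hW2, Finset.prod_singleton, ps_two] at h1
  have h8 := (two_mem_PR hm0).1 (hW (by rw [hW2]; exact Finset.mem_singleton_self 2))
  obtain ⟨a1, -⟩ := d2_spec hs
  have ho := oe_mod m
  rw [h1, one_mul] at a1
  omega

lemma val_prodX (hs : Squarefree m) (hX : X ⊆ PR m) {p : ℕ} [hp : Fact p.Prime] :
    ((∏ r ∈ X, ((r : ℕ) : ℤ) : ℤ) : ℚ_[p]).valuation = if p ∈ X then 1 else 0 := by
  have hpr : ∀ p ∈ PR m, p.Prime := fun p hp => prime_PR hs.ne_zero hp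
  have hd1n : (∏ r ∈ X, ((r : ℕ) : ℤ)) = ((∏ p ∈ X, p : ℕ) : ℤ) := by push_cast; rfl
  have s1 : Squarefree (∏ r ∈ X, ((r : ℕ) : ℤ)) := by
    rw [hd1n]
    exact Int.squarefree_natCast.2 (sqf_prod X fun p hp => hpr p (hX hp))
  have mem1 : (p : ℤ) ∣ (∏ r ∈ X, ((r : ℕ) : ℤ)) ↔ p ∈ X := by
    rw [hd1n, Int.natCast_dvd_natCast, Prime.dvd_finsetProd_iff hp.out.prime]
    constructor
    · rintro ⟨q, hq, hpq⟩
      rw [(Nat.prime_dvd_prime_iff_eq hp.out (hpr q (hX hq))).1 hpq]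
      exact hq
    · intro h
      exact ⟨p, h, dvd_rfl⟩
  split_ifs with h
  · exact val_one (mem1.2 h) s1
  · exact val_zero (fun h' => h (mem1.1 h'))

/-- **Trivial classes come from trivial solutions.** -/
theorem trivial_of_sq (hs : Squarefree m) (hX : X ⊆ PR m) (hY : Y ⊆ PR m)
    (sol : Sol15 m (ind X) (ind Y) s a c) (α β : ZMod 2)
    (h1 : IsSquare (((if β = 1 then m else 1 : ℤ) * (tt a c * ∏ q ∈ Y, ps m q) : ℤ) : ℚ))
    (h2 : IsSquare (((if α = 1 then -m else 1 : ℤ) *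
      (TT s c * ∏ p ∈ X, ((p : ℕ) : ℤ)) : ℤ) : ℚ)) :
    a = 0 ∧ c = 0 ∧ s = (if 0 < m then α else 0) ∧
      (∀ p ∈ PR m, ind X p = if (p : ℤ) ∣ m then α else 0) ∧ ∀ q ∈ PR m, ind Y q = β := by
  classical
  have hm0 := hs.ne_zero
  have hpr : ∀ p ∈ PR m, p.Prime := fun p hp => prime_PR hm0 hp
  set P : ℤ := ∏ p ∈ X, ((p : ℕ) : ℤ) with hP
  set Q : ℤ := ∏ q ∈ Y, ps m q with hQ
  have hPpos : 0 < P := Finset.prod_pos fun r hr => by exact_mod_cast (hpr r (hX hr)).pos
  have hQ0 : Q ≠ 0 := Finset.prod_ne_zero_iff.2 fun q hq => ps_ne hs (hY hq)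
  have hβ0 : (if β = 1 then m else 1 : ℤ) ≠ 0 := by
    split_ifs
    · exact hm0
    · exact one_ne_zero
  have hα0 : (if α = 1 then -m else 1 : ℤ) ≠ 0 := by
    split_ifs
    · exact neg_ne_zero.2 hm0
    · exact one_ne_zero
  have ha : a = 0 := by
    rcases zmod_cases a with ha | ha
    · exact ha
    exfalso
    have hB : B3 m := by
      by_contra hcon
      rw [sol.a0 hcon] at ha
      exact absurd ha (by decide)
    have h3 := not_dvd3 hB
    have e1 := q_even (p := 3) (mul_ne_zero hβ0 (mul_ne_zero (tt_ne a c) hQ0)) h1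
    have hnQ : ¬ ((3 : ℕ) : ℤ) ∣ Q := nd_prodY hs hY (by exact_mod_cast h3)
    have e : (((if β = 1 then m else 1 : ℤ) * (tt a c * Q) : ℤ) : ℚ_[3]) =
        ((3 : ℕ) : ℚ_[3]) * ((((if β = 1 then m else 1 : ℤ) *
          (-(if c = 1 then 5 else 1) * Q) : ℤ)) : ℚ_[3]) := by
      rw [ha]
      unfold tt
      rw [if_pos rfl]
      push_cast
      ring
    have hnd : ¬ ((3 : ℕ) : ℤ) ∣ (if β = 1 then m else 1 : ℤ) * (-(if c = 1 then 5 else 1) * Q) := by
      have hmul : ∀ x y : ℤ, ¬ ((3 : ℕ) : ℤ) ∣ x → ¬ ((3 : ℕ) : ℤ) ∣ y →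
          ¬ ((3 : ℕ) : ℤ) ∣ x * y := fun x y hx hy h => by
        rcases (Nat.prime_iff_prime_int.1 Nat.prime_three).dvd_or_dvd h with h3 | h3
        · exact hx h3
        · exact hy h3
      refine hmul _ _ ?_ (hmul _ _ ?_ hnQ)
      · split_ifs
        · exact_mod_cast h3
        · norm_num
      · split_ifs <;> norm_num
    have hk0 : (((if β = 1 then m else 1 : ℤ) *
          (-(if c = 1 then 5 else 1) * Q) : ℤ)) ≠ 0 := by
      intro h0
      rw [h0] at hnd
      exact hnd (dvd_zero _)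
    rw [e, Padic.valuation_mul (by norm_num) (by exact_mod_cast hk0), val_p,
      val_zero hnd] at e1
    exact absurd e1 (by decide)
  have hc : c = 0 := by
    rcases zmod_cases c with hc | hc
    · exact hc
    exfalso
    have hB : B5 m := by
      by_contra hcon
      rw [sol.c0 hcon] at hc
      exact absurd hc (by decide)
    have h3 := not_dvd5 hB
    have e1 := q_even (p := 5) (mul_ne_zero hβ0 (mul_ne_zero (tt_ne a c) hQ0)) h1
    have hnQ : ¬ ((5 : ℕ) : ℤ) ∣ Q := nd_prodY hs hY (by exact_mod_cast h3)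
    have e : (((if β = 1 then m else 1 : ℤ) * (tt a c * Q) : ℤ) : ℚ_[5]) =
        ((5 : ℕ) : ℚ_[5]) * ((((if β = 1 then m else 1 : ℤ) *
          ((if a = 1 then -3 else 1) * Q) : ℤ)) : ℚ_[5]) := by
      rw [hc]
      unfold tt
      rw [if_pos (show (1 : ZMod 2) = 1 from rfl)]
      push_cast
      ring
    have hnd : ¬ ((5 : ℕ) : ℤ) ∣ (if β = 1 then m else 1 : ℤ) * ((if a = 1 then -3 else 1) * Q) := by
      have hmul : ∀ x y : ℤ, ¬ ((5 : ℕ) : ℤ) ∣ x → ¬ ((5 : ℕ) : ℤ) ∣ y →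
          ¬ ((5 : ℕ) : ℤ) ∣ x * y := fun x y hx hy h => by
        rcases (Nat.prime_iff_prime_int.1 (by norm_num : Nat.Prime 5)).dvd_or_dvd h with h3 | h3
        · exact hx h3
        · exact hy h3
      refine hmul _ _ ?_ (hmul _ _ ?_ hnQ)
      · split_ifs
        · exact_mod_cast h3
        · norm_num
      · split_ifs <;> norm_num
    have hk0 : (((if β = 1 then m else 1 : ℤ) * ((if a = 1 then -3 else 1) * Q) : ℤ)) ≠ 0 := by
      intro h0
      rw [h0] at hnd
      exact hnd (dvd_zero _)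
    rw [e, Padic.valuation_mul (by norm_num) (by exact_mod_cast hk0), val_p,
      val_zero hnd] at e1
    exact absurd e1 (by decide)
  subst ha hc
  have htt : tt 0 0 = 1 := rfl
  rw [htt, one_mul] at h1
  refine ⟨rfl, rfl, ?_, ?_, ?_⟩
  · -- the sign
    have hpos : ¬ (((if α = 1 then -m else 1 : ℤ) * (TT s 0 * P) : ℤ) : ℚ) < 0 := q_neg h2
    have hpos' : ¬ ((if α = 1 then -m else 1 : ℤ) * (TT s 0 * P)) < 0 := by exact_mod_cast hpos
    unfold TT at hpos'
    rw [if_neg (show ¬ ((0 : ZMod 2) = 1) by decide), mul_one] at hpos'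
    rcases zmod_cases α with rfl | rfl
    · rw [if_neg (show ¬ ((0 : ZMod 2) = 1) by decide), one_mul] at hpos'
      rcases zmod_cases s with rfl | rfl
      · split_ifs <;> rfl
      · exfalso
        rw [if_pos rfl] at hpos'
        apply hpos'
        linarith
    · rw [if_pos rfl] at hpos'
      rcases lt_or_gt_of_ne hm0 with h3 | h3
      · exact (sol.s0 h3).trans (if_neg (by omega)).symm
      · rw [if_pos h3]
        rcases zmod_cases s with rfl | rfl
        · exfalso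
          rw [if_neg (by decide), one_mul] at hpos'
          apply hpos'
          exact mul_neg_of_neg_of_pos (by omega) hPpos
        · rfl
  · intro p hpP
    have : Fact p.Prime := ⟨hpr p hpP⟩
    have e1 := q_even (p := p) (mul_ne_zero hα0 (mul_ne_zero (TT_ne s 0) hPpos.ne')) h2
    have hα' : (((if α = 1 then -m else 1 : ℤ)) : ℚ_[p]) ≠ 0 := by exact_mod_cast hα0
    have hP' : ((P : ℤ) : ℚ_[p]) ≠ 0 := by exact_mod_cast hPpos.ne'
    have hT' : ((TT s 0 : ℤ) : ℚ_[p]) ≠ 0 := by exact_mod_cast TT_ne s 0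
    have hvT : ((TT s 0 : ℤ) : ℚ_[p]).valuation = 0 := by
      unfold TT
      rw [if_neg (show ¬ ((0 : ZMod 2) = 1) by decide), mul_one]
      split_ifs
      · push_cast
        rw [vneg, Padic.valuation_one]
      · push_cast
        exact Padic.valuation_one
    have hvα : (((if α = 1 then -m else 1 : ℤ)) : ℚ_[p]).valuation =
        if α = 1 then (if (p : ℤ) ∣ m then 1 else 0) else 0 := by
      split_ifs with h3 h4
      · push_cast
        rw [vneg]
        exact val_one h4 hs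
      · push_cast
        rw [vneg]
        exact val_zero h4
      · push_cast
        exact Padic.valuation_one
    rw [Int.cast_mul, Int.cast_mul, Padic.valuation_mul hα' (mul_ne_zero hT' hP'),
      Padic.valuation_mul hT' hP', hvT, hvα, val_prodX hs hX, zero_add] at e1
    unfold ind
    by_cases hpX : p ∈ X <;> by_cases hpm : (p : ℤ) ∣ m <;> rcases zmod_cases α with rfl | rfl
    · rw [if_pos hpX, if_neg (by decide)] at e1
      exact absurd e1 (by decide)
    · rw [if_pos hpX, if_pos hpm]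
    · rw [if_pos hpX, if_neg (by decide)] at e1
      exact absurd e1 (by decide)
    · rw [if_pos hpX, if_pos rfl, if_neg hpm] at e1
      exact absurd e1 (by decide)
    · rw [if_neg hpX, if_pos hpm]
    · rw [if_neg hpX, if_pos rfl, if_pos hpm] at e1
      exact absurd e1 (by decide)
    · rw [if_neg hpX, if_neg hpm]
    · rw [if_neg hpX, if_neg hpm]
  · intro q hq
    rcases zmod_cases β with rfl | rfl
    · rw [if_neg (by decide), one_mul] at h1
      have hYe := sq_prod_empty hs hY h1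
      rw [hYe]
      exact if_neg (Finset.notMem_empty q)
    · rw [if_pos rfl] at h1
      have hme : m = Q * ∏ q ∈ PR m \ Y, ps m q := by
        rw [hQ, mul_comm, Finset.prod_sdiff hY, prod_PR hs]
      have h3 : IsSquare ((∏ q ∈ PR m \ Y, ps m q : ℤ) : ℚ) := by
        have hQ0' : (Q : ℚ) ≠ 0 := by exact_mod_cast hQ0
        refine sq_of h1 hQ0' ?_
        have e : m * Q = Q * Q * ∏ q ∈ PR m \ Y, ps m q := by
          calc m * Q = (Q * ∏ q ∈ PR m \ Y, ps m q) * Q := by rw [← hme]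
            _ = _ := by ring
        exact_mod_cast e
      have h4 := sq_prod_empty hs Finset.sdiff_subset h3
      have h5 : q ∈ Y := by
        by_contra hcon
        have : q ∈ PR m \ Y := Finset.mem_sdiff.2 ⟨hq, hcon⟩
        rw [h4] at this
        exact Finset.notMem_empty q this
      exact if_pos h5

end

/-- **The converse.** -/
theorem sg15_of_fin2 {m : ℤ} (hs : Squarefree m) (h1 : m ≠ 1) (h2 : m ≠ -1)
    (hf : Fin2 (EQm m)) : Sg15 m := by
  classical
  intro x y s a c sol0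
  have hm0 := hs.ne_zero
  set X : Finset ℕ := (PR m).filter (fun p => x p ≠ 0) with hX
  set Y : Finset ℕ := (PR m).filter (fun p => y p ≠ 0) with hY
  have hXP : X ⊆ PR m := Finset.filter_subset _ _
  have hYP : Y ⊆ PR m := Finset.filter_subset _ _
  have ex : ∀ p ∈ PR m, x p = ind X p := by
    intro p hp
    unfold ind
    by_cases h : x p = 0
    · have h' : p ∉ X := fun h' => absurd h (Finset.mem_filter.1 h').2
      rw [if_neg h', h]
    · rw [if_pos (Finset.mem_filter.2 ⟨hp, h⟩)]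
      exact (zmod_cases (x p)).resolve_left h
  have ey : ∀ p ∈ PR m, y p = ind Y p := by
    intro p hp
    unfold ind
    by_cases h : y p = 0
    · have h' : p ∉ Y := fun h' => absurd h (Finset.mem_filter.1 h').2
      rw [if_neg h', h]
    · rw [if_pos (Finset.mem_filter.2 ⟨hp, h⟩)]
      exact (zmod_cases (y p)).resolve_left h
  have sumx : ∀ f : ℕ → ZMod 2, ∑ p ∈ PR m, f p * ind X p = ∑ p ∈ PR m, f p * x p := fun f =>
    Finset.sum_congr rfl fun p hp => by rw [ex p hp]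
  have sumy : ∀ f : ℕ → ZMod 2, ∑ p ∈ PR m, f p * ind Y p = ∑ p ∈ PR m, f p * y p := fun f =>
    Finset.sum_congr rfl fun p hp => by rw [ey p hp]
  have sol : Sol15 m (ind X) (ind Y) s a c :=
    { s0 := sol0.s0
      a0 := sol0.a0
      c0 := sol0.c0
      row := fun p hp => by rw [sumy]; exact sol0.row p hp
      col := fun q hq => by rw [sumx]; exact sol0.col q hq
      sgn := fun h => by rw [sumy]; exact sol0.sgn h
      at3 := fun h => by rw [sumx]; exact sol0.at3 h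
      at5 := fun h => by rw [sumx, sumy]; exact sol0.at5 h }
  have hEL := everywhere15 hs hXP hYP sol
  set d1 : ℤ := tt a c * ∏ q ∈ Y, ps m q with hd1
  set d2 : ℤ := TT s c * ∏ p ∈ X, ((p : ℕ) : ℤ) with hd2
  by_contra hcon
  have key : ∀ α β : ZMod 2, IsSquare (((if β = 1 then m else 1 : ℤ) * d1 : ℤ) : ℚ) →
      IsSquare (((if α = 1 then -m else 1 : ℤ) * d2 : ℤ) : ℚ) → False := by
    intro α β q1 q2
    obtain ⟨ha, hc, hs', hx, hy⟩ := trivial_of_sq hs hXP hYP sol α β q1 q2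
    exact hcon ⟨ha, hc, α, β, hs', fun p hp => by rw [ex p hp, hx p hp],
      fun q hq => by rw [ey q hq, hy q hq]⟩
  have hns : ¬ IsSquare (m : ℚ) := fun h => h1 (sqf_int_square hs h)
  have hns' : ¬ IsSquare (-(m : ℚ)) := fun h => by
    have h3 : IsSquare ((-m : ℤ) : ℚ) := by
      push_cast
      exact h
    have h4 := sqf_int_square (n := -m) (fun x hx => hs x (by rwa [dvd_neg] at hx)) h3
    exact h2 (by omega)
  have r0 : LocC ℝ (-9 * m) (16 * m) 0 1 1 :=
    locC_real15 hm0 one_ne_zero one_ne_zero (fun _ => one_pos) (fun _ => one_pos)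
  have hm1 : -m * 1 ≠ 0 := mul_ne_zero (neg_ne_zero.2 hm0) one_ne_zero
  have hm2 : m * 1 ≠ 0 := mul_ne_zero hm0 one_ne_zero
  let d : Fin 5 → ℤ × ℤ := ![(1, 1), (m * 1, 1), (1, -m * 1), (m * 1, -m * 1), (d1, d2)]
  have hall : ∀ i, EL m (d i) := by
    intro i
    fin_cases i
    · exact ⟨one_ne_zero, one_ne_zero, r0, fun p _ => locC_one15 p m⟩
    · exact ⟨hm2, one_ne_zero, locC_Tu hm0 r0, fun p _ => locC_Tu hm0 (locC_one15 p m)⟩
    · exact ⟨one_ne_zero, hm1, locC_Tv hm0 r0, fun p _ => locC_Tv hm0 (locC_one15 p m)⟩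
    · exact ⟨hm2, hm1, locC_Tu hm0 (locC_Tv hm0 r0),
        fun p _ => locC_Tu hm0 (locC_Tv hm0 (locC_one15 p m))⟩
    · exact hEL
  refine not_five15 hm0 hf d hall ?_
  intro i j hij
  rintro ⟨c1, c2⟩
  rcases cases5 i j hij with ⟨rfl, rfl⟩ | ⟨rfl, rfl⟩ | ⟨rfl, rfl⟩ | ⟨rfl, rfl⟩ | ⟨rfl, rfl⟩ | ⟨rfl, rfl⟩ |
    ⟨rfl, rfl⟩ | ⟨rfl, rfl⟩ | ⟨rfl, rfl⟩ | ⟨rfl, rfl⟩
  · -- 0, 1
    have h : IsSquare (((1 : ℤ) : ℚ) * ((m * 1 : ℤ) : ℚ)) := c1
    refine hns ?_
    have e : ((1 : ℤ) : ℚ) * ((m * 1 : ℤ) : ℚ) = m := by push_cast; ring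
    rwa [e] at h
  · -- 0, 2
    have h : IsSquare (((1 : ℤ) : ℚ) * ((-m * 1 : ℤ) : ℚ)) := c2
    refine hns' ?_
    have e : ((1 : ℤ) : ℚ) * ((-m * 1 : ℤ) : ℚ) = -m := by push_cast; ring
    rwa [e] at h
  · -- 0, 3
    have h : IsSquare (((1 : ℤ) : ℚ) * ((m * 1 : ℤ) : ℚ)) := c1
    refine hns ?_
    have e : ((1 : ℤ) : ℚ) * ((m * 1 : ℤ) : ℚ) = m := by push_cast; ring
    rwa [e] at h
  · -- 0, 4
    have h : IsSquare (((1 : ℤ) : ℚ) * (d1 : ℚ)) := c1
    have h' : IsSquare (((1 : ℤ) : ℚ) * (d2 : ℚ)) := c2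
    refine key 0 0 ?_ ?_
    · rw [if_neg (by decide)]
      push_cast at h ⊢
      exact h
    · rw [if_neg (by decide)]
      push_cast at h' ⊢
      exact h'
  · -- 1, 2
    have h : IsSquare (((m * 1 : ℤ) : ℚ) * ((1 : ℤ) : ℚ)) := c1
    refine hns ?_
    have e : ((m * 1 : ℤ) : ℚ) * ((1 : ℤ) : ℚ) = m := by push_cast; ring
    rwa [e] at h
  · -- 1, 3
    have h : IsSquare (((1 : ℤ) : ℚ) * ((-m * 1 : ℤ) : ℚ)) := c2
    refine hns' ?_
    have e : ((1 : ℤ) : ℚ) * ((-m * 1 : ℤ) : ℚ) = -m := by push_cast; ring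
    rwa [e] at h
  · -- 1, 4
    have h : IsSquare (((m * 1 : ℤ) : ℚ) * (d1 : ℚ)) := c1
    have h' : IsSquare (((1 : ℤ) : ℚ) * (d2 : ℚ)) := c2
    refine key 0 1 ?_ ?_
    · rw [if_pos rfl]
      rw [mul_one] at h
      push_cast at h ⊢
      exact h
    · rw [if_neg (by decide)]
      push_cast at h' ⊢
      exact h'
  · -- 2, 3
    have h : IsSquare (((1 : ℤ) : ℚ) * ((m * 1 : ℤ) : ℚ)) := c1
    refine hns ?_
    have e : ((1 : ℤ) : ℚ) * ((m * 1 : ℤ) : ℚ) = m := by push_cast; ring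
    rwa [e] at h
  · -- 2, 4
    have h : IsSquare (((1 : ℤ) : ℚ) * (d1 : ℚ)) := c1
    have h' : IsSquare (((-m * 1 : ℤ) : ℚ) * (d2 : ℚ)) := c2
    refine key 1 0 ?_ ?_
    · rw [if_neg (by decide)]
      push_cast at h ⊢
      exact h
    · rw [if_pos rfl]
      rw [mul_one] at h'
      push_cast at h' ⊢
      exact h'
  · -- 3, 4
    have h : IsSquare (((m * 1 : ℤ) : ℚ) * (d1 : ℚ)) := c1
    have h' : IsSquare (((-m * 1 : ℤ) : ℚ) * (d2 : ℚ)) := c2
    refine key 1 1 ?_ ?_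
    · rw [if_pos rfl]
      rw [mul_one] at h
      push_cast at h ⊢
      exact h
    · rw [if_pos rfl]
      rw [mul_one] at h'
      push_cast at h' ⊢
      exact h'

/-- **Finite Mordell-Weil group and `Ш[2] = 0` for the twists of `X_0(15)`: the criterion.** -/
theorem fin2_iff_sg15 {m : ℤ} (hs : Squarefree m) :
    Fin2 (EQm m) ↔ Sg15 m ∨ m = 1 ∨ m = -1 := by
  refine ⟨fun h => ?_, fin2_of_sg15 hs⟩
  by_cases h1 : m = 1
  · exact Or.inr (Or.inl h1)
  by_cases h2 : m = -1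
  · exact Or.inr (Or.inr h2)
  exact Or.inl (sg15_of_fin2 hs h1 h2 h)

/-- the same for the short equation `y² = x³ - 12987 m² x - 263466 m³` -/
theorem fin2S_iff_sg15 {m : ℤ} (hs : Squarefree m) :
    Fin2 (WS m) ↔ Sg15 m ∨ m = 1 ∨ m = -1 :=
  (fin2_S hs.ne_zero).trans (fin2_iff_sg15 hs)

end Pool.Agent.N875.D15
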