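import Pool.Agent.N875.D15.Fn
import Pool.Agent.N809.PQ.P15

/-!
# The classes of twists of `X_0(15)` with `Sg15`
-/

set_option autoImplicit false

open Finset

namespace Pool.Agent.N875.D15

open Pool.Agent.N875.X15
open Pool.Agent.N809.PQ (B3 B5 Sol15 Sg15 w15 sg15_parity)
open Pool.Agent.N972.GC (kr CY CM)
open Pool.Agent.N973.P15G (Ps Ng QQ Aii Aio Nis)
open Pool.Agent.N969.RQ (Fd R15 R15r)

/-- a positive squarefree integer `> 1` belongs to a positive fundamental discriminant -/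
theorem exists_Ps {m : ℤ} (hs : Squarefree m) (h : 1 < m) : ∃ A : ℕ, Ps A ∧ m = (mQ A : ℤ) := by
  obtain ⟨k, rfl⟩ := Int.eq_ofNat_of_zero_le (by omega : 0 ≤ m)
  have hk : Squarefree k := Int.squarefree_natCast.1 hs
  have h4 : k % 4 ≠ 0 := by
    intro h0
    have h1 : 2 * 2 ∣ k := by omega
    exact absurd (Nat.isUnit_iff.1 (hk 2 h1)) (by norm_num)
  by_cases h1 : k % 4 = 1
  · refine ⟨k, Or.inl ⟨hk, h1, by omega⟩, ?_⟩
    rw [mQ_odd (by omega)]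
  · refine ⟨4 * k, Or.inr ⟨k, rfl, hk, by omega⟩, ?_⟩
    have e : 4 * k / 4 = k := by omega
    rw [mQ_even (by omega), e]

/-- a negative squarefree integer belongs to a negative fundamental discriminant -/
theorem exists_Ng {m : ℤ} (hs : Squarefree m) (h : m < 0) : ∃ n : ℕ, Ng n ∧ m = -(mQ n : ℤ) := by
  obtain ⟨k, hk'⟩ := Int.eq_ofNat_of_zero_le (by omega : 0 ≤ -m)
  have e0 : m = -(k : ℤ) := by omega
  subst e0
  have hk : Squarefree k := Int.squarefree_natCast.1 fun x hx => hs x (by rwa [dvd_neg])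
  have h4 : k % 4 ≠ 0 := by
    intro h0
    have h1 : 2 * 2 ∣ k := by omega
    exact absurd (Nat.isUnit_iff.1 (hk 2 h1)) (by norm_num)
  by_cases h1 : k % 4 = 3
  · refine ⟨k, Or.inl ⟨hk, h1⟩, ?_⟩
    rw [mQ_odd (by omega)]
  · refine ⟨4 * k, Or.inr ⟨k, rfl, hk, by omega⟩, ?_⟩
    have e : 4 * k / 4 = k := by omega
    rw [mQ_even (by omega), e]

lemma jac5 (n : ℕ) : jacobiSym n 5 = 1 ↔ n % 5 = 1 ∨ n % 5 = 4 := by
  rw [jacobiSym.mod_left, show ((n : ℤ) % ((5 : ℕ) : ℤ)) = ((n % 5 : ℕ) : ℤ) by push_cast; rfl]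
  have h : n % 5 < 5 := Nat.mod_lt _ (by norm_num)
  interval_cases h5 : n % 5 <;> norm_num

lemma Ps_mod3 {A : ℕ} (h : Ps A) : mQ A % 3 = A % 3 := by
  rcases h with ⟨h1, h2, h3⟩ | ⟨k, rfl, h1, h2⟩
  · rw [mQ_odd (by omega)]
  · have e : 4 * k / 4 = k := by omega
    rw [mQ_even (by omega), e]
    omega

lemma Ps_mod5 {A : ℕ} (h : Ps A) : mQ A % 5 = 0 ∧ A % 5 = 0 ∨
    (mQ A % 5 = 1 ∨ mQ A % 5 = 4) ∧ (A % 5 = 1 ∨ A % 5 = 4) ∨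
    (mQ A % 5 = 2 ∨ mQ A % 5 = 3) ∧ (A % 5 = 2 ∨ A % 5 = 3) := by
  rcases h with ⟨h1, h2, h3⟩ | ⟨k, rfl, h1, h2⟩
  · rw [mQ_odd (by omega)]
    omega
  · have e : 4 * k / 4 = k := by omega
    rw [mQ_even (by omega), e]
    have h5 : k % 5 = 0 ∨ k % 5 = 1 ∨ k % 5 = 2 ∨ k % 5 = 3 ∨ k % 5 = 4 := by omega
    rcases h5 with h5 | h5 | h5 | h5 | h5
    · exact Or.inl ⟨h5, by omega⟩
    · exact Or.inr (Or.inl ⟨Or.inl h5, by omega⟩)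
    · exact Or.inr (Or.inr ⟨Or.inl h5, by omega⟩)
    · exact Or.inr (Or.inr ⟨Or.inr h5, by omega⟩)
    · exact Or.inr (Or.inl ⟨Or.inr h5, by omega⟩)

lemma B3_pos {A : ℕ} (h : Ps A) : B3 (mQ A : ℤ) ↔ A % 3 = 2 := by
  have := Ps_mod3 h
  unfold B3
  omega

lemma B5_pos {A : ℕ} (h : Ps A) : B5 (mQ A : ℤ) ↔ A % 5 = 1 ∨ A % 5 = 4 := by
  have := Ps_mod5 h
  unfold B5
  omega

lemma Ps_Fd {A : ℕ} (h : Ps A) : Fd A := by
  rcases h with ⟨h1, h2, h3⟩ | ⟨k, rfl, h1, h2⟩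
  · exact ⟨h3, Or.inl ⟨h1, h2⟩⟩
  · exact ⟨by omega, Or.inr ⟨k, rfl, h1, h2⟩⟩

/-- **The classes of twists of level `15` with the criterion `Sg15`, and their criteria.** -/
theorem split15 {m : ℤ} (hs : Squarefree m) (h1 : m ≠ 1) (h2 : m ≠ -1) (hS : Sg15 m) :
    (∃ A : ℕ, m = (mQ A : ℤ) ∧ (((Aii A ∨ Aio A) ∧ CY (-3) A) ∨ ((R15 A ∨ R15r A) ∧ CY 5 A))) ∨
    ∃ n : ℕ, m = -(mQ n : ℤ) ∧ ((Nis n ∧ CM (-3) 5 n) ∨
      (Ng n ∧ n % 3 ≠ 1 ∧ (n % 5 = 0 ∨ n % 5 = 2 ∨ n % 5 = 3) ∧ QQ n)) := by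
  have hw := sg15_parity hs h1 h2 hS
  have hm0 := hs.ne_zero
  unfold w15 at hw
  rcases lt_or_gt_of_ne hm0 with hneg | hpos
  · right
    obtain ⟨n, hn, rfl⟩ := exists_Ng hs hneg
    refine ⟨n, rfl, ?_⟩
    rw [if_pos hneg] at hw
    have e3 := B3_neg hn
    have e5 := B5_neg hn
    by_cases h3 : B3 (-(mQ n : ℤ))
    · have h5 : B5 (-(mQ n : ℤ)) := by
        by_contra h5
        rw [if_pos (id h3 : _ % (3 : ℤ) = 2), if_neg (id h5 : ¬ (_ % (5 : ℤ) = 1 ∨ _ % (5 : ℤ) = 4))] at hw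
        norm_num at hw
      exact Or.inl ⟨⟨hn, e3.1 h3, e5.1 h5⟩, cm_of_sg hn h3 h5 hS⟩
    · have h5 : ¬ B5 (-(mQ n : ℤ)) := by
        intro h5
        rw [if_neg (id h3 : ¬ _ % (3 : ℤ) = 2), if_pos (id h5 : _ % (5 : ℤ) = 1 ∨ _ % (5 : ℤ) = 4)] at hw
        norm_num at hw
      obtain ⟨c3, c5⟩ := cls_neg hn h3 h5
      exact Or.inr ⟨hn, c3, c5, qq_of_sg hn h3 h5 hs hS⟩
  · left
    obtain ⟨A, hA, rfl⟩ := exists_Ps hs (by omega)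
    refine ⟨A, rfl, ?_⟩
    rw [if_neg (by omega)] at hw
    have e3 := B3_pos hA
    have e5 := B5_pos hA
    by_cases h3 : B3 (mQ A : ℤ)
    · have h5 : ¬ B5 (mQ A : ℤ) := by
        intro h5
        rw [if_pos (id h3 : _ % (3 : ℤ) = 2), if_pos (id h5 : _ % (5 : ℤ) = 1 ∨ _ % (5 : ℤ) = 4)] at hw
        norm_num at hw
      refine Or.inl ⟨?_, cy_of_sg hA (Or.inl ⟨rfl, h3, h5⟩) hS⟩
      rw [e5] at h5
      rw [e3] at h3
      by_cases h50 : A % 5 = 0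
      · exact Or.inr ⟨hA, h3, by omega⟩
      · exact Or.inl ⟨hA, h3, by omega⟩
    · have h5 : B5 (mQ A : ℤ) := by
        by_contra h5
        rw [if_neg (id h3 : ¬ _ % (3 : ℤ) = 2), if_neg (id h5 : ¬ (_ % (5 : ℤ) = 1 ∨ _ % (5 : ℤ) = 4))] at hw
        norm_num at hw
      refine Or.inr ⟨?_, cy_of_sg hA (Or.inr ⟨rfl, h3, h5⟩) hS⟩
      rw [e5] at h5
      rw [e3] at h3
      by_cases h30 : A % 3 = 0
      · exact Or.inr ⟨Ps_Fd hA, by omega, (jac5 A).2 h5⟩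
      · exact Or.inl ⟨Ps_Fd hA, by omega, (jac5 A).2 h5⟩

end Pool.Agent.N875.D15
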