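import Mathlib

/-!
# A bordered square system is injective iff its transpose is
-/

set_option autoImplicit false

open Finset

namespace Pool.Agent.N875.D15

private lemma two' (t : ZMod 2) : t + t = 0 := by revert t; decide

/-- the bordered matrix `[[M, r], [s, 0]]` -/
theorem bord (P : Finset ℕ) (M : ℕ → ℕ → ZMod 2) (r s : ℕ → ZMod 2)
    (hB : ∀ (v : ℕ → ZMod 2) (t : ZMod 2), (∀ p ∈ P, ∑ q ∈ P, M p q * v q + t * r p = 0) →
      ∑ q ∈ P, s q * v q = 0 → (∀ p ∈ P, v p = 0) ∧ t = 0)
    (w : ℕ → ZMod 2) (t : ZMod 2) (h1 : ∀ q ∈ P, ∑ p ∈ P, M p q * w p + t * s q = 0)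
    (h2 : ∑ p ∈ P, r p * w p = 0) : (∀ p ∈ P, w p = 0) ∧ t = 0 := by
  classical
  let B : Matrix (Option P) (Option P) (ZMod 2) := fun i j =>
    match i, j with
    | some p, some q => M p q
    | some p, none => r p
    | none, some q => s q
    | none, none => 0
  have inj : ∀ v : Option P → ZMod 2, Matrix.mulVec B v = 0 → v = 0 := by
    intro v hv
    have e := hB (fun p => if h : p ∈ P then v (some ⟨p, h⟩) else 0) (v none) (fun p hp => by
        have h1 := congrFun hv (some ⟨p, hp⟩)
        simp only [Matrix.mulVec, dotProduct, Fintype.sum_option, Pi.zero_apply] at h1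
        have h2 : r p * v none + ∑ q : P, M p q * v (some q) = 0 := h1
        rw [← h2, add_comm, mul_comm]
        congr 1
        rw [← Finset.sum_coe_sort P]
        exact Finset.sum_congr rfl fun q _ => by rw [dif_pos q.2]) (by
        have h1 := congrFun hv none
        simp only [Matrix.mulVec, dotProduct, Fintype.sum_option, Pi.zero_apply] at h1
        have h2 : 0 * v none + ∑ q : P, s q * v (some q) = 0 := h1
        rw [zero_mul, zero_add] at h2
        refine Eq.trans ?_ h2
        rw [← Finset.sum_coe_sort P]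
        exact Finset.sum_congr rfl fun q _ => by rw [dif_pos q.2])
    funext i
    rcases i with _ | p
    · exact e.2
    · have := e.1 p p.2
      rwa [dif_pos p.2] at this
  have hw : Matrix.vecMul (fun i : Option P => match i with
      | some p => w p
      | none => t) B = 0 := by
    funext j
    rcases j with _ | q
    · simp only [Matrix.vecMul, dotProduct, Fintype.sum_option, Pi.zero_apply]
      show t * 0 + ∑ p : P, w p * r p = 0
      rw [mul_zero, zero_add, Finset.sum_coe_sort P (fun p => w p * r p), ← h2]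
      exact Finset.sum_congr rfl fun p _ => mul_comm _ _
    · simp only [Matrix.vecMul, dotProduct, Fintype.sum_option, Pi.zero_apply]
      show t * s q + ∑ p : P, w p * M p q = 0
      rw [← h1 q q.2, add_comm, Finset.sum_coe_sort P (fun p => w p * M p q)]
      congr 1
      exact Finset.sum_congr rfl fun p _ => mul_comm _ _
  by_contra hne
  have hne' : (fun i : Option P => match i with
      | some p => w p
      | none => t) ≠ 0 := by
    intro h0
    refine hne ⟨fun p hp => ?_, congrFun h0 none⟩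
    exact congrFun h0 (some ⟨p, hp⟩)
  obtain ⟨v, hv1, hv2⟩ := Matrix.exists_mulVec_eq_zero_iff.2
    (Matrix.exists_vecMul_eq_zero_iff.1 ⟨_, hne', hw⟩)
  exact hv1 (inj v hv2)

/-- the left kernel of `(L | ρ)` is trivial if its right kernel is spanned by the constant vector -/
theorem left_of_right (P : Finset ℕ) (hP : P.Nonempty) (L : ℕ → ℕ → ZMod 2) (ρ : ℕ → ZMod 2)
    (hR : ∀ (x : ℕ → ZMod 2) (a : ZMod 2), (∀ p ∈ P, ∑ q ∈ P, L p q * x q = a * ρ p) →
      a = 0 ∧ ∀ p ∈ P, ∀ q ∈ P, x p = x q)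
    (z : ℕ → ZMod 2) (h1 : ∀ q ∈ P, ∑ p ∈ P, L p q * z p = 0) (h2 : ∑ p ∈ P, ρ p * z p = 0) :
    ∀ p ∈ P, z p = 0 := by
  classical
  obtain ⟨i0, hi0⟩ := hP
  refine (bord P L ρ (fun q => if q = i0 then 1 else 0) ?_ z 0 (fun q hq => by
    rw [h1 q hq, zero_mul, add_zero]) h2).1
  intro v t hv hs
  have e : ∑ q ∈ P, (if q = i0 then (1 : ZMod 2) else 0) * v q = v i0 := by
    simp only [ite_mul, one_mul, zero_mul]
    rw [Finset.sum_ite_eq' P i0, if_pos hi0]
  rw [e] at hs
  obtain ⟨ht, hc⟩ := hR v t (fun p hp => by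
    have h3 := hv p hp
    have key : ∀ s u : ZMod 2, s + u = 0 → s = u := by decide
    exact key _ _ h3)
  exact ⟨fun p hp => by rw [hc p hp i0 hi0, hs], ht⟩

/-- the left kernel of a square matrix whose right kernel is spanned by the constant vector is
spanned by any nonzero element `x₀` -/
theorem left_one (P : Finset ℕ) (M : ℕ → ℕ → ZMod 2)
    (hR : ∀ x : ℕ → ZMod 2, (∀ p ∈ P, ∑ q ∈ P, M p q * x q = 0) → ∀ p ∈ P, ∀ q ∈ P, x p = x q)
    (x0 : ℕ → ZMod 2) {j0 : ℕ} (hj0 : j0 ∈ P) (hx0 : x0 j0 = 1)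
    (h0 : ∀ q ∈ P, ∑ p ∈ P, M p q * x0 p = 0) (z : ℕ → ZMod 2)
    (hz : ∀ q ∈ P, ∑ p ∈ P, M p q * z p = 0) : ∀ p ∈ P, z p = z j0 * x0 p := by
  classical
  have hsel : ∀ v : ℕ → ZMod 2, ∑ q ∈ P, (if q = j0 then (1 : ZMod 2) else 0) * v q = v j0 := by
    intro v
    simp only [ite_mul, one_mul, zero_mul]
    rw [Finset.sum_ite_eq' P j0, if_pos hj0]
  have key := (bord P M (fun q => if q = j0 then 1 else 0) (fun q => if q = j0 then 1 else 0) ?_
    (fun p => z p + z j0 * x0 p) 0 (fun q hq => by
      rw [zero_mul, add_zero]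
      have e : ∑ p ∈ P, M p q * (z p + z j0 * x0 p) =
          ∑ p ∈ P, M p q * z p + z j0 * ∑ p ∈ P, M p q * x0 p := by
        rw [Finset.mul_sum, ← Finset.sum_add_distrib]
        exact Finset.sum_congr rfl fun p _ => by ring
      rw [e, hz q hq, h0 q hq, mul_zero, add_zero]) (by
      rw [hsel, hx0, mul_one, two'])).1
  · intro p hp
    have h3 := key p hp
    have k2 : ∀ s u : ZMod 2, s + u = 0 → s = u := by decide
    exact k2 _ _ h3
  · intro v t hv hs
    rw [hsel] at hs
    have ht : t = 0 := by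
      have e1 : ∑ p ∈ P, x0 p * (∑ q ∈ P, M p q * v q + t * (if p = j0 then 1 else 0)) = 0 :=
        Finset.sum_eq_zero fun p hp => by rw [hv p hp, mul_zero]
      have e2 : ∑ p ∈ P, x0 p * (∑ q ∈ P, M p q * v q + t * (if p = j0 then 1 else 0)) =
          ∑ q ∈ P, (∑ p ∈ P, M p q * x0 p) * v q + t * ∑ p ∈ P, (if p = j0 then 1 else 0) * x0 p := by
        have e3 : ∑ q ∈ P, (∑ p ∈ P, M p q * x0 p) * v q =
            ∑ p ∈ P, x0 p * ∑ q ∈ P, M p q * v q := by
          simp only [Finset.sum_mul, Finset.mul_sum]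
          rw [Finset.sum_comm]
          exact Finset.sum_congr rfl fun p _ => Finset.sum_congr rfl fun q _ => by ring
        rw [e3, Finset.mul_sum, ← Finset.sum_add_distrib]
        exact Finset.sum_congr rfl fun p _ => by ring
      rw [e2, hsel, hx0, mul_one, Finset.sum_eq_zero (fun q hq => by rw [h0 q hq, zero_mul]),
        zero_add] at e1
      exact e1
    have hc := hR v (fun p hp => by
      have h3 := hv p hp
      rwa [ht, zero_mul, add_zero] at h3)
    exact ⟨fun p hp => by rw [hc p hp j0 hj0, hs], ht⟩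

end Pool.Agent.N875.D15
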