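import Pool.Agent.N875.D15.Ker
import Pool.Agent.N875.P17.FinE
import Pool.Agent.N809.PQ.Def
import Pool.Agent.N972.GC.Defs
import Pool.Agent.N973.P15G.Defs2

/-!
# The criteria of the classes of twists of `X_0(15)` from the criterion `Sg15`
-/

set_option autoImplicit false

open Finset

namespace Pool.Agent.N875.D15

open Pool.Agent.N875.X15
open Pool.Agent.N875.P17 (Lm al two_zmod row_sum zmod_cases FP PR_P LLP_eq starP_odd PR_pos odd_pos
  FD mD PR_mD LL_eq star_odd star_two mD_sqf two_not)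
open Pool.Agent.N809.PQ (B3 B5 Sol15 Sg15)
open Pool.Agent.N972.GC (kr CY CM)
open Pool.Agent.N973.P15G (Ps Ng)
open Pool.Agent.N969.P17G (lsP LLP)
open Pool.Agent.N972.P17 (ls LL)

/-- the squarefree part of a fundamental discriminant of absolute value `A` -/
def mQ (A : ℕ) : ℕ := if 2 ∣ A then A / 4 else A

lemma mQ_odd {A : ℕ} (h : ¬ 2 ∣ A) : mQ A = A := if_neg h

lemma mQ_even {A : ℕ} (h : 2 ∣ A) : mQ A = A / 4 := if_pos h

lemma kr_eq {s : ℤ} (hs : s = -3 ∨ s = 5) (p : ℕ) : kr s p = ra p s := by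
  unfold kr ra
  by_cases hp : p = 2
  · subst hp
    rw [if_pos rfl, ch_two]
    rcases hs with rfl | rfl <;> rfl
  · rw [if_neg hp, ch_odd hp]

section pos

variable {A : ℕ}

lemma Ps_FP (h : Ps A) : (Squarefree A ∧ A % 4 = 1 ∧ mQ A = A) ∨ FP A (mQ A) := by
  rcases h with ⟨h1, h2, h3⟩ | ⟨M, rfl, h1, h2⟩
  · exact Or.inl ⟨h1, h2, mQ_odd (by omega)⟩
  · right
    have e : mQ (4 * M) = M := by
      rw [mQ_even (by omega)]
      omega
    rw [e]
    exact ⟨rfl, h1, h2⟩

lemma Ps_pos (h : Ps A) : 0 < (mQ A : ℤ) := by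
  rcases h with ⟨h1, h2, h3⟩ | ⟨M, rfl, h1, h2⟩
  · rw [mQ_odd (by omega)]
    exact_mod_cast (by omega : 0 < A)
  · rw [mQ_even (by omega)]
    have : 0 < 4 * M / 4 := by omega
    exact_mod_cast this

lemma Ps_nonempty (h : Ps A) : A.primeFactors.Nonempty := by
  rw [Nat.nonempty_primeFactors]
  rcases h with ⟨h1, h2, h3⟩ | ⟨M, rfl, h1, h2⟩
  · exact h3
  · omega

lemma Ps_PR (h : Ps A) : PR (mQ A : ℤ) = A.primeFactors := by
  rcases Ps_FP h with ⟨h1, h2, h3⟩ | h1
  · rw [h3]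
    exact PR_pos h2
  · exact PR_P h1

lemma Ps_LLP (h : Ps A) {p q : ℕ} (hp : p ∈ A.primeFactors) (hq : q ∈ A.primeFactors) :
    LLP A p q = Lm (mQ A : ℤ) p q := by
  rcases Ps_FP h with ⟨h1, h2, h3⟩ | h1
  · rw [h3]
    have hp2 := odd_pos h2 hp
    have key : ∀ r ∈ A.primeFactors, lsP A r p = ra p (ps (A : ℤ) r) := by
      intro r hr
      have hr2 := odd_pos h2 hr
      unfold lsP ra
      rw [if_neg hp2, ch_odd hp2, starP_odd hr2, ps_odd hr2]
    unfold LLP Lm
    by_cases hpq : p = q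
    · rw [if_pos hpq, if_pos hpq, PR_pos h2]
      exact Finset.sum_congr rfl fun r hr => key r (Finset.mem_of_mem_erase hr)
    · rw [if_neg hpq, if_neg hpq]
      exact key q hq
  · exact LLP_eq h1 hp hq

/-- **positive discriminants**: the criterion `CY (-3)` (`3` inert, `5` not split) and the criterion
`CY 5` (`3` not inert, `5` split) -/
theorem cy_of_sg {s : ℤ} (hA : Ps A)
    (hs : (s = -3 ∧ B3 (mQ A : ℤ) ∧ ¬ B5 (mQ A : ℤ)) ∨ (s = 5 ∧ ¬ B3 (mQ A : ℤ) ∧ B5 (mQ A : ℤ)))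
    (hS : Sg15 (mQ A : ℤ)) : CY s A := by
  intro x a hx
  have hs' : s = -3 ∨ s = 5 := hs.imp (fun h => h.1) (fun h => h.1)
  refine right_of_left A.primeFactors (Ps_nonempty hA) (LLP A) (kr s) (fun p hp => ?_) ?_ x a hx
  · rw [← row_sum (m := (mQ A : ℤ)) (p := p) (by rw [Ps_PR hA]; exact hp), Ps_PR hA]
    exact Finset.sum_congr rfl fun q hq => Ps_LLP hA hp hq
  · intro z hz hρ
    have hz' : ∀ q ∈ A.primeFactors, ∑ p ∈ A.primeFactors, Lm (mQ A : ℤ) p q * z p = 0 := by
      intro q hq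
      rw [← hz q hq]
      exact Finset.sum_congr rfl fun p hp => by rw [Ps_LLP hA hp hq]
    have hρ' : ∑ p ∈ A.primeFactors, ra p s * z p = 0 := by
      rw [← hρ]
      exact Finset.sum_congr rfl fun p hp => by rw [kr_eq hs']
    have sol : Sol15 (mQ A : ℤ) z (fun _ => 0) 0 0 0 :=
      { s0 := fun _ => rfl
        a0 := fun _ => rfl
        c0 := fun _ => rfl
        row := fun p _ => by simp
        col := fun q hq => by
          rw [Ps_PR hA] at hq ⊢
          rw [hz' q hq]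
          simp
        sgn := fun _ => by simp
        at3 := fun h3 => by
          rcases hs with ⟨rfl, -, -⟩ | ⟨-, h, -⟩
          · rw [Ps_PR hA, hρ']
            rfl
          · exact absurd h3 h
        at5 := fun h5 => by
          rcases hs with ⟨-, -, h⟩ | ⟨rfl, -, -⟩
          · exact absurd h5 h
          · rw [Ps_PR hA, hρ']
            simp }
    obtain ⟨-, -, α, β, h1, h2, -⟩ := hS _ _ _ _ _ sol
    rw [if_pos (Ps_pos hA)] at h1
    subst h1
    intro p hp
    rw [h2 p (by rw [Ps_PR hA]; exact hp)]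
    exact ite_self _

end pos

section neg

variable {n : ℕ}

lemma Ng_FD (h : Ng n) : FD n := h

lemma Ng_mD (h : Ng n) : mD n = -(mQ n : ℤ) := by
  unfold mD mQ
  by_cases h2 : 2 ∣ n
  · rw [if_neg (by omega), if_pos h2]
  · rw [if_pos (by omega), if_neg h2]

lemma Ng_pos (h : Ng n) : 0 < (mQ n : ℤ) := by
  have h1 := (mD_sqf (Ng_FD h)).ne_zero
  rw [Ng_mD h] at h1
  have : 0 ≤ (mQ n : ℤ) := Int.natCast_nonneg _
  omega

lemma Ng_PR (h : Ng n) : PR (-(mQ n : ℤ)) = n.primeFactors := by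
  rw [← Ng_mD h]
  exact PR_mD h

lemma Ng_LL (h : Ng n) {p q : ℕ} (hp : p ∈ n.primeFactors) (hq : q ∈ n.primeFactors) :
    LL n p q = Lm (-(mQ n : ℤ)) p q := by
  rw [← Ng_mD h]
  exact LL_eq h hp hq

lemma Ng_ls (h : Ng n) {r q : ℕ} (hr : r.Prime) (hr2 : r ≠ 2) (hq : q ∈ n.primeFactors) :
    ls n q r = ra r (ps (-(mQ n : ℤ)) q) := by
  rw [← Ng_mD h]
  unfold ls ra
  rw [if_neg hr2, ch_odd hr2]
  by_cases hq2 : q = 2
  · subst hq2
    rcases h with h | h
    · exact absurd rfl (two_not h hq)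
    · rw [star_two h]
      have h4 : jacobiSym (4 * ps (mD n) 2) r = jacobiSym (ps (mD n) 2) r := by
        rw [jacobiSym.mul_left]
        have h5 : jacobiSym 4 r = 1 := by
          have e : (4 : ℤ) = 2 ^ 2 := by norm_num
          rw [e]
          refine jacobiSym.sq_one' ?_
          have : Nat.Coprime 2 r := (Nat.coprime_primes Nat.prime_two hr).2 (Ne.symm hr2)
          exact_mod_cast this
        rw [h5, one_mul]
      rw [h4]
  · rw [star_odd hq2, ps_odd hq2]

/-- **negative discriminants, `3` inert and `5` split**: the criterion `CM (-3) 5` -/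
theorem cm_of_sg (hn : Ng n) (h3 : B3 (-(mQ n : ℤ))) (h5 : B5 (-(mQ n : ℤ)))
    (hS : Sg15 (-(mQ n : ℤ))) : CM (-3) 5 n := by
  intro x hx
  set a : ZMod 2 := ∑ q ∈ n.primeFactors, ls n q 5 * x q with ha
  have ha' : ∑ q ∈ n.primeFactors, ra 5 (ps (-(mQ n : ℤ)) q) * x q = a := by
    rw [ha]
    exact Finset.sum_congr rfl fun q hq => by rw [Ng_ls hn (by norm_num) (by norm_num) hq]
  have sol : Sol15 (-(mQ n : ℤ)) (fun _ => 0) x 0 a 0 :=
    { s0 := fun _ => rfl
      a0 := fun h => absurd h3 h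
      c0 := fun _ => rfl
      row := fun p hp => by
        rw [Ng_PR hn] at hp ⊢
        have h1 : ∑ q ∈ n.primeFactors, Lm (-(mQ n : ℤ)) p q * x q = a * ra p (-3) := by
          rw [← kr_eq (Or.inl rfl), ← hx p hp]
          exact Finset.sum_congr rfl fun q hq => by rw [Ng_LL hn hp hq]
        rw [h1, zero_mul, add_zero, two_zmod]
      col := fun q _ => by simp
      sgn := fun h => absurd h (by have := Ng_pos hn; omega)
      at3 := fun _ => by simp
      at5 := fun _ => by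
        rw [Ng_PR hn, ha']
        simp [two_zmod] }
  obtain ⟨-, -, α, β, -, -, h2⟩ := hS _ _ _ _ _ sol
  intro p hp q hq
  rw [← Ng_PR hn] at hp hq
  rw [h2 p hp, h2 q hq]

end neg

end Pool.Agent.N875.D15
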