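import Pool.Agent.N875.D15.Bord
import Pool.Agent.N875.D15.Split

/-!
# The converses: `Sg15` from the criteria of the classes
-/

set_option autoImplicit false

open Finset

namespace Pool.Agent.N875.D15

open Pool.Agent.N875.X15
open Pool.Agent.N875.P17 (Lm al two_zmod row_sum zmod_cases)
open Pool.Agent.N809.PQ (B3 B5 Sol15 Sg15 w15 sg15_parity tor15_x tor15_y)
open Pool.Agent.N972.GC (kr CY CM)
open Pool.Agent.N973.P15G (Ps Ng QQ Aii Aio Nis)
open Pool.Agent.N969.RQ (Fd R15 R15r)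
open Pool.Agent.N969.P17G (LLP)
open Pool.Agent.N972.P17 (ls LL)

section pos

variable {A : ℕ}

/-- **the converse for the positive discriminants** -/
theorem sg_of_cy {s : ℤ} (hA : Ps A) (hsq : Squarefree (mQ A : ℤ))
    (hs : (s = -3 ∧ B3 (mQ A : ℤ) ∧ ¬ B5 (mQ A : ℤ)) ∨ (s = 5 ∧ ¬ B3 (mQ A : ℤ) ∧ B5 (mQ A : ℤ)))
    (h : CY s A) : Sg15 (mQ A : ℤ) := by
  classical
  intro x y σ a c sol
  have hs' : s = -3 ∨ s = 5 := hs.imp (fun h => h.1) (fun h => h.1)
  have hpos := Ps_pos hA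
  have hP := Ps_PR hA
  have T := tor15_x hsq
  have TY := tor15_y hsq
  set tor : ℕ → ZMod 2 := fun p => if (p : ℤ) ∣ (mQ A : ℤ) then 1 else 0 with htor
  have hR : ∀ (x : ℕ → ZMod 2) (a : ZMod 2), (∀ p ∈ A.primeFactors,
      ∑ q ∈ A.primeFactors, Lm (mQ A : ℤ) p q * x q = a * ra p s) →
      a = 0 ∧ ∀ p ∈ A.primeFactors, ∀ q ∈ A.primeFactors, x p = x q := by
    intro x a hx
    refine h x a (fun p hp => ?_)
    rw [kr_eq hs', ← hx p hp]
    exact Finset.sum_congr rfl fun q hq => by rw [Ps_LLP hA hp hq]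
  -- the rows
  have hrow : a = 0 ∧ c = 0 ∧ ∀ p ∈ A.primeFactors, ∀ q ∈ A.primeFactors, y p = y q := by
    rcases hs with ⟨rfl, h3, h5⟩ | ⟨rfl, h3, h5⟩
    · have hc := sol.c0 h5
      obtain ⟨e1, e2⟩ := hR y a (fun p hp => by
        have h1 := sol.row p (by rw [hP]; exact hp)
        rw [hP, hc, zero_mul, add_zero] at h1
        have key : ∀ s u : ZMod 2, s + u = 0 → s = u := by decide
        exact key _ _ h1)
      exact ⟨e1, hc, e2⟩
    · have ha := sol.a0 h3
      obtain ⟨e1, e2⟩ := hR y c (fun p hp => by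
        have h1 := sol.row p (by rw [hP]; exact hp)
        rw [hP, ha, zero_mul, add_zero] at h1
        have key : ∀ s u : ZMod 2, s + u = 0 → s = u := by decide
        exact key _ _ h1)
      exact ⟨ha, e1, e2⟩
  obtain ⟨ha, hc, hy⟩ := hrow
  subst ha hc
  obtain ⟨i0, hi0⟩ := Ps_nonempty hA
  -- the columns
  have Tcol : ∀ q ∈ A.primeFactors, ∑ p ∈ A.primeFactors, Lm (mQ A : ℤ) p q * tor p =
      al (mQ A : ℤ) q := by
    intro q hq
    have h1 := T.col q (by rw [hP]; exact hq)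
    rw [if_pos hpos, hP, one_mul, zero_mul, add_zero] at h1
    have key : ∀ s u : ZMod 2, s + u = 0 → s = u := by decide
    exact key _ _ h1
  have hcol : ∀ q ∈ A.primeFactors, ∑ p ∈ A.primeFactors, Lm (mQ A : ℤ) p q *
      (x p + σ * tor p) = 0 := by
    intro q hq
    have h1 := sol.col q (by rw [hP]; exact hq)
    rw [hP, zero_mul, add_zero] at h1
    have e : ∑ p ∈ A.primeFactors, Lm (mQ A : ℤ) p q * (x p + σ * tor p) =
        ∑ p ∈ A.primeFactors, Lm (mQ A : ℤ) p q * x p +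
          σ * ∑ p ∈ A.primeFactors, Lm (mQ A : ℤ) p q * tor p := by
      rw [Finset.mul_sum, ← Finset.sum_add_distrib]
      exact Finset.sum_congr rfl fun p _ => by ring
    rw [e, Tcol q hq, h1]
  have hρ : ∑ p ∈ A.primeFactors, ra p s * (x p + σ * tor p) = 0 := by
    have e : ∑ p ∈ A.primeFactors, ra p s * (x p + σ * tor p) =
        ∑ p ∈ A.primeFactors, ra p s * x p + σ * ∑ p ∈ A.primeFactors, ra p s * tor p := by
      rw [Finset.mul_sum, ← Finset.sum_add_distrib]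
      exact Finset.sum_congr rfl fun p _ => by ring
    rw [e]
    rcases hs with ⟨rfl, h3, h5⟩ | ⟨rfl, h3, h5⟩
    · have h1 := sol.at3 h3
      have h2 := T.at3 h3
      rw [hP, add_zero] at h1 h2
      rw [if_pos hpos] at h2
      have e2 : ∑ p ∈ A.primeFactors, ra p (-3) * tor p = 1 := by
        have key : ∀ s u : ZMod 2, s + u = 0 → s = u := by decide
        exact key _ _ h2
      rw [e2, mul_one]
      exact h1
    · have h1 := sol.at5 h5
      have h2 := T.at5 h5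
      have h3 := TY.at5 h5
      rw [hP, add_zero] at h1 h2 h3
      have e2 : ∑ p ∈ A.primeFactors, ra p 5 * tor p = 0 := by
        rw [← h2]
        simp
      have e3 : ∑ q ∈ A.primeFactors, ra 5 (ps (mQ A : ℤ) q) * y q = 0 := by
        have h4 : ∑ q ∈ A.primeFactors, ra 5 (ps (mQ A : ℤ) q) * 1 = 0 := by
          rw [← h3]
          simp
        have h5 : ∑ q ∈ A.primeFactors, ra 5 (ps (mQ A : ℤ) q) * y q =
            (∑ q ∈ A.primeFactors, ra 5 (ps (mQ A : ℤ) q) * 1) * y i0 := by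
          rw [Finset.sum_mul]
          exact Finset.sum_congr rfl fun q hq => by rw [hy q hq i0 hi0, mul_one]
        rw [h5, h4, zero_mul]
      rw [e3, add_zero] at h1
      rw [h1, e2, mul_zero, add_zero]
  have hz := left_of_right A.primeFactors ⟨i0, hi0⟩ (Lm (mQ A : ℤ)) (fun p => ra p s) hR
    (fun p => x p + σ * tor p) hcol hρ
  refine ⟨rfl, rfl, σ, y i0, (if_pos hpos).symm, fun p hp => ?_, fun q hq => ?_⟩
  · have h1 : x p + σ * tor p = 0 := hz p (by rw [← hP]; exact hp)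
    have key : ∀ s u : ZMod 2, s + u = 0 → s = u := by decide
    rw [key _ _ h1, htor]
    show σ * (if (p : ℤ) ∣ (mQ A : ℤ) then 1 else 0) = _
    split_ifs
    · rw [mul_one]
    · rw [mul_zero]
  · exact hy q (by rw [← hP]; exact hq) i0 hi0

theorem sg_iff_cy {s : ℤ} (hA : Ps A) (hsq : Squarefree (mQ A : ℤ))
    (hs : (s = -3 ∧ B3 (mQ A : ℤ) ∧ ¬ B5 (mQ A : ℤ)) ∨ (s = 5 ∧ ¬ B3 (mQ A : ℤ) ∧ B5 (mQ A : ℤ))) :
    Sg15 (mQ A : ℤ) ↔ CY s A :=
  ⟨cy_of_sg hA hs, sg_of_cy hA hsq hs⟩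

end pos

section neg

variable {n : ℕ}

/-- **the converse for the negative discriminants, `3` inert and `5` split** -/
theorem sg_of_cm (hn : Ng n) (hsq : Squarefree (-(mQ n : ℤ))) (h1m : mQ n ≠ 1)
    (h3 : B3 (-(mQ n : ℤ))) (h5 : B5 (-(mQ n : ℤ))) (h : CM (-3) 5 n) : Sg15 (-(mQ n : ℤ)) := by
  classical
  intro x y σ a c sol
  have hneg : -(mQ n : ℤ) < 0 := by have := Ng_pos hn; omega
  have hP := Ng_PR hn
  have T := tor15_x hsq
  have TY := tor15_y hsq
  set m : ℤ := -(mQ n : ℤ) with hm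
  set tor : ℕ → ZMod 2 := fun p => if (p : ℤ) ∣ m then 1 else 0 with htor
  have hσ := sol.s0 hneg
  subst hσ
  rw [if_neg (by omega : ¬ 0 < m)] at T
  have key : ∀ s u : ZMod 2, s + u = 0 → s = u := by decide
  obtain ⟨j0, hj0, hj1⟩ : ∃ p : ℕ, p ∈ n.primeFactors ∧ tor p = 1 := by
    obtain ⟨p, hp, hd⟩ := Nat.exists_prime_and_dvd (n := mQ n) h1m
    have hd' : (p : ℤ) ∣ m := by
      rw [hm, dvd_neg]
      exact_mod_cast hd
    refine ⟨p, ?_, if_pos hd'⟩
    rw [← hP]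
    exact Pool.Agent.N809.PQ.PR_of_dvd hsq hp hd'
  have hR : ∀ x : ℕ → ZMod 2, (∀ p ∈ n.primeFactors, ∑ q ∈ n.primeFactors,
      (Lm m p q + ra p (-3) * ra 5 (ps m q)) * x q = 0) →
      ∀ p ∈ n.primeFactors, ∀ q ∈ n.primeFactors, x p = x q := by
    intro x hx
    refine h x (fun p hp => ?_)
    have e := hx p hp
    have e1 : ∑ q ∈ n.primeFactors, (Lm m p q + ra p (-3) * ra 5 (ps m q)) * x q =
        ∑ q ∈ n.primeFactors, Lm m p q * x q +
          (∑ q ∈ n.primeFactors, ra 5 (ps m q) * x q) * ra p (-3) := by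
      rw [Finset.sum_mul, ← Finset.sum_add_distrib]
      exact Finset.sum_congr rfl fun q _ => by ring
    rw [e1] at e
    have e2 := key _ _ e
    rw [kr_eq (Or.inl rfl)]
    have e3 : ∑ q ∈ n.primeFactors, LL n p q * x q = ∑ q ∈ n.primeFactors, Lm m p q * x q :=
      Finset.sum_congr rfl fun q hq => by rw [Ng_LL hn hp hq]
    have e4 : ∑ q ∈ n.primeFactors, ls n q 5 * x q = ∑ q ∈ n.primeFactors, ra 5 (ps m q) * x q :=
      Finset.sum_congr rfl fun q hq => by rw [Ng_ls hn (by norm_num) (by norm_num) hq]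
    rw [e3, e4]
    exact e2
  have split : ∀ (z : ℕ → ZMod 2) (q : ℕ), ∑ p ∈ n.primeFactors,
      (Lm m p q + ra p (-3) * ra 5 (ps m q)) * z p = ∑ p ∈ n.primeFactors, Lm m p q * z p +
        (∑ p ∈ n.primeFactors, ra p (-3) * z p) * ra 5 (ps m q) := by
    intro z q
    rw [Finset.sum_mul, ← Finset.sum_add_distrib]
    exact Finset.sum_congr rfl fun p _ => by ring
  have T3 := T.at3 h3
  have T5 := T.at5 h5
  rw [hP, add_zero, add_zero] at T3
  have T5' : ∑ p ∈ n.primeFactors, ra p 5 * tor p = 0 := by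
    rw [← T5, hP]
    simp
  have Y5 := TY.at5 h5
  have Y5' : ∑ q ∈ n.primeFactors, ra 5 (ps m q) * 1 = 0 := by
    rw [← Y5, hP]
    simp
  have s3 := sol.at3 h3
  have s5 := sol.at5 h5
  rw [hP, add_zero] at s3
  rw [hP] at s5
  have hx := left_one n.primeFactors (fun p q => Lm m p q + ra p (-3) * ra 5 (ps m q)) hR tor hj0 hj1
    (fun q hq => by
      have h1 := T.col q (by rw [hP]; exact hq)
      rw [hP, zero_mul, zero_mul, add_zero, add_zero] at h1
      rw [split, h1, T3, zero_mul, add_zero]) x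
    (fun q hq => by
      have h1 := sol.col q (by rw [hP]; exact hq)
      rw [hP, zero_mul, add_zero] at h1
      rw [split, key _ _ s3]
      exact h1)
  have hsum : ∀ f : ℕ → ZMod 2, ∑ p ∈ n.primeFactors, f p * x p =
      x j0 * ∑ p ∈ n.primeFactors, f p * tor p := by
    intro f
    rw [Finset.mul_sum]
    exact Finset.sum_congr rfl fun p hp => by rw [hx p hp]; ring
  have hc : c = 0 := by
    rw [hsum, T3, mul_zero, zero_add] at s3
    exact s3
  subst hc
  have ha : a = ∑ q ∈ n.primeFactors, ra 5 (ps m q) * y q := by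
    rw [hsum, T5', mul_zero, zero_add] at s5
    exact (key _ _ s5).symm
  have hy := hR y (fun p hp => by
    have h1 := sol.row p (by rw [hP]; exact hp)
    rw [hP, zero_mul, add_zero, ha] at h1
    have e1 : ∑ q ∈ n.primeFactors, (Lm m p q + ra p (-3) * ra 5 (ps m q)) * y q =
        ∑ q ∈ n.primeFactors, Lm m p q * y q +
          (∑ q ∈ n.primeFactors, ra 5 (ps m q) * y q) * ra p (-3) := by
      rw [Finset.sum_mul, ← Finset.sum_add_distrib]
      exact Finset.sum_congr rfl fun q _ => by ring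
    rw [e1]
    exact h1)
  have ha0 : a = 0 := by
    rw [ha]
    have h5 : ∑ q ∈ n.primeFactors, ra 5 (ps m q) * y q =
        (∑ q ∈ n.primeFactors, ra 5 (ps m q) * 1) * y j0 := by
      rw [Finset.sum_mul]
      exact Finset.sum_congr rfl fun q hq => by rw [hy q hq j0 hj0, mul_one]
    rw [h5, Y5', zero_mul]
  refine ⟨ha0, rfl, x j0, y j0, (if_neg (by omega)).symm, fun p hp => ?_, fun q hq => ?_⟩
  · rw [hx p (by rw [← hP]; exact hp), htor]
    show x j0 * (if (p : ℤ) ∣ m then 1 else 0) = _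
    split_ifs
    · rw [mul_one]
    · rw [mul_zero]
  · exact hy q (by rw [← hP]; exact hq) j0 hj0

/-- **the converse for the other negative discriminants** -/
theorem sg_of_qq (hn : Ng n) (hsq : Squarefree (-(mQ n : ℤ)))
    (h3 : ¬ B3 (-(mQ n : ℤ))) (h5 : ¬ B5 (-(mQ n : ℤ))) (h : QQ n) : Sg15 (-(mQ n : ℤ)) := by
  obtain ⟨c3, c5⟩ := cls_neg hn h3 h5
  have hne : mQ n ≠ 1 := by
    intro h1
    rw [h1] at h3
    exact h3 (by unfold B3; norm_num)
  have hF : Fin2 (WS (-(mQ n : ℤ))) := by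
    rcases h with ⟨hq, h2⟩ | ⟨hq, h2⟩
    · rw [mQ_odd h2]
      rcases hn with ⟨h1, h4⟩ | h1
      · exact (crit_ao_S ⟨h1, h4, c3, c5⟩).2 hq
      · obtain ⟨k, rfl, -⟩ := h1
        omega
    · rw [mQ_even h2]
      rcases hn with ⟨h1, h4⟩ | h1
      · omega
      · exact (crit_ae_S ⟨h1, c3, c5⟩).2 hq
  rcases (fin2S_iff_sg15 hsq).1 hF with h1 | h1 | h1
  · exact h1
  · have := Ng_pos hn
    omega
  · omega

end neg

/-- **Finite Mordell-Weil group and `Ш[2] = 0`: the criteria of the classes.** -/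
theorem sg15_iff_cls {m : ℤ} (hs : Squarefree m) (h1 : m ≠ 1) (h2 : m ≠ -1) : Sg15 m ↔
    (∃ A : ℕ, m = (mQ A : ℤ) ∧ (((Aii A ∨ Aio A) ∧ CY (-3) A) ∨ ((R15 A ∨ R15r A) ∧ CY 5 A))) ∨
    ∃ n : ℕ, m = -(mQ n : ℤ) ∧ ((Nis n ∧ CM (-3) 5 n) ∨
      (Ng n ∧ n % 3 ≠ 1 ∧ (n % 5 = 0 ∨ n % 5 = 2 ∨ n % 5 = 3) ∧ QQ n)) := by
  refine ⟨split15 hs h1 h2, ?_⟩
  rintro (⟨A, rfl, ⟨hA, hC⟩ | ⟨hA, hC⟩⟩ | ⟨n, rfl, ⟨hn, hC⟩ | ⟨hn, c3, c5, hC⟩⟩)
  · have hP : Ps A := by
      rcases hA with h | h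
      · exact h.1
      · exact h.1
    refine sg_of_cy hP hs (Or.inl ⟨rfl, (B3_pos hP).2 ?_, fun h5 => ?_⟩) hC
    · rcases hA with h | h
      · exact h.2.1
      · exact h.2.1
    · rw [B5_pos hP] at h5
      rcases hA with h | h
      · have := h.2.2
        omega
      · have := h.2.2
        omega
  · have hP : Ps A := by
      have hF : Fd A := by
        rcases hA with h | h
        · exact h.1
        · exact h.1
      rcases hF with ⟨h1, h2 | h2⟩
      · exact Or.inl ⟨h2.1, h2.2, h1⟩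
      · exact Or.inr h2
    refine sg_of_cy hP hs (Or.inr ⟨rfl, fun h3 => ?_, (B5_pos hP).2 ?_⟩) hC
    · rw [B3_pos hP] at h3
      rcases hA with h | h
      · have := h.2.1
        omega
      · have := h.2.1
        omega
    · rcases hA with h | h
      · exact (jac5 A).1 h.2.2
      · exact (jac5 A).1 h.2.2
  · exact sg_of_cm hn.1 hs (fun h => h2 (by rw [h]; rfl)) ((B3_neg hn.1).2 hn.2.1)
      ((B5_neg hn.1).2 hn.2.2) hC
  · refine sg_of_qq hn hs (fun h3 => ?_) (fun h5 => ?_) hC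
    · rw [B3_neg hn] at h3
      exact c3 h3
    · rw [B5_neg hn] at h5
      omega

end Pool.Agent.N875.D15
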