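import Pool.Agent.N875.D15.Lo2
import Pool.Agent.N875.P17.Cn4

/-!
# The converse, level 15: the solutions of the symmetric system are everywhere locally soluble, and
rank zero and `Ш[2] = 0` imply the criterion `Sg15`
-/

set_option autoImplicit false

open Finset

namespace Pool.Agent.N875.D15

open WeierstrassCurve
open Pool.Agent.N875.X15
open Pool.Agent.N875.P17 (sq_of Lm al ind two_zmod sum_ind ra_iff ra_mul ra_prod zmod_cases
  ra_neg_one ra_rec ra_two oz row_notMem row_mem col_notMem col_mem hz hz_mul hz_neg hz_one sum_hz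
  ra_hz odd_prodP cls_sq cases5 q_even q_neg)
open Pool.Agent.TH841.SH (LocC SelG selHom IsR IsX toSha)
open Pool.Agent.W262.SH (QB Pt)
open Pool.Agent.Y214.SX (card_ker card_two index_double)
open Pool.Agent.N809.PQ (B3 B5 Sol15 Sg15)

section

variable {m : ℤ} {a c s : ZMod 2} {X Y : Finset ℕ}

/-- the converse for the rows -/
theorem row_conv (hs : Squarefree m) (hY : Y ⊆ PR m) (h3 : a = 1 → ¬ (3 : ℤ) ∣ m)
    (h5 : c = 1 → ¬ (5 : ℤ) ∣ m) {p : ℕ} [hpf : Fact p.Prime] (hpP : p ∈ PR m)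
    (h : ∑ q ∈ PR m, Lm m p q * ind Y q + a * ra p (-3) + c * ra p 5 = 0) :
    IsSquare ((tt a c * ∏ q ∈ Y, ps m q : ℤ) : ℚ_[p]) ∨
      IsSquare (((tt a c * ∏ q ∈ Y, ps m q : ℤ) : ℚ_[p]) * m) := by
  classical
  have hp := hpf.out
  have hm0 := hs.ne_zero
  have g3 : a = 1 → p ≠ 3 := by
    intro h0
    rintro rfl
    exact h3 h0 (by exact_mod_cast dvd_of_PR hm0 hpP (by norm_num))
  have g5 : c = 1 → p ≠ 5 := by
    intro h0
    rintro rfl
    exact h5 h0 (by exact_mod_cast dvd_of_PR hm0 hpP (by norm_num))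
  have g := gd_tt hp g3 g5
  rw [add_assoc, ← ra_tt hp g3 g5] at h
  have gps : ∀ q ∈ PR m, q ≠ p → Gd p (ps m q) := fun q hq hpq =>
    gd_ps hs (prime_PR hm0 hq) hp hpq
  have hme : m = (∏ q ∈ Y, ps m q) * ∏ q ∈ PR m \ Y, ps m q := by
    rw [mul_comm, Finset.prod_sdiff hY, prod_PR hs]
  by_cases hpY : p ∈ Y
  · right
    have ge : ∀ q ∈ PR m \ Y, Gd p (ps m q) := fun q hq => by
      obtain ⟨h1, h2⟩ := Finset.mem_sdiff.1 hq
      exact gps q h1 (fun h => h2 (h ▸ hpY))
    rw [row_mem hY hpY, ra_prod hp _ _ ge, ← ra_mul hp (gd_prod hp _ _ ge) g,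
      ra_iff (gd_mul hp (gd_prod hp _ _ ge) g)] at h
    have e : (tt a c * ∏ q ∈ Y, ps m q) * m = (∏ q ∈ Y, ps m q) * (∏ q ∈ Y, ps m q) *
        ((∏ q ∈ PR m \ Y, ps m q) * tt a c) := by
      calc (tt a c * ∏ q ∈ Y, ps m q) * m = (tt a c * ∏ q ∈ Y, ps m q) *
          ((∏ q ∈ Y, ps m q) * ∏ q ∈ PR m \ Y, ps m q) := by rw [← hme]
        _ = _ := by ring
    have e' : (((tt a c * ∏ q ∈ Y, ps m q : ℤ) : ℚ_[p])) * m =
        ((∏ q ∈ Y, ps m q : ℤ) : ℚ_[p]) * ((∏ q ∈ Y, ps m q : ℤ) : ℚ_[p]) *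
        ((((∏ q ∈ PR m \ Y, ps m q) * tt a c : ℤ)) : ℚ_[p]) := by exact_mod_cast e
    rw [e']
    exact (IsSquare.mul_self _).mul h
  · left
    have gY : ∀ q ∈ Y, Gd p (ps m q) := fun q hq =>
      gps q (hY hq) (fun h => hpY (h ▸ hq))
    rw [row_notMem hY hpY, ra_prod hp _ _ gY, ← ra_mul hp (gd_prod hp _ _ gY) g,
      ra_iff (gd_mul hp (gd_prod hp _ _ gY) g), mul_comm] at h
    exact h

/-- the converse for the columns -/
theorem col_conv (hs : Squarefree m) (hX : X ⊆ PR m) (h5 : c = 1 → ¬ (5 : ℤ) ∣ m) {q : ℕ}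
    [hqf : Fact q.Prime] (hqP : q ∈ PR m) (hq2 : q ≠ 2)
    (h : ∑ p ∈ PR m, Lm m p q * ind X p + s * al m q + c * ra 5 (ps m q) = 0) :
    IsSquare ((TT s c * ∏ p ∈ X, ((p : ℕ) : ℤ) : ℤ) : ℚ_[q]) ∨
      IsSquare (((TT s c * ∏ p ∈ X, ((p : ℕ) : ℤ) : ℤ) : ℚ_[q]) * (-m)) := by
  classical
  have hq := hqf.out
  have hm0 := hs.ne_zero
  have g5 : c = 1 → q ≠ 5 := by
    intro h0
    rintro rfl
    exact h5 h0 (by exact_mod_cast dvd_of_PR hm0 hqP (by norm_num))
  have g := gd_TT (s := s) hq hq2 g5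
  have hpr : ∀ p ∈ PR m, p.Prime := fun p hp => prime_PR hm0 hp
  have gps : ∀ r ∈ PR m, r ≠ q → Gd q (ps m r) := fun r hr hrq =>
    gd_ps hs (hpr r hr) hq hrq
  have e5 : ra 5 (ps m q) = ra q 5 := by
    rw [ra_rec (by norm_num : Nat.Prime 5) hq hq2]
    rfl
  rw [e5, ← ra_neg_one (m := m) hq hq2, add_assoc, ← ra_TT hq hq2 g5] at h
  have hrec : ∀ T : Finset ℕ, T ⊆ PR m →
      ∑ p ∈ T, ra p (ps m q) = ∑ p ∈ T, ra q ((p : ℕ) : ℤ) := by
    intro T hT
    exact Finset.sum_congr rfl fun p hp => ra_rec (hpr p (hT hp)) hq hq2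
  by_cases hqX : q ∈ X
  · right
    rw [col_mem hX hqX, hrec _ ((Finset.erase_subset _ _).trans hX)] at h
    have g1 : ∀ r ∈ (PR m).erase q, Gd q (ps m r) := fun r hr =>
      gps r (Finset.mem_of_mem_erase hr) (Finset.ne_of_mem_erase hr)
    have g2 : ∀ p ∈ X.erase q, Gd q ((p : ℕ) : ℤ) := fun p hp =>
      gd_nat (hpr p (hX (Finset.mem_of_mem_erase hp))) hq hq2 (Finset.ne_of_mem_erase hp)
    have gAB := gd_mul hq (gd_prod hq _ _ g1) (gd_prod hq _ _ g2)
    rw [ra_prod hq _ _ g1, ra_prod hq _ _ g2, ← ra_mul hq (gd_prod hq _ _ g1) (gd_prod hq _ _ g2),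
      ← ra_mul hq gAB g, ra_iff (gd_mul hq gAB g)] at h
    have e1 : ps m q * ∏ r ∈ (PR m).erase q, ps m r = m := by
      rw [Finset.mul_prod_erase _ _ hqP, prod_PR hs]
    have e2 : ((q : ℕ) : ℤ) * ∏ p ∈ X.erase q, ((p : ℕ) : ℤ) = ∏ p ∈ X, ((p : ℕ) : ℤ) :=
      Finset.mul_prod_erase X (fun p => ((p : ℕ) : ℤ)) hqX
    set A : ℤ := ∏ r ∈ (PR m).erase q, ps m r with hA
    set B : ℤ := ∏ p ∈ X.erase q, ((p : ℕ) : ℤ) with hB
    have e3 : (TT s c * ∏ p ∈ X, ((p : ℕ) : ℤ)) * (-m) = TT s c * (q * B) * (-(ps m q * A)) := by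
      rw [e1, e2]
    have e3' : ((TT s c * ∏ p ∈ X, ((p : ℕ) : ℤ) : ℤ) : ℚ_[q]) * (-m) =
        TT s c * (q * B) * (-(ps m q * A)) := by exact_mod_cast e3
    rw [ps_odd hq2] at e3'
    rw [e3']
    by_cases h4 : q % 4 = 1
    · have hal : al m q = 0 := by
        unfold al
        rw [ps_odd hq2]
        unfold sgp
        rw [if_pos h4, if_neg (by omega)]
      have hm1 : IsSquare (((-1 : ℤ)) : ℚ_[q]) := by
        rw [← ra_iff (gd_m1 hq hq2), ra_neg_one (m := m) hq hq2, hal]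
      have hsg : sgp q = q := if_pos h4
      rw [hsg]
      have e4 : (TT s c : ℚ_[q]) * (q * B) * (-(((q : ℕ) : ℤ) * A)) =
          (q * q) * (((A * B * TT s c : ℤ) : ℚ_[q]) * ((-1 : ℤ) : ℚ_[q])) := by
        push_cast
        ring
      rw [e4]
      exact (IsSquare.mul_self _).mul (h.mul hm1)
    · have hsg : sgp q = -q := if_neg h4
      rw [hsg]
      have e4 : (TT s c : ℚ_[q]) * (q * B) * (-(((-(q : ℕ) : ℤ) : ℚ_[q]) * A)) =
          (q * q) * ((A * B * TT s c : ℤ) : ℚ_[q]) := by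
        push_cast
        ring
      rw [e4]
      exact (IsSquare.mul_self _).mul h
  · left
    have g2 : ∀ p ∈ X, Gd q ((p : ℕ) : ℤ) := fun p hp =>
      gd_nat (hpr p (hX hp)) hq hq2 (fun h => hqX (h ▸ hp))
    rw [col_notMem hX hqX, hrec _ hX, ra_prod hq _ _ g2, ← ra_mul hq (gd_prod hq _ _ g2) g,
      ra_iff (gd_mul hq (gd_prod hq _ _ g2) g), mul_comm] at h
    exact h

lemma hz_ite {k n : ℤ} (s : ZMod 2) :
    hz k (if s = 1 then n else 1) = s * hz k n := by
  rcases zmod_cases s with rfl | rfl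
  · rw [if_neg (by decide), hz_one, zero_mul]
  · rw [if_pos rfl, one_mul]

lemma hz_TT {k : ℤ} (hk : k = -1 ∨ k = 2 ∨ k = -2) :
    hz k (TT s c) = s * (if k < 0 then 1 else 0) + c * ra 5 k := by
  unfold TT
  rw [hz_mul hk, hz_ite, hz_ite]
  · congr 1
    · congr 1
      rcases hk with rfl | rfl | rfl <;> decide
    · congr 1
      rw [ra_hz hk (by norm_num) (by norm_num)]
      rfl
  · split_ifs <;> norm_num
  · split_ifs <;> norm_num

lemma odd_TT : TT s c % 2 = 1 := by
  unfold TT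
  split_ifs <;> norm_num

/-- everywhere locally soluble -/
def EL (m : ℤ) (d : ℤ × ℤ) : Prop := d.1 ≠ 0 ∧ d.2 ≠ 0 ∧
  LocC ℝ (-9 * m) (16 * m) 0 d.1 d.2 ∧
  ∀ (p : ℕ) [Fact p.Prime], LocC ℚ_[p] (-9 * m) (16 * m) 0 d.1 d.2

lemma nd_prodX (hs : Squarefree m) (hX : X ⊆ PR m) {p : ℕ} (hp : p.Prime) (hpP : p ∉ PR m) :
    ¬ (p : ℤ) ∣ ∏ r ∈ X, ((r : ℕ) : ℤ) := by
  intro h
  rw [Prime.dvd_finsetProd_iff (Nat.prime_iff_prime_int.1 hp)] at h
  obtain ⟨r, hr, hpr'⟩ := h
  have h1 : p ∣ r := by exact_mod_cast hpr'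
  rw [(Nat.prime_dvd_prime_iff_eq hp (prime_PR hs.ne_zero (hX hr))).1 h1] at hpP
  exact hpP (hX hr)

lemma nd_prodY (hs : Squarefree m) (hY : Y ⊆ PR m) {p : ℕ} (hpm : ¬ (p : ℤ) ∣ m) :
    ¬ (p : ℤ) ∣ ∏ q ∈ Y, ps m q := by
  intro h
  apply hpm
  rw [← prod_PR hs, ← Finset.prod_sdiff hY]
  exact h.mul_left _

/-- **The solutions are everywhere locally soluble.** -/
theorem everywhere15 (hs : Squarefree m) (hX : X ⊆ PR m) (hY : Y ⊆ PR m)
    (sol : Sol15 m (ind X) (ind Y) s a c) :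
    EL m (tt a c * ∏ q ∈ Y, ps m q, TT s c * ∏ p ∈ X, ((p : ℕ) : ℤ)) := by
  classical
  have hm0 := hs.ne_zero
  have ha3 : a = 1 → B3 m := fun h => by
    by_contra hcon
    rw [sol.a0 hcon] at h
    exact absurd h (by decide)
  have hc5 : c = 1 → B5 m := fun h => by
    by_contra hcon
    rw [sol.c0 hcon] at h
    exact absurd h (by decide)
  have h3m : a = 1 → ¬ (3 : ℤ) ∣ m := fun h => not_dvd3 (ha3 h)
  have h5m : c = 1 → ¬ (5 : ℤ) ∣ m := fun h => not_dvd5 (hc5 h)
  have hpr : ∀ p ∈ PR m, p.Prime := fun p hp => prime_PR hm0 hp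
  set P : ℤ := ∏ p ∈ X, ((p : ℕ) : ℤ) with hP
  set Q : ℤ := ∏ q ∈ Y, ps m q with hQ
  have hPpos : 0 < P := Finset.prod_pos fun r hr => by exact_mod_cast (hpr r (hX hr)).pos
  have hQ0 : Q ≠ 0 := Finset.prod_ne_zero_iff.2 fun q hq => ps_ne hs (hY hq)
  have hn1 : tt a c * Q ≠ 0 := mul_ne_zero (tt_ne a c) hQ0
  have hn2 : TT s c * P ≠ 0 := mul_ne_zero (TT_ne s c) hPpos.ne'
  refine ⟨hn1, hn2, ?_, ?_⟩
  · refine locC_real15 hm0 hn1 hn2 (fun h => ?_) (fun h => ?_)
    · exact (sgn_iff hs hY).1 (sol.sgn h)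
    · have hs0 := sol.s0 h
      refine mul_pos ?_ hPpos
      rw [hs0]
      unfold TT
      rw [if_neg (by decide)]
      split_ifs <;> norm_num
  intro p hpf
  have hp := hpf.out
  by_cases hpP : p ∈ PR m
  · have hrow := row_conv hs hY h3m h5m hpP (sol.row p hpP)
    by_cases hp2 : p = 2
    · subst hp2
      have h4 := (two_mem_PR hm0).1 hpP
      have hc : ps m 2 = -1 ∨ ps m 2 = 2 ∨ ps m 2 = -2 := by
        rw [ps_two]
        obtain ⟨a1, a2⟩ := d2_spec hs
        have ho := oe_mod m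
        rcases a2 with ⟨-, a | a⟩ | ⟨-, a | a⟩
        · exfalso
          rw [a, one_mul] at a1
          omega
        · exact Or.inl a
        · exact Or.inr (Or.inl a)
        · exact Or.inr (Or.inr a)
      have hmo : m = ps m 2 * oe m := by rw [ps_two]; exact (d2_spec hs).1
      have hX' : ∀ p ∈ X.erase 2, p.Prime ∧ p ≠ 2 := fun p hp =>
        ⟨hpr p (hX (Finset.mem_of_mem_erase hp)), Finset.ne_of_mem_erase hp⟩
      have hoz : ∑ r ∈ (PR m).erase 2, ra 2 (ps m r) = oz (oe m) := by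
        rw [← ra_two, oe, ← PR_erase hm0, ← ra_prod Nat.prime_two]
        · exact Finset.sum_congr rfl fun q hq => by rw [ps_odd (Finset.ne_of_mem_erase hq)]
        · intro q hq
          rw [gd_two]
          exact sgp_mod (hpr q (Finset.mem_of_mem_erase hq)) (Finset.ne_of_mem_erase hq)
      have hcol := sol.col 2 hpP
      have hal2 : (if ps m 2 < 0 then 1 else 0 : ZMod 2) = al m 2 := rfl
      have hTT : hz (ps m 2) (TT s c) = s * al m 2 + c * ra 5 (ps m 2) := by
        rw [hz_TT hc, hal2]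
      have hU : (TT s c * ∏ r ∈ X.erase 2, ((r : ℕ) : ℤ)) % 2 = 1 := by
        rw [Int.mul_emod, odd_TT, odd_prodP hX']
        norm_num
      refine locC_ram15 (c := ps m 2) (o := oe m) (U := TT s c * ∏ r ∈ X.erase 2, ((r : ℕ) : ℤ))
        hmo hc (oe_mod m) hU hrow ?_
      rw [hz_mul hc odd_TT (odd_prodP hX'), hTT, ← sum_hz hc hX']
      by_cases hX2 : 2 ∈ X
      · right
        rw [col_mem hX hX2, hoz] at hcol
        refine ⟨?_, ?_⟩
        · have e := Finset.mul_prod_erase X (fun r => ((r : ℕ) : ℤ)) hX2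
          have e' : P = 2 * ∏ r ∈ X.erase 2, ((r : ℕ) : ℤ) := by
            rw [hP, ← e]
            norm_num
          show TT s c * P = _
          rw [e']
          ring
        · rw [← hcol]
          ring
      · left
        rw [col_notMem hX hX2] at hcol
        rw [Finset.erase_eq_of_notMem hX2]
        refine ⟨rfl, ?_⟩
        rw [← hcol]
        ring
    · exact locC_tor hm0 (locC_one15 p m) hrow
        (col_conv hs hX h5m hpP hp2 (sol.col p hpP))
  · have hpm : ¬ (p : ℤ) ∣ m := fun h => hpP ((mem_PR hm0).2 ⟨hp, Or.inl h⟩)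
    have hnX := nd_prodX hs hX hp hpP
    have hnY := nd_prodY hs hY hpm
    have hmul : ∀ x y : ℤ, ¬ (p : ℤ) ∣ x → ¬ (p : ℤ) ∣ y → ¬ (p : ℤ) ∣ x * y := fun x y hx hy h => by
      rcases (Nat.prime_iff_prime_int.1 hp).dvd_or_dvd h with h3 | h3
      · exact hx h3
      · exact hy h3
    by_cases hp2 : p = 2
    · subst hp2
      have h4 : m % 4 = 1 := by
        by_contra h
        exact hpP ((two_mem_PR hm0).2 h)
      refine locC_two15 h4 ?_ ?_
      · show (tt a c * Q) % 4 = 1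
        have hQ4 : Q % 4 = 1 := by
          rw [← gd_two]
          refine gd_prod Nat.prime_two _ _ fun q hq => ?_
          rw [gd_two]
          have hq2 : q ≠ 2 := fun h => hpP (h ▸ hY hq)
          rw [ps_odd hq2]
          exact sgp_mod (hpr q (hY hq)) hq2
        rw [Int.mul_emod, tt_mod, hQ4]
        norm_num
      · show (TT s c * P) % 2 = 1
        have h5 : P % 2 = 1 := by
          push_cast at hnX
          omega
        rw [Int.mul_emod, odd_TT, h5]
        norm_num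
    by_cases hp3 : p = 3
    · subst hp3
      have g3 : Gd 3 (TT s c) := gd_TT (by norm_num) (by norm_num) (fun _ => by norm_num)
      have h3 : ¬ (3 : ℤ) ∣ m := by exact_mod_cast hpm
      obtain ⟨e1, e2⟩ := sum_at3 hs hX h3
      have gT := gd_mul (by norm_num : Nat.Prime 3) g3 e2
      rcases (by omega : m % 3 = 1 ∨ m % 3 = 2) with h | h
      · have ha : a = 0 := sol.a0 (by unfold B3; omega)
        refine locC_3n h ?_ ?_
        · show ¬ (3 : ℤ) ∣ tt a c * Q
          have h5 : ¬ ((3 : ℕ) : ℤ) ∣ tt a c := by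
            rw [ha]
            unfold tt
            rw [if_neg (by decide)]
            split_ifs <;> norm_num
          exact_mod_cast hmul _ _ h5 hnY
        · rw [gd_odd (by norm_num)] at gT
          exact_mod_cast gT
      · refine locC_3s h ?_ ?_
        · show ¬ (3 : ℤ) ∣ tt a c * Q ∨ ∃ k : ℤ, tt a c * Q = 3 * k ∧ ¬ (3 : ℤ) ∣ k
          have h6 : ¬ ((3 : ℕ) : ℤ) ∣ (if c = 1 then 5 else 1 : ℤ) := by
            split_ifs <;> norm_num
          rcases zmod_cases a with ha | ha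
          · left
            rw [ha]
            have h5 : ¬ ((3 : ℕ) : ℤ) ∣ tt 0 c := by
              unfold tt
              rwa [if_neg (by decide), one_mul]
            exact_mod_cast hmul _ _ h5 hnY
          · right
            refine ⟨-((if c = 1 then 5 else 1) * Q), ?_, ?_⟩
            · rw [ha]
              unfold tt
              rw [if_pos rfl]
              ring
            · rw [dvd_neg]
              exact_mod_cast hmul _ _ h6 hnY
        · show IsSquare ((TT s c * P : ℤ) : ℚ_[3])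
          rw [← ra_iff gT, ra_mul (by norm_num) g3 e2,
            ra_TT (by norm_num) (by norm_num) (fun _ => by norm_num), ra3_m1, ra3_5, ← e1]
          linear_combination sol.at3 h
    by_cases hp5 : p = 5
    · subst hp5
      have h5 : ¬ (5 : ℤ) ∣ m := by exact_mod_cast hpm
      obtain ⟨e1, e2⟩ := sum_at5 hs hX h5
      obtain ⟨e3, e4⟩ := sum_at5' hs hY h5
      have gs : Gd 5 (if s = 1 then -1 else 1) := by
        split_ifs
        · exact gd_m1 (by norm_num) (by norm_num)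
        · exact gd_one (by norm_num)
      have ga : Gd 5 (if a = 1 then -3 else 1) := by
        split_ifs
        · exact gd_m3 (by norm_num) (by norm_num)
        · exact gd_one (by norm_num)
      rcases (by omega : (m % 5 = 2 ∨ m % 5 = 3) ∨ (m % 5 = 1 ∨ m % 5 = 4)) with h | h
      · have hc : c = 0 := sol.c0 (by unfold B5; omega)
        refine locC_5n h ?_ ?_
        · show ¬ (5 : ℤ) ∣ tt a c * Q
          have h6 : ¬ ((5 : ℕ) : ℤ) ∣ tt a c := by
            rw [hc]
            unfold tt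
            rw [if_neg (show ¬ ((0 : ZMod 2) = 1) by decide), mul_one]
            split_ifs <;> norm_num
          exact_mod_cast hmul _ _ h6 hnY
        · show ¬ (5 : ℤ) ∣ TT s c * P
          have h6 : ¬ ((5 : ℕ) : ℤ) ∣ TT s c := by
            rw [hc]
            unfold TT
            rw [if_neg (show ¬ ((0 : ZMod 2) = 1) by decide), mul_one]
            split_ifs <;> norm_num
          exact_mod_cast hmul _ _ h6 hnX
      · refine locC_5s h hn1 ?_ ?_
        · show ¬ (5 : ℤ) ∣ tt a c * Q ∨ ∃ k : ℤ, tt a c * Q = 5 * k ∧ ¬ (5 : ℤ) ∣ k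
          have h6 : ¬ ((5 : ℕ) : ℤ) ∣ (if a = 1 then -3 else 1 : ℤ) := by
            split_ifs <;> norm_num
          rcases zmod_cases c with hc | hc
          · left
            rw [hc]
            have h7 : ¬ ((5 : ℕ) : ℤ) ∣ tt a 0 := by
              unfold tt
              rwa [if_neg (show ¬ ((0 : ZMod 2) = 1) by decide), mul_one]
            exact_mod_cast hmul _ _ h7 hnY
          · right
            refine ⟨(if a = 1 then -3 else 1) * Q, ?_, ?_⟩
            · rw [hc]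
              unfold tt
              rw [if_pos (show (1 : ZMod 2) = 1 from rfl)]
              ring
            · exact_mod_cast hmul _ _ h6 hnY
        · show IsSquare (((tt a c * Q : ℤ) : ℚ_[5]) * ((TT s c * P : ℤ) : ℚ_[5]))
          have h7 : IsSquare ((((if a = 1 then -3 else 1) * Q *
              ((if s = 1 then -1 else 1) * P) : ℤ)) : ℚ_[5]) := by
            rw [← ra_iff (gd_mul (by norm_num) (gd_mul (by norm_num) ga e4)
              (gd_mul (by norm_num) gs e2)), ra_mul (by norm_num) (gd_mul (by norm_num) ga e4)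
              (gd_mul (by norm_num) gs e2), ra_mul (by norm_num) ga e4, ra_mul (by norm_num) gs e2,
              ra_ite (by norm_num), ra_ite (by norm_num), ra5_m1, ra5_m3, ← e1, ← e3]
            linear_combination sol.at5 h
          have e : ((tt a c * Q : ℤ) : ℚ_[5]) * ((TT s c * P : ℤ) : ℚ_[5]) =
              (((if c = 1 then 5 else 1 : ℤ)) : ℚ_[5]) * (((if c = 1 then 5 else 1 : ℤ)) : ℚ_[5]) *
                ((((if a = 1 then -3 else 1) * Q * ((if s = 1 then -1 else 1) * P) : ℤ)) :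
                  ℚ_[5]) := by
            unfold tt TT
            push_cast
            ring
          rw [e]
          exact (IsSquare.mul_self _).mul h7
    · refine locC_good15 hp2 hp3 hp5 hpm ?_ ?_
      · have g := gd_tt hp (a := a) (c := c) (fun _ => hp3) (fun _ => hp5)
        rw [gd_odd hp2] at g
        exact hmul _ _ g hnY
      · have g := gd_TT hp hp2 (s := s) (c := c) (fun _ => hp5)
        rw [gd_odd hp2] at g
        exact hmul _ _ g hnX

end

open scoped Classical in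
/-- the number of the Selmer homomorphisms -/
theorem card_selHom15 {m : ℤ} (hm : m ≠ 0) (hf : Fin2 (EQm m)) :
    Nat.card (selHom (EQm m)) = 4 := by
  obtain ⟨hfin, hsha⟩ := hf
  have hm' : (m : ℚ) ≠ 0 := by exact_mod_cast hm
  have q12 : ((-9 * m : ℤ) : ℚ) ≠ ((16 * m : ℤ) : ℚ) := by
    push_cast
    intro h
    apply hm'
    linear_combination (-1 / 25 : ℚ) * h
  have q13 : ((-9 * m : ℤ) : ℚ) ≠ ((0 : ℤ) : ℚ) := by
    push_cast
    intro h
    apply hm'
    linear_combination (-1 / 9 : ℚ) * h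
  have q23 : ((16 * m : ℤ) : ℚ) ≠ ((0 : ℤ) : ℚ) := by
    push_cast
    intro h
    apply hm'
    linear_combination (1 / 16 : ℚ) * h
  have hR := isR15 m
  have hsha' : ∀ x : Pool.Agent.W262.SH.Sha (EQm m), x + x = 0 → x = 0 := by
    intro x hx
    have h1 := hsha ((Pool.Agent.TH841.SH.D.eSha (EQm m)).symm x) (by
      rw [← map_add, hx, map_zero])
    rwa [EmbeddingLike.map_eq_zero_iff] at h1
  have hker : (toSha hR).ker = ⊤ := by
    rw [AddSubgroup.eq_top_iff']
    intro f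
    rw [AddMonoidHom.mem_ker]
    apply hsha'
    rw [← map_add]
    have : f + f = 0 := by
      apply Subtype.ext
      funext σ
      exact f.2.2.1 σ
    rw [this, map_zero]
  have h1 := card_ker hR q12 q13 q23
  rw [hker, Nat.card_congr AddSubgroup.topEquiv.toEquiv, index_double] at h1
  rw [h1, ← card_two hR q12 q13 q23]
  refine Nat.card_congr (Equiv.subtypeEquivRight fun x => ?_)
  rw [AddMonoidHom.mem_ker, nsmulAddMonoidHom_apply, two_nsmul]

/-- four classes at most -/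
theorem not_five15 {m : ℤ} (hm : m ≠ 0) (hf : Fin2 (EQm m)) (d : Fin 5 → ℤ × ℤ)
    (hd : ∀ i, EL m (d i)) (hne : ∀ i j, i < j → ¬ (IsSquare (((d i).1 : ℚ) * (d j).1) ∧
      IsSquare (((d i).2 : ℚ) * (d j).2))) : False := by
  have hR := isR15 m
  have hex : ∀ i, ∃ f : selHom (EQm m), (∀ s : QB, s ^ 2 = ((d i).1 : ℤ) →
      ∀ σ : QB ≃ₐ[ℚ] QB, σ s = s ↔
        IsX ((EQm m).baseChange QB) (algebraMap ℚ QB ((-9 * m : ℤ) : ℚ)) (f.1 σ)) ∧
      ∀ s : QB, s ^ 2 = ((d i).2 : ℤ) → ∀ σ : QB ≃ₐ[ℚ] QB, σ s = s ↔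
        IsX ((EQm m).baseChange QB) (algebraMap ℚ QB ((16 * m : ℤ) : ℚ)) (f.1 σ) := by
    intro i
    obtain ⟨n1, n2, h1, h2⟩ := hd i
    obtain ⟨f, hf, f1, f2⟩ := Pool.Agent.Z864.SX.exists_hom hR (by omega) (by omega) (by omega)
      n1 n2 h1 (fun p _ => h2 p)
    exact ⟨⟨f, hf⟩, f1, f2⟩
  choose Ψ h1 h2 using hex
  have hinj : Function.Injective Ψ := by
    have key : ∀ i j, Ψ i = Ψ j → IsSquare (((d i).1 : ℚ) * (d j).1) ∧
        IsSquare (((d i).2 : ℚ) * (d j).2) := by
      intro i j hij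
      constructor
      · apply cls_sq
        intro s t hs ht σ
        rw [h1 i s hs σ, h1 j t ht σ, hij]
      · apply cls_sq
        intro s t hs ht σ
        rw [h2 i s hs σ, h2 j t ht σ, hij]
    intro i j hij
    rcases lt_trichotomy i j with h | h | h
    · exact absurd (key i j hij) (hne i j h)
    · exact h
    · exact absurd (key j i hij.symm) (hne j i h)
  have hc := card_selHom15 hm hf
  have hfin : Finite (selHom (EQm m)) := Nat.finite_of_card_ne_zero (by rw [hc]; norm_num)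
  have h5 := Nat.card_le_card_of_injective Ψ hinj
  rw [hc, Nat.card_eq_fintype_card, Fintype.card_fin] at h5
  omega

end Pool.Agent.N875.D15
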