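import Pool.Agent.N875.D15.Sol
import Pool.Agent.N875.X15.Short

/-!
# Level 15: finiteness from the criterion `Sg15`
-/

set_option autoImplicit false

open Finset

namespace Pool.Agent.N875.D15

open WeierstrassCurve
open Pool.Agent.N875.X15
open Pool.Agent.N875.P17 (sq_of Lm al ind two_zmod sum_ind ra_iff ra_mul ra_prod zmod_cases
  ra_neg_one ra_rec ra_two oz)
open Pool.Agent.TH841.SH (LocC SelG IsR)
open Pool.Agent.W262.SH (Sha)
open Pool.Agent.N809.PQ (B3 B5 Sol15 Sg15)

lemma isR15 (m : ℤ) : IsR (EQm m) ((-9 * m : ℤ) : ℚ) ((16 * m : ℤ) : ℚ) ((0 : ℤ) : ℚ) := by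
  refine ⟨?_, ?_, ?_, ?_, ?_⟩ <;> simp [Em] <;> ring

/-- **Few elements of the 2-Selmer group.** -/
theorem fin_of_card {m : ℤ} (hm0 : m ≠ 0) (S : Finset (ℤ × ℤ)) (hS : S.card ≤ 4)
    (hsub : SelG (-9 * m) (16 * m) 0 ⊆ (S : Set (ℤ × ℤ))) :
    Finite (EQm m).toAffine.Point ∧
    ∀ (k : ℕ) (x : Pool.Agent.TH841.SH.D.Sha (EQm m)), (2 ^ k : ℕ) • x = 0 → x = 0 := by
  classical
  have hfin : (SelG (-9 * m) (16 * m) 0).Finite := (Finset.finite_toSet S).subset hsub
  have hcard : (SelG (-9 * m) (16 * m) 0).ncard ≤ 4 := by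
    refine (Set.ncard_le_ncard hsub (Finset.finite_toSet _)).trans ?_
    rw [Set.ncard_coe_finset]
    exact hS
  obtain ⟨h1, h2⟩ := Pool.Agent.Y667.SHA.main4 (EQm m) (-9 * m) (16 * m) 0 (isR15 m)
    (by omega) (by omega) (by omega) hfin (T4 hm0) (T4_card hm0).ge (T4_two hm0)
  have h3 := h2.trans hcard
  have hpos : 0 < Nat.card {x : Sha (EQm m) // x + x = 0} := by
    have : Nonempty {x : Sha (EQm m) // x + x = 0} := ⟨⟨0, add_zero 0⟩⟩
    exact Nat.card_pos
  have h5 : 2 ^ (Module.finrank ℤ (EQm m).toAffine.Point + 2) ≤ 2 ^ 2 :=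
    (Nat.le_mul_of_pos_right _ hpos).trans h3
  have h6 := (Nat.pow_le_pow_iff_right (by norm_num : 1 < 2)).1 h5
  have h7 : Module.finrank ℤ (EQm m).toAffine.Point = 0 := by omega
  rw [h7] at h3
  have h8 : Nat.card {x : Sha (EQm m) // x + x = 0} ≤ 1 := by omega
  have h9 : ∀ x : Sha (EQm m), x + x = 0 → x = 0 := by
    intro x hx
    have h10 : Subsingleton {x : Sha (EQm m) // x + x = 0} := by
      rw [← Finite.card_le_one_iff_subsingleton]
      exact h8
    have := h10.elim ⟨x, hx⟩ ⟨0, add_zero 0⟩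
    exact congrArg Subtype.val this
  refine ⟨fin_of_rank (fg_E hm0) h7, fun k => Pool.Agent.Y667.SHA.no_tor (fun x hx => ?_) k⟩
  have h11 := h9 (Pool.Agent.TH841.SH.D.eSha (EQm m) x) (by rw [← map_add, hx, map_zero])
  rwa [EmbeddingLike.map_eq_zero_iff] at h11

lemma ind_empty {X : Finset ℕ} {P : Finset ℕ} (hX : X ⊆ P) (h : ∀ p ∈ P, ind X p = 0) : X = ∅ := by
  rw [Finset.eq_empty_iff_forall_notMem]
  intro p hp
  have h1 := h p (hX hp)
  have h2 : ind X p = 1 := if_pos hp
  rw [h2] at h1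
  exact absurd h1 (by decide)

lemma ind_one {X : Finset ℕ} {p : ℕ} (h : ind X p = 1) : p ∈ X := by
  by_contra hcon
  have h2 : ind X p = 0 := if_neg hcon
  rw [h2] at h
  exact absurd h (by decide)

lemma ind_zero {X : Finset ℕ} {p : ℕ} (h : ind X p = 0) : p ∉ X := by
  intro hcon
  have h2 : ind X p = 1 := if_pos hcon
  rw [h2] at h
  exact absurd h (by decide)

/-- **The 2-Selmer group.** -/
theorem sel_sub15 {m : ℤ} (hs : Squarefree m) (hS : Sg15 m) {d1 d2 : ℤ}
    (h : (d1, d2) ∈ SelG (-9 * m) (16 * m) 0) :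
    (d1, d2) ∈ ({(1, 1), (m, 1), (1, -m), (m, -m)} : Set (ℤ × ℤ)) := by
  classical
  have hm0 := hs.ne_zero
  obtain ⟨a, s, c, X, Y, RU, RV, sol⟩ := sol_of_sel hs h
  obtain ⟨ha, hc, α, β, h1, h2, h3⟩ := hS _ _ _ _ _ sol
  have hd1 : d1 = 1 ∨ d1 = m := by
    have e : d1 = ∏ q ∈ Y, ps m q := by
      rw [RU.eq, ha, hc]
      unfold tt
      rw [if_neg (by decide), if_neg (by decide), one_mul, one_mul]
    rcases zmod_cases β with hb | hb
    · left
      rw [e, ind_empty RU.sub (fun p hp => by rw [h3 p hp, hb]), Finset.prod_empty]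
    · right
      have hY : Y = PR m := Finset.Subset.antisymm RU.sub fun p hp => ind_one (by rw [h3 p hp, hb])
      rw [e, hY, prod_PR hs]
  have hd2 : d2 = 1 ∨ d2 = -m := by
    rcases zmod_cases α with hb | hb
    · left
      have hX : X = ∅ := ind_empty RV.sub (fun p hp => by
        rw [h2 p hp, hb]
        split_ifs <;> rfl)
      have hs' : s = 0 := by
        rw [h1, hb]
        split_ifs <;> rfl
      rw [RV.eq, hX, hs', hc, Finset.prod_empty]
      rfl
    · right
      have hX : X = m.natAbs.primeFactors := by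
        ext p
        rw [Nat.mem_primeFactors]
        constructor
        · intro hp
          have hpP := RV.sub hp
          have h4 := h2 p hpP
          have h5 : ind X p = 1 := if_pos hp
          rw [h5, hb] at h4
          refine ⟨prime_PR hm0 hpP, ?_, Int.natAbs_ne_zero.2 hm0⟩
          by_contra hcon
          rw [if_neg (fun h => hcon (Int.natCast_dvd.1 h))] at h4
          exact absurd h4 (by decide)
        · rintro ⟨h5, h6, -⟩
          have h7 := Int.natCast_dvd.2 h6
          refine ind_one ?_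
          rw [h2 p ((mem_PR hm0).2 ⟨h5, Or.inl h7⟩), if_pos h7, hb]
      have h4 : ∏ p ∈ m.natAbs.primeFactors, p = m.natAbs :=
        Nat.prod_primeFactors_of_squarefree (Int.squarefree_natAbs.2 hs)
      have h5 : (∏ p ∈ X, ((p : ℕ) : ℤ)) = (m.natAbs : ℤ) := by
        rw [hX]
        have h6 := congrArg (Nat.cast : ℕ → ℤ) h4
        rw [← h6, Nat.cast_prod]
      rw [RV.eq, h5, h1, hc, hb]
      unfold TT
      rcases lt_or_gt_of_ne hm0 with h6 | h6
      · rw [if_neg (show ¬ (0 < m) by omega), if_neg (by decide), if_neg (by decide)]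
        omega
      · rw [if_pos h6, if_pos rfl, if_neg (by decide)]
        omega
  rcases hd1 with rfl | rfl <;> rcases hd2 with rfl | rfl <;> simp

theorem finite_of_sg15 {m : ℤ} (hs : Squarefree m) (hS : Sg15 m) :
    Finite (EQm m).toAffine.Point ∧
    ∀ (k : ℕ) (x : Pool.Agent.TH841.SH.D.Sha (EQm m)), (2 ^ k : ℕ) • x = 0 → x = 0 := by
  classical
  refine fin_of_card hs.ne_zero {(1, 1), (m, 1), (1, -m), (m, -m)} Finset.card_le_four ?_
  rintro ⟨d1, d2⟩ h
  have := sel_sub15 hs hS h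
  simpa using this

/-! ### the small cases -/

lemma PR_one : PR 1 = ∅ := by
  unfold PR
  rw [if_pos (by norm_num)]
  simp

lemma PR_neg_one : PR (-1) = {2} := by
  unfold PR
  rw [if_neg (by norm_num)]
  simp [Nat.Prime.primeFactors Nat.prime_two]

lemma ra2_m3 : ra 2 (-3) = 1 := by
  rw [ra_two]
  rfl

lemma ra2_5 : ra 2 5 = 1 := by
  rw [ra_two]
  rfl

theorem finite_one :
    Finite (EQm 1).toAffine.Point ∧
    ∀ (k : ℕ) (x : Pool.Agent.TH841.SH.D.Sha (EQm 1)), (2 ^ k : ℕ) • x = 0 → x = 0 := by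
  classical
  refine fin_of_card one_ne_zero {(1, 1), (1, -1), (5, 5), (5, -5)} Finset.card_le_four ?_
  rintro ⟨d1, d2⟩ h
  obtain ⟨a, s, c, X, Y, RU, RV, sol⟩ := sol_of_sel squarefree_one h
  have ha : a = 0 := sol.a0 (by unfold B3; norm_num)
  have hX : X = ∅ := by
    have := RV.sub
    rwa [PR_one, Finset.subset_empty] at this
  have hY : Y = ∅ := by
    have := RU.sub
    rwa [PR_one, Finset.subset_empty] at this
  have e1 := RU.eq
  have e2 := RV.eq
  rw [hY, Finset.prod_empty, ha] at e1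
  rw [hX, Finset.prod_empty] at e2
  rw [e1, e2]
  rcases zmod_cases s with rfl | rfl <;> rcases zmod_cases c with rfl | rfl <;>
    simp [tt, TT]

theorem finite_neg_one :
    Finite (EQm (-1)).toAffine.Point ∧
    ∀ (k : ℕ) (x : Pool.Agent.TH841.SH.D.Sha (EQm (-1))), (2 ^ k : ℕ) • x = 0 → x = 0 := by
  classical
  have hsq : Squarefree (-1 : ℤ) := fun x hx => squarefree_one x (by rwa [dvd_neg] at hx)
  refine fin_of_card (by norm_num) {(1, 1), (-1, 1), (-15, 10), (15, 10)} Finset.card_le_four ?_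
  rintro ⟨d1, d2'⟩ h
  obtain ⟨a, s, c, X, Y, RU, RV, sol⟩ := sol_of_sel hsq h
  have hs0 : s = 0 := sol.s0 (by norm_num)
  have h2P : 2 ∈ PR (-1) := by rw [PR_neg_one]; exact Finset.mem_singleton_self 2
  have hrow := sol.row 2 h2P
  have hL : Lm (-1) 2 2 = 0 := by
    unfold Lm
    rw [if_pos rfl, PR_neg_one]
    simp
  rw [PR_neg_one, Finset.sum_singleton, hL, ra2_m3, ra2_5] at hrow
  have h3 := sol.at3 (by unfold B3; norm_num)
  rw [PR_neg_one, Finset.sum_singleton, ra2_m3, hs0] at h3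
  have hps : ps (-1) 2 = -1 := by
    have h4 := prod_PR hsq
    rwa [PR_neg_one, Finset.prod_singleton] at h4
  have hXs : X ⊆ {2} := by
    have := RV.sub
    rwa [PR_neg_one] at this
  have hYs : Y ⊆ {2} := by
    have := RU.sub
    rwa [PR_neg_one] at this
  have e1 := RU.eq
  have e2 := RV.eq
  have n2 : ¬ ((1 : ZMod 2) = 0) := by decide
  rcases Finset.subset_singleton_iff.1 hXs with rfl | rfl
  · have hi : ind (∅ : Finset ℕ) 2 = 0 := if_neg (Finset.notMem_empty 2)
    rw [hi] at h3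
    have hc : c = 0 := by simpa using h3
    have ha : a = 0 := by
      rw [hc] at hrow
      simpa using hrow
    rw [hs0, hc, Finset.prod_empty] at e2
    rw [ha, hc] at e1
    rcases Finset.subset_singleton_iff.1 hYs with rfl | rfl
    · rw [e1, e2, Finset.prod_empty]
      simp [tt, TT]
    · rw [e1, e2, Finset.prod_singleton, hps]
      simp [tt, TT]
  · have hi : ind ({2} : Finset ℕ) 2 = 1 := if_pos (Finset.mem_singleton_self 2)
    rw [hi] at h3
    have hc : c = 1 := by
      rcases zmod_cases c with hc | hc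
      · rw [hc] at h3
        exact absurd h3 (by decide)
      · exact hc
    have ha : a = 1 := by
      rcases zmod_cases a with ha | ha
      · rw [ha, hc] at hrow
        simp at hrow
      · exact ha
    rw [hs0, hc, Finset.prod_singleton] at e2
    rw [ha, hc] at e1
    rcases Finset.subset_singleton_iff.1 hYs with rfl | rfl
    · rw [e1, e2, Finset.prod_empty]
      simp [tt, TT]
    · rw [e1, e2, Finset.prod_singleton, hps]
      simp [tt, TT]

/-- **The sufficient condition.** -/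
theorem fin2_of_sg15 {m : ℤ} (hs : Squarefree m) (h : Sg15 m ∨ m = 1 ∨ m = -1) :
    Fin2 (EQm m) := by
  have key : ∀ {n : ℤ}, (Finite (EQm n).toAffine.Point ∧
      ∀ (k : ℕ) (x : Pool.Agent.TH841.SH.D.Sha (EQm n)), (2 ^ k : ℕ) • x = 0 → x = 0) →
      Fin2 (EQm n) := fun h => ⟨h.1, fun x hx => h.2 1 x (by rwa [pow_one, two_nsmul])⟩
  rcases h with h | rfl | rfl
  · exact key (finite_of_sg15 hs h)
  · exact key finite_one
  · exact key finite_neg_one

end Pool.Agent.N875.D15
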