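import Pool.Agent.N875.D15.Crit
import Pool.Agent.N875.D15.Cls
import Pool.Agent.N875.X15.Conv3
import Pool.Agent.N969.P15.Glue

/-!
# Finiteness of the sets of points and the class number criterion from `Sg15`
-/

set_option autoImplicit false

open Finset

namespace Pool.Agent.N875.D15

open WeierstrassCurve
open Pool.Agent.N875.X15
open Pool.Agent.N809.PQ (B3 B5 Sol15 Sg15)
open Pool.Agent.N973.P15G (Ps Ng QQ)
open Pool.Agent.N969.P15 (Qc Qe)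

/-- the set of the rational points is finite (`Fin15 m`) -/
theorem fin15_of {m : ℤ} (hm : m ≠ 0) (h : Fin2 (WS m)) :
    {q : ℚ × ℚ | q.2 ^ 2 = q.1 ^ 3 + ((-12987 * m ^ 2 : ℤ) : ℚ) * q.1 +
      ((-263466 * m ^ 3 : ℤ) : ℚ)}.Finite := by
  have h1 := h.1
  refine Pool.Agent.N969.P15.set_of_pt (a := -12987 * m ^ 2) (b := -263466 * m ^ 3) ?_ h1
  have e : 4 * (-12987 * m ^ 2) ^ 3 + 27 * (-263466 * m ^ 3) ^ 2 =
      (4 * (-12987) ^ 3 + 27 * 263466 ^ 2) * m ^ 6 := by ring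
  rw [e]
  exact mul_ne_zero (by norm_num) (pow_ne_zero 6 hm)

theorem fin15_of_sg {m : ℤ} (hs : Squarefree m) (h : Sg15 m) :
    {q : ℚ × ℚ | q.2 ^ 2 = q.1 ^ 3 + ((-12987 * m ^ 2 : ℤ) : ℚ) * q.1 +
      ((-263466 * m ^ 3 : ℤ) : ℚ)}.Finite :=
  fin15_of hs.ne_zero ((fin2S_iff_sg15 hs).2 (Or.inl h))

lemma mQ_mod3 {n : ℕ} (h : Ng n) : mQ n % 3 = n % 3 := by
  rcases h with ⟨h1, h2⟩ | ⟨k, rfl, h1, h2⟩
  · rw [mQ_odd (by omega)]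
  · rw [mQ_even (by omega)]
    omega

lemma mQ_mod5 {n : ℕ} (h : Ng n) : mQ n % 5 = 0 ∧ n % 5 = 0 ∨
    (mQ n % 5 = 1 ∨ mQ n % 5 = 4) ∧ (n % 5 = 1 ∨ n % 5 = 4) ∨
    (mQ n % 5 = 2 ∨ mQ n % 5 = 3) ∧ (n % 5 = 2 ∨ n % 5 = 3) := by
  rcases h with ⟨h1, h2⟩ | ⟨k, rfl, h1, h2⟩
  · rw [mQ_odd (by omega)]
    omega
  · have e : 4 * k / 4 = k := by omega
    rw [mQ_even (by omega), e]
    have h5 : k % 5 = 0 ∨ k % 5 = 1 ∨ k % 5 = 2 ∨ k % 5 = 3 ∨ k % 5 = 4 := by omega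
    rcases h5 with h5 | h5 | h5 | h5 | h5
    · exact Or.inl ⟨h5, by omega⟩
    · exact Or.inr (Or.inl ⟨Or.inl h5, by omega⟩)
    · exact Or.inr (Or.inr ⟨Or.inl h5, by omega⟩)
    · exact Or.inr (Or.inr ⟨Or.inr h5, by omega⟩)
    · exact Or.inr (Or.inl ⟨Or.inr h5, by omega⟩)

lemma B3_neg {n : ℕ} (h : Ng n) : B3 (-(mQ n : ℤ)) ↔ n % 3 = 1 := by
  have := mQ_mod3 h
  unfold B3
  omega

lemma B5_neg {n : ℕ} (h : Ng n) : B5 (-(mQ n : ℤ)) ↔ n % 5 = 1 ∨ n % 5 = 4 := by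
  have := mQ_mod5 h
  unfold B5
  omega

/-- `n` not `1` modulo `3`, `n` not `± 1` modulo `5` -/
lemma cls_neg {n : ℕ} (h : Ng n) (h3 : ¬ B3 (-(mQ n : ℤ))) (h5 : ¬ B5 (-(mQ n : ℤ))) :
    n % 3 ≠ 1 ∧ (n % 5 = 0 ∨ n % 5 = 2 ∨ n % 5 = 3) := by
  rw [B3_neg h] at h3
  rw [B5_neg h] at h5
  omega

/-- **negative discriminants, `3` not inert and `5` not split**: no ideal class of order four -/
theorem qq_of_sg {n : ℕ} (hn : Ng n) (h3 : ¬ B3 (-(mQ n : ℤ))) (h5 : ¬ B5 (-(mQ n : ℤ)))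
    (hsq : Squarefree (-(mQ n : ℤ))) (hS : Sg15 (-(mQ n : ℤ))) : QQ n := by
  have hF : Fin2 (WS (-(mQ n : ℤ))) := (fin2S_iff_sg15 hsq).2 (Or.inl hS)
  obtain ⟨c3, c5⟩ := cls_neg hn h3 h5
  rcases hn with ⟨h1, h2⟩ | h1
  · left
    have hao : Ao n := ⟨h1, h2, c3, c5⟩
    rw [mQ_odd (by omega)] at hF
    exact ⟨(crit_ao_S hao).1 hF, by omega⟩
  · right
    have hae : Ae n := ⟨h1, c3, c5⟩
    have h2 : 2 ∣ n := by
      obtain ⟨k, rfl, -⟩ := h1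
      omega
    rw [mQ_even h2] at hF
    exact ⟨(crit_ae_S hae).1 hF, h2⟩

end Pool.Agent.N875.D15
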