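import Mathlib

/-!
# A square system with a trivial left kernel
-/

set_option autoImplicit false

open Finset

namespace Pool.Agent.N875.D15

/-- `L` has row sums zero and `(L | ρ)` has trivial left kernel: then the right kernel of `(L | ρ)` is
spanned by the constant vector. -/
theorem right_of_left (P : Finset ℕ) (hP : P.Nonempty) (L : ℕ → ℕ → ZMod 2) (ρ : ℕ → ZMod 2)
    (h0 : ∀ p ∈ P, ∑ q ∈ P, L p q = 0)
    (hL : ∀ z : ℕ → ZMod 2, (∀ q ∈ P, ∑ p ∈ P, L p q * z p = 0) → ∑ p ∈ P, ρ p * z p = 0 →
      ∀ p ∈ P, z p = 0)
    (x : ℕ → ZMod 2) (a : ZMod 2) (hx : ∀ p ∈ P, ∑ q ∈ P, L p q * x q = a * ρ p) :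
    a = 0 ∧ ∀ p ∈ P, ∀ q ∈ P, x p = x q := by
  classical
  obtain ⟨i0, hi0⟩ := hP
  let B : Matrix (Option P) (Option P) (ZMod 2) := fun i j =>
    match i, j with
    | some p, some q => L p q
    | some p, none => ρ p
    | none, some q => if (q : ℕ) = i0 then 1 else 0
    | none, none => 0
  have two : ∀ t : ZMod 2, t + t = 0 := by decide
  -- the transpose is injective
  have hBt : ∀ w : Option P → ZMod 2, Matrix.vecMul w B = 0 → w = 0 := by
    intro w hw
    have e1 : ∀ q : P, ∑ p : P, w (some p) * L p q + w none * (if (q : ℕ) = i0 then 1 else 0) = 0 := by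
      intro q
      have := congrFun hw (some q)
      simp only [Matrix.vecMul, dotProduct, Fintype.sum_option, Pi.zero_apply] at this
      exact (add_comm _ _).trans this
    have e2 : ∑ p : P, w (some p) * ρ p = 0 := by
      have := congrFun hw none
      simp only [Matrix.vecMul, dotProduct, Fintype.sum_option, Pi.zero_apply] at this
      have h1 : w none * 0 + ∑ p : P, w (some p) * ρ p = 0 := this
      rwa [mul_zero, zero_add] at h1
    -- the sum over the columns
    have e3 : w none = 0 := by
      have h1 : ∑ q : P, (∑ p : P, w (some p) * L p q + w none * (if (q : ℕ) = i0 then 1 else 0)) = 0 :=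
        Finset.sum_eq_zero fun q _ => e1 q
      rw [Finset.sum_add_distrib, Finset.sum_comm] at h1
      have h2 : ∑ p : P, ∑ q : P, w (some p) * L p q = 0 := by
        refine Finset.sum_eq_zero fun p _ => ?_
        rw [← Finset.mul_sum]
        have : ∑ q : P, L p q = 0 := by
          rw [← h0 p p.2]
          exact Finset.sum_coe_sort P (fun q => L p q)
        rw [this, mul_zero]
      have h3 : ∑ q : P, w none * (if (q : ℕ) = i0 then 1 else 0) = w none := by
        rw [← Finset.mul_sum]
        have : ∑ q : P, (if (q : ℕ) = i0 then (1 : ZMod 2) else 0) = 1 := by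
          rw [Finset.sum_coe_sort P (fun q => if q = i0 then (1 : ZMod 2) else 0),
            Finset.sum_ite_eq' P i0, if_pos hi0]
        rw [this, mul_one]
      rw [h2, h3, zero_add] at h1
      exact h1
    have e4 := hL (fun p => if h : p ∈ P then w (some ⟨p, h⟩) else 0) (fun q hq => by
        have h1 := e1 ⟨q, hq⟩
        rw [e3, zero_mul, add_zero] at h1
        refine Eq.trans ?_ h1
        rw [← Finset.sum_coe_sort P]
        refine Finset.sum_congr rfl fun p _ => ?_
        rw [dif_pos p.2, mul_comm]) (by
        refine Eq.trans ?_ e2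
        rw [← Finset.sum_coe_sort P]
        refine Finset.sum_congr rfl fun p _ => ?_
        rw [dif_pos p.2, mul_comm])
    funext i
    rcases i with _ | p
    · exact e3
    · have := e4 p p.2
      rwa [dif_pos p.2] at this
  -- hence the matrix is injective
  have hB : ∀ v : Option P → ZMod 2, Matrix.mulVec B v = 0 → v = 0 := by
    intro v hv
    by_contra hne
    obtain ⟨w, hw1, hw2⟩ := Matrix.exists_vecMul_eq_zero_iff.2
      (Matrix.exists_mulVec_eq_zero_iff.1 ⟨v, hne, hv⟩)
    exact hw1 (hBt w hw2)
  have hv := hB (fun i => match i with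
    | some p => x p + x i0
    | none => a) (by
      funext i
      rcases i with _ | p
      · simp only [Matrix.mulVec, dotProduct, Fintype.sum_option, Pi.zero_apply]
        show (0 : ZMod 2) * a + ∑ q : P, (if (q : ℕ) = i0 then (1 : ZMod 2) else 0) * (x q + x i0) = 0
        rw [zero_mul, zero_add, Finset.sum_coe_sort P (fun q => (if q = i0 then (1 : ZMod 2) else 0) *
          (x q + x i0))]
        refine Finset.sum_eq_zero fun q _ => ?_
        by_cases h : q = i0
        · rw [h, two, mul_zero]
        · rw [if_neg h, zero_mul]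
      · simp only [Matrix.mulVec, dotProduct, Fintype.sum_option, Pi.zero_apply]
        show ρ p * a + ∑ q : P, L p q * (x q + x i0) = 0
        rw [Finset.sum_coe_sort P (fun q => L p q * (x q + x i0))]
        have : ∑ q ∈ P, L p q * (x q + x i0) = a * ρ p := by
          rw [← hx p p.2]
          have h1 : ∑ q ∈ P, L p q * (x q + x i0) =
              ∑ q ∈ P, L p q * x q + (∑ q ∈ P, L p q) * x i0 := by
            rw [Finset.sum_mul, ← Finset.sum_add_distrib]
            exact Finset.sum_congr rfl fun q _ => mul_add _ _ _
          rw [h1, h0 p p.2, zero_mul, add_zero]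
        rw [this, mul_comm a, two])
  have ha : a = 0 := congrFun hv none
  have hx' : ∀ p ∈ P, x p = x i0 := by
    intro p hp
    have h1 : x p + x i0 = 0 := congrFun hv (some ⟨p, hp⟩)
    have key : ∀ s t : ZMod 2, s + t = 0 → s = t := by decide
    exact key _ _ h1
  exact ⟨ha, fun p hp q hq => (hx' p hp).trans (hx' q hq).symm⟩

end Pool.Agent.N875.D15
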