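import Pool.Agent.N875.D15.Fin
import Pool.Agent.N875.P17.Lo4

/-!
# The converse of the local conditions, level 15: translations and the odd primes
-/

set_option autoImplicit false

open Finset

namespace Pool.Agent.N875.D15

open Pool.Agent.N875.X15
open Pool.Agent.N875.P17 (sq_of exists_class sqp)
open Pool.Agent.TH841.SH (LocC SelG)

section

variable {K : Type} [Field K] [CharZero K] {m d1 d2 e1 e2 : ℤ}

/-- the local condition only depends on the square classes -/
lemma locC_congr15 (hd1 : d1 ≠ 0) (hd2 : d2 ≠ 0) (h : LocC K (-9 * m) (16 * m) 0 d1 d2)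
    (q1 : IsSquare ((d1 : K) * e1)) (q2 : IsSquare ((d2 : K) * e2)) :
    LocC K (-9 * m) (16 * m) 0 e1 e2 := by
  obtain ⟨x, hx, hu, hv, hs, h1, h2⟩ := locC_iff15 h
  have hd1' : (d1 : K) ≠ 0 := by exact_mod_cast hd1
  have hd2' : (d2 : K) ≠ 0 := by exact_mod_cast hd2
  refine locC_mk15 hx hu hv hs ?_ ?_
  · refine sq_of (h1.mul q1) hd1' ?_
    ring
  · refine sq_of (h2.mul q2) hd2' ?_
    ring

/-- translation by `(16 m, 0)` -/
lemma locC_Tu (hm : m ≠ 0) (h : LocC K (-9 * m) (16 * m) 0 d1 d2) :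
    LocC K (-9 * m) (16 * m) 0 (m * d1) d2 := by
  obtain ⟨x, hx, hu, hv, hs, h1, h2⟩ := locC_iff15 h
  have hm' : (m : K) ≠ 0 := by exact_mod_cast hm
  have n16 : (16 : K) ≠ 0 := by norm_num
  have n25 : (25 : K) ≠ 0 := by norm_num
  have n400 : (400 : K) ≠ 0 := by norm_num
  have e1 : 16 * (m : K) * (x + 9 * m) / (x - 16 * m) + 9 * m = 25 * m * x / (x - 16 * m) := by
    field_simp
    ring
  have e2 : 16 * (m : K) * (x + 9 * m) / (x - 16 * m) - 16 * m = 400 * m ^ 2 / (x - 16 * m) := by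
    field_simp
    ring
  obtain ⟨r, hr⟩ := hs
  obtain ⟨s, hs'⟩ := h1
  obtain ⟨t, ht⟩ := h2
  refine locC_mk15 (x := 16 * (m : K) * (x + 9 * m) / (x - 16 * m)) ?_ ?_ ?_ ?_ ?_ ?_
  · exact div_ne_zero (mul_ne_zero (mul_ne_zero n16 hm') hu) hv
  · rw [e1]
    exact div_ne_zero (mul_ne_zero (mul_ne_zero n25 hm') hx) hv
  · rw [e2]
    exact div_ne_zero (mul_ne_zero n400 (pow_ne_zero 2 hm')) hv
  · rw [e1, e2]
    refine ⟨400 * m ^ 2 * r / (x - 16 * m) ^ 2, ?_⟩
    have : 16 * (m : K) * (x + 9 * m) / (x - 16 * m) * (25 * m * x / (x - 16 * m)) *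
        (400 * m ^ 2 / (x - 16 * m)) =
      (400 * m ^ 2) ^ 2 * (x * (x + 9 * m) * (x - 16 * m)) / (x - 16 * m) ^ 4 := by
      field_simp
      ring
    rw [this, hr]
    field_simp
  · rw [e1]
    push_cast
    refine ⟨5 * m * r * s / ((x + 9 * m) * (x - 16 * m)), ?_⟩
    have : 25 * (m : K) * x / (x - 16 * m) * (m * d1) =
      (5 * m) ^ 2 * (x * (x + 9 * m) * (x - 16 * m)) * ((x + 9 * m) * d1) /
        ((x + 9 * m) * (x - 16 * m)) ^ 2 := by
      rw [div_mul_eq_mul_div, div_eq_div_iff hv (pow_ne_zero 2 (mul_ne_zero hu hv))]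
      ring
    rw [this, hr, hs']
    field_simp
  · rw [e2]
    refine ⟨20 * m * t / (x - 16 * m), ?_⟩
    have : 400 * (m : K) ^ 2 / (x - 16 * m) * d2 = (20 * m) ^ 2 * ((x - 16 * m) * d2) /
        (x - 16 * m) ^ 2 := by
      field_simp
      ring
    rw [this, ht]
    field_simp

/-- translation by `(-9 m, 0)` -/
lemma locC_Tv (hm : m ≠ 0) (h : LocC K (-9 * m) (16 * m) 0 d1 d2) :
    LocC K (-9 * m) (16 * m) 0 d1 (-m * d2) := by
  obtain ⟨x, hx, hu, hv, hs, h1, h2⟩ := locC_iff15 h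
  have hm' : (m : K) ≠ 0 := by exact_mod_cast hm
  have n9 : (9 : K) ≠ 0 := by norm_num
  have n25 : (25 : K) ≠ 0 := by norm_num
  have n225 : (225 : K) ≠ 0 := by norm_num
  have e1 : -(9 * (m : K) * (x - 16 * m)) / (x + 9 * m) + 9 * m = 225 * m ^ 2 / (x + 9 * m) := by
    field_simp
    ring
  have e2 : -(9 * (m : K) * (x - 16 * m)) / (x + 9 * m) - 16 * m = -(25 * m * x) / (x + 9 * m) := by
    field_simp
    ring
  obtain ⟨r, hr⟩ := hs
  obtain ⟨s, hs'⟩ := h1
  obtain ⟨t, ht⟩ := h2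
  refine locC_mk15 (x := -(9 * (m : K) * (x - 16 * m)) / (x + 9 * m)) ?_ ?_ ?_ ?_ ?_ ?_
  · exact div_ne_zero (neg_ne_zero.2 (mul_ne_zero (mul_ne_zero n9 hm') hv)) hu
  · rw [e1]
    exact div_ne_zero (mul_ne_zero n225 (pow_ne_zero 2 hm')) hu
  · rw [e2]
    exact div_ne_zero (neg_ne_zero.2 (mul_ne_zero (mul_ne_zero n25 hm') hx)) hu
  · rw [e1, e2]
    refine ⟨225 * m ^ 2 * r / (x + 9 * m) ^ 2, ?_⟩
    have : -(9 * (m : K) * (x - 16 * m)) / (x + 9 * m) * (225 * m ^ 2 / (x + 9 * m)) *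
        (-(25 * m * x) / (x + 9 * m)) =
      (225 * m ^ 2) ^ 2 * (x * (x + 9 * m) * (x - 16 * m)) / (x + 9 * m) ^ 4 := by
      field_simp
      ring
    rw [this, hr]
    field_simp
  · rw [e1]
    refine ⟨15 * m * s / (x + 9 * m), ?_⟩
    have : 225 * (m : K) ^ 2 / (x + 9 * m) * d1 = (15 * m) ^ 2 * ((x + 9 * m) * d1) /
        (x + 9 * m) ^ 2 := by
      field_simp
      ring
    rw [this, hs']
    field_simp
  · rw [e2]
    push_cast
    refine ⟨5 * m * r * t / ((x + 9 * m) * (x - 16 * m)), ?_⟩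
    have : -(25 * (m : K) * x) / (x + 9 * m) * (-m * d2) =
      (5 * m) ^ 2 * (x * (x + 9 * m) * (x - 16 * m)) * ((x - 16 * m) * d2) /
        ((x + 9 * m) * (x - 16 * m)) ^ 2 := by
      rw [div_mul_eq_mul_div, div_eq_div_iff hu (pow_ne_zero 2 (mul_ne_zero hu hv))]
      ring
    rw [this, hr, ht]
    field_simp

/-- **The classes of the torsion points.** -/
theorem locC_tor (hm : m ≠ 0) (h0 : LocC K (-9 * m) (16 * m) 0 1 1)
    (h1 : IsSquare (d1 : K) ∨ IsSquare ((d1 : K) * m))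
    (h2 : IsSquare (d2 : K) ∨ IsSquare ((d2 : K) * (-m))) :
    LocC K (-9 * m) (16 * m) 0 d1 d2 := by
  have key : ∀ {a b : ℤ}, LocC K (-9 * m) (16 * m) 0 a b → a ≠ 0 → b ≠ 0 →
      IsSquare ((a : K) * d1) → IsSquare ((b : K) * d2) → LocC K (-9 * m) (16 * m) 0 d1 d2 :=
    fun h ha hb q1 q2 => locC_congr15 ha hb h q1 q2
  rcases h1 with h1 | h1 <;> rcases h2 with h2 | h2
  · exact key h0 one_ne_zero one_ne_zero (by rwa [Int.cast_one, one_mul])
      (by rwa [Int.cast_one, one_mul])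
  · refine key (locC_Tv hm h0) one_ne_zero (mul_ne_zero (neg_ne_zero.2 hm) one_ne_zero)
      (by rwa [Int.cast_one, one_mul]) ?_
    push_cast
    rw [mul_one, mul_comm]
    exact h2
  · refine key (locC_Tu hm h0) (mul_ne_zero hm one_ne_zero) one_ne_zero ?_
      (by rwa [Int.cast_one, one_mul])
    push_cast
    rw [mul_one, mul_comm]
    exact h1
  · refine key (locC_Tu hm (locC_Tv hm h0)) (mul_ne_zero hm one_ne_zero)
      (mul_ne_zero (neg_ne_zero.2 hm) one_ne_zero) ?_ ?_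
    · push_cast
      rw [mul_one, mul_comm]
      exact h1
    · push_cast
      rw [mul_one, mul_comm]
      exact h2

end

/-- the trivial class -/
lemma locC_one15 (p : ℕ) [Fact p.Prime] (m : ℤ) : LocC ℚ_[p] (-9 * m) (16 * m) 0 1 1 := by
  obtain ⟨x, y, hy, hxy, h1, h2, -⟩ := Pool.Agent.TH841.SH.pt_pad p (-9 * m) (16 * m) 0
  refine ⟨x, y, hy, hxy, ?_, ?_⟩
  · rw [Int.cast_one, mul_one]
    exact h1
  · rw [Int.cast_one, mul_one]
    exact h2

/-- the real place -/
lemma locC_real15 {m d1 d2 : ℤ} (hm : m ≠ 0) (hd1 : d1 ≠ 0) (hd2 : d2 ≠ 0)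
    (h1 : 0 < m → 0 < d1) (h2 : m < 0 → 0 < d2) : LocC ℝ (-9 * m) (16 * m) 0 d1 d2 := by
  have h0 : LocC ℝ (-9 * m) (16 * m) 0 1 1 := by
    obtain ⟨x, y, hy, hxy, q1, q2, -⟩ := Pool.Agent.TH841.SH.pt_real (-9 * m) (16 * m) 0
    refine ⟨x, y, hy, hxy, ?_, ?_⟩
    · rw [Int.cast_one, mul_one]
      exact q1
    · rw [Int.cast_one, mul_one]
      exact q2
  have sq : ∀ n : ℤ, 0 < n → IsSquare (n : ℝ) := fun n hn =>
    ⟨√(n : ℝ), (Real.mul_self_sqrt (by exact_mod_cast hn.le)).symm⟩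
  refine locC_tor hm h0 ?_ ?_
  · rcases lt_or_gt_of_ne hd1 with h | h
    · right
      have hm' : m < 0 := by
        by_contra hcon
        have := h1 (by omega)
        omega
      have := sq (d1 * m) (mul_pos_of_neg_of_neg h hm')
      push_cast at this
      exact this
    · exact Or.inl (sq d1 h)
  · rcases lt_or_gt_of_ne hd2 with h | h
    · right
      have hm' : 0 < m := by
        by_contra hcon
        have := h2 (by omega)
        omega
      have := sq (d2 * -m) (mul_pos_of_neg_of_neg h (by omega))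
      push_cast at this
      exact this
    · exact Or.inl (sq d2 h)

section

variable {p : ℕ} [hp : Fact p.Prime]

/-- **The good primes.** -/
theorem locC_good15 (hp2 : p ≠ 2) (hp3 : p ≠ 3) (hp5 : p ≠ 5) {m d1 d2 : ℤ}
    (hpm : ¬ (p : ℤ) ∣ m) (h1 : ¬ (p : ℤ) ∣ d1) (h2 : ¬ (p : ℤ) ∣ d2) :
    LocC ℚ_[p] (-9 * m) (16 * m) 0 d1 d2 := by
  have hpr : Prime (p : ℤ) := Nat.prime_iff_prime_int.1 hp.out
  have hz : ∀ n : ℤ, ¬ (p : ℤ) ∣ n → ((n : ℤ) : ZMod p) ≠ 0 := fun n hn h =>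
    hn ((ZMod.intCast_zmod_eq_zero_iff_dvd n p).1 h)
  have hzd : ∀ n : ℤ, ((n : ℤ) : ZMod p) ≠ 0 → ¬ (p : ℤ) ∣ n := fun n hn h =>
    hn ((ZMod.intCast_zmod_eq_zero_iff_dvd n p).2 h)
  have hmul : ∀ x y : ℤ, ¬ (p : ℤ) ∣ x → ¬ (p : ℤ) ∣ y → ¬ (p : ℤ) ∣ x * y := fun x y hx hy h => by
    rcases hpr.dvd_or_dvd h with h3 | h3
    · exact hx h3
    · exact hy h3
  have hneg : ∀ x : ℤ, ¬ (p : ℤ) ∣ x → ¬ (p : ℤ) ∣ -x := fun x hx => by rwa [dvd_neg]
  have hm0 : m ≠ 0 := by
    rintro rfl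
    exact hpm (dvd_zero _)
  have n16 := nd16 hp2
  have n9 := nd9 hp3
  have n25 := nd25 hp5
  have n3 : ¬ (p : ℤ) ∣ 3 := by exact_mod_cast not_dvd_of_prime (by norm_num : Nat.Prime 3) hp3
  have n5 : ¬ (p : ℤ) ∣ 5 := by exact_mod_cast not_dvd_of_prime (by norm_num : Nat.Prime 5) hp5
  have n4 : ¬ (p : ℤ) ∣ 4 := fun h => n16 (h.trans ⟨4, by norm_num⟩)
  set χ := quadraticChar (ZMod p) with hχ
  have dich : ∀ n : ℤ, ¬ (p : ℤ) ∣ n → χ (n : ZMod p) = 1 ∨ χ (n : ZMod p) = -1 := fun n hn =>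
    quadraticChar_dichotomy (hz n hn)
  have self : ∀ n : ℤ, ¬ (p : ℤ) ∣ n → χ (n : ZMod p) * χ (n : ZMod p) = 1 := by
    intro n hn
    rcases dich n hn with h | h <;> rw [h] <;> norm_num
  -- products which are squares
  have prod : ∀ a b : ℤ, ¬ (p : ℤ) ∣ a → ¬ (p : ℤ) ∣ b → χ (a : ZMod p) = χ (b : ZMod p) →
      IsSquare ((a : ℚ_[p]) * b) := by
    intro a b ha hb hab
    have := sqp hp2 (n := a * b) (hmul _ _ ha hb) (by
      rw [Int.cast_mul, map_mul, ← hχ, hab]
      exact self b hb)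
    push_cast at this
    exact this
  by_cases hne : χ (d1 : ZMod p) = 1 ∧ χ (d2 : ZMod p) = 1
  · exact locC_tor hm0 (locC_one15 p m) (Or.inl (sqp hp2 h1 hne.1)) (Or.inl (sqp hp2 h2 hne.2))
  · obtain ⟨t, ht⟩ := exists_class hp2 (a := ((-(25 * m) : ℤ) : ZMod p))
      (b := ((-(9 * m) : ℤ) : ZMod p)) (hz _ (hneg _ (hmul _ _ n25 hpm)))
      (hz _ (hneg _ (hmul _ _ n9 hpm))) (by
        intro h
        apply hmul 16 m n16 hpm
        rw [← ZMod.intCast_zmod_eq_zero_iff_dvd]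
        push_cast at h ⊢
        linear_combination -h) (dich d1 h1) (dich d2 h2) hne
    obtain ⟨U, hU⟩ : ∃ U : ℤ, (U : ZMod p) = t := ⟨(t.val : ℤ), by simp⟩
    have f1 := left_ne_zero_of_mul (left_ne_zero_of_mul ht)
    have f2 := right_ne_zero_of_mul (left_ne_zero_of_mul ht)
    have f3 := right_ne_zero_of_mul ht
    have e2 : t + ((-(25 * m) : ℤ) : ZMod p) = ((U - 25 * m : ℤ) : ZMod p) := by
      rw [← hU]; push_cast; ring
    have e3 : t + ((-(9 * m) : ℤ) : ZMod p) = ((U - 9 * m : ℤ) : ZMod p) := by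
      rw [← hU]; push_cast; ring
    rw [← hU] at f1
    rw [e2] at f2
    rw [e3] at f3
    -- the factors which do not vanish
    have conv : ∀ (e : ℤ) (n : ℤ), (e = 1 ∨ e = -1) → ¬ (p : ℤ) ∣ n →
        1 + e * χ (n : ZMod p) ≠ 0 → χ (n : ZMod p) = e := by
      intro e y he hy h
      rcases dich y hy with k | k
      · rcases he with rfl | rfl
        · exact k
        · exfalso
          apply h
          rw [k]
          norm_num
      · rcases he with rfl | rfl
        · exfalso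
          apply h
          rw [k]
          norm_num
        · exact k
    have he1 := dich d1 h1
    have he2 := dich d2 h2
    have he12 : χ (d1 : ZMod p) * χ (d2 : ZMod p) = 1 ∨ χ (d1 : ZMod p) * χ (d2 : ZMod p) = -1 := by
      rcases he1 with k | k <;> rcases he2 with k' | k' <;> rw [k, k'] <;> norm_num
    have sqm : ∀ (a n : ℤ), ¬ (p : ℤ) ∣ a → χ ((a * a * n : ℤ) : ZMod p) = χ (n : ZMod p) := by
      intro a n ha
      have e : ((a * a * n : ℤ) : ZMod p) = (a : ZMod p) ^ 2 * (n : ZMod p) := by push_cast; ring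
      rw [e, map_mul, hχ, quadraticChar_sq_one' (hz a ha), one_mul]
    have congr0 : ∀ a b : ℤ, (p : ℤ) ∣ a - b → (a : ZMod p) = (b : ZMod p) := by
      intro a b h
      have := (ZMod.intCast_zmod_eq_zero_iff_dvd (a - b) p).2 h
      push_cast at this
      exact sub_eq_zero.1 this
    have nm := hneg _ hpm
    by_cases x0 : (p : ℤ) ∣ U
    · -- `x = -9 m`
      have g2 : (U - 25 * m : ℤ) = ((U - 25 * m : ℤ)) := rfl
      have c2 : ((U - 25 * m : ℤ) : ZMod p) = ((5 * 5 * (-m) : ℤ) : ZMod p) :=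
        congr0 _ _ (by
          have : U - 25 * m - 5 * 5 * (-m) = U := by ring
          rw [this]; exact x0)
      have c3 : ((U - 9 * m : ℤ) : ZMod p) = ((3 * 3 * (-m) : ℤ) : ZMod p) :=
        congr0 _ _ (by
          have : U - 9 * m - 3 * 3 * (-m) = U := by ring
          rw [this]; exact x0)
      rw [c2] at f2
      rw [c3] at f3
      have k2 := conv _ _ he2 (hmul _ _ (hmul _ _ n5 n5) nm) f2
      have k3 := conv _ _ he12 (hmul _ _ (hmul _ _ n3 n3) nm) f3
      rw [sqm 5 _ n5] at k2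
      rw [sqm 3 _ n3, k2] at k3
      have hd1 : χ (d1 : ZMod p) = 1 := by
        have h4 := self d2 h2
        linear_combination -χ (d2 : ZMod p) * k3 + (1 - χ (d1 : ZMod p)) * h4
      refine locC_tor hm0 (locC_one15 p m) (Or.inl (sqp hp2 h1 hd1)) (Or.inr ?_)
      have := prod d2 (-m) h2 nm k2.symm
      push_cast at this
      exact this
    · by_cases x1 : (p : ℤ) ∣ U - 25 * m
      · -- `x = 16 m`
        have c1 : ((U : ℤ) : ZMod p) = ((5 * 5 * m : ℤ) : ZMod p) :=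
          congr0 _ _ (by
            have : U - 5 * 5 * m = U - 25 * m := by ring
            rw [this]; exact x1)
        have c3 : ((U - 9 * m : ℤ) : ZMod p) = ((4 * 4 * m : ℤ) : ZMod p) :=
          congr0 _ _ (by
            have : U - 9 * m - 4 * 4 * m = U - 25 * m := by ring
            rw [this]; exact x1)
        rw [c1] at f1
        rw [c3] at f3
        have k1 := conv _ _ he1 (hmul _ _ (hmul _ _ n5 n5) hpm) f1
        have k3 := conv _ _ he12 (hmul _ _ (hmul _ _ n4 n4) hpm) f3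
        rw [sqm 5 _ n5] at k1
        rw [sqm 4 _ n4, k1] at k3
        have hd2 : χ (d2 : ZMod p) = 1 := by
          have h4 := self d1 h1
          linear_combination -χ (d1 : ZMod p) * k3 + (1 - χ (d2 : ZMod p)) * h4
        exact locC_tor hm0 (locC_one15 p m) (Or.inr (prod d1 m h1 hpm k1.symm))
          (Or.inl (sqp hp2 h2 hd2))
      · by_cases x2 : (p : ℤ) ∣ U - 9 * m
        · -- `x = 0`
          have c1 : ((U : ℤ) : ZMod p) = ((3 * 3 * m : ℤ) : ZMod p) :=
            congr0 _ _ (by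
              have : U - 3 * 3 * m = U - 9 * m := by ring
              rw [this]; exact x2)
          have c2 : ((U - 25 * m : ℤ) : ZMod p) = ((4 * 4 * (-m) : ℤ) : ZMod p) :=
            congr0 _ _ (by
              have : U - 25 * m - 4 * 4 * (-m) = U - 9 * m := by ring
              rw [this]; exact x2)
          rw [c1] at f1
          rw [c2] at f2
          have k1 := conv _ _ he1 (hmul _ _ (hmul _ _ n3 n3) hpm) f1
          have k2 := conv _ _ he2 (hmul _ _ (hmul _ _ n4 n4) nm) f2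
          rw [sqm 3 _ n3] at k1
          rw [sqm 4 _ n4] at k2
          refine locC_tor hm0 (locC_one15 p m) (Or.inr (prod d1 m h1 hpm k1.symm)) (Or.inr ?_)
          have := prod d2 (-m) h2 nm k2.symm
          push_cast at this
          exact this
        · have k1 := conv _ _ he1 x0 f1
          have k2 := conv _ _ he2 x1 f2
          have k3 := conv _ _ he12 x2 f3
          have nz : ∀ n : ℤ, ¬ (p : ℤ) ∣ n → (n : ℚ_[p]) ≠ 0 := by
            intro n hn h0
            apply hn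
            have : n = 0 := by exact_mod_cast h0
            rw [this]
            exact dvd_zero _
          have E1 : ((U - 9 * m : ℤ) : ℚ_[p]) + 9 * m = (U : ℚ_[p]) := by push_cast; ring
          have E2 : ((U - 9 * m : ℤ) : ℚ_[p]) - 16 * m = ((U - 25 * m : ℤ) : ℚ_[p]) := by
            push_cast; ring
          refine locC_mk15 (x := ((U - 9 * m : ℤ) : ℚ_[p])) (nz _ x2) ?_ ?_ ?_ ?_ ?_
          · rw [E1]
            exact nz _ x0
          · rw [E2]
            exact nz _ x1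
          · rw [E1, E2]
            have := sqp hp2 (n := (U - 9 * m) * U * (U - 25 * m))
              (hmul _ _ (hmul _ _ x2 x0) x1) (by
              rw [Int.cast_mul, Int.cast_mul, map_mul, map_mul, ← hχ, k1, k2, k3]
              have h3 := self d1 h1
              have h4 := self d2 h2
              linear_combination χ (d2 : ZMod p) * χ (d2 : ZMod p) * h3 + h4)
            rw [Int.cast_mul, Int.cast_mul] at this
            exact this
          · rw [E1]
            exact prod U d1 x0 h1 k1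
          · rw [E2]
            exact prod (U - 25 * m) d2 x1 h2 k2

end

/-- squares at `3` -/
lemma sq3_of {n : ℤ} (h : n % 3 = 1) : IsSquare (n : ℚ_[3]) := by
  refine sq_of_zmod (by norm_num) (by push_cast; omega) ⟨1, ?_⟩
  have : ((n - 1 : ℤ) : ZMod 3) = 0 := by
    rw [ZMod.intCast_zmod_eq_zero_iff_dvd]
    push_cast
    omega
  push_cast at this
  linear_combination this

lemma nzi {p : ℕ} [Fact p.Prime] {n : ℤ} (h : n ≠ 0) : (n : ℚ_[p]) ≠ 0 := by exact_mod_cast h

/-- a point with integral coordinate, up to squares -/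
lemma locC_int {p : ℕ} [Fact p.Prime] {m d1 d2 x : ℤ} (hx : x ≠ 0) (hu : x + 9 * m ≠ 0)
    (hv : x - 16 * m ≠ 0) (h1 : IsSquare (((x + 9 * m) * d1 : ℤ) : ℚ_[p]))
    (h2 : IsSquare (((x - 16 * m) * d2 : ℤ) : ℚ_[p])) (hd1 : d1 ≠ 0) (hd2 : d2 ≠ 0)
    (h3 : IsSquare ((x * d1 * d2 : ℤ) : ℚ_[p])) : LocC ℚ_[p] (-9 * m) (16 * m) 0 d1 d2 := by
  have n1 : (d1 : ℚ_[p]) ≠ 0 := nzi hd1
  have n2 : (d2 : ℚ_[p]) ≠ 0 := nzi hd2
  push_cast at h1 h2 h3
  refine locC_mk15 (x := (x : ℚ_[p])) (nzi hx) ?_ ?_ ?_ h1 h2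
  · have := nzi (p := p) hu
    push_cast at this
    exact this
  · have := nzi (p := p) hv
    push_cast at this
    exact this
  · refine sq_of ((h1.mul h2).mul h3) (mul_ne_zero n1 n2) ?_
    ring

/-- **The prime `3`, nonsplit.** -/
theorem locC_3n {m d1 d2 : ℤ} (hm3 : m % 3 = 1) (h1 : ¬ (3 : ℤ) ∣ d1) (h2 : ¬ (3 : ℤ) ∣ d2) :
    LocC ℚ_[3] (-9 * m) (16 * m) 0 d1 d2 := by
  have hm0 : m ≠ 0 := by rintro rfl; norm_num at hm3
  -- the second coordinate
  have key : ∀ {a : ℤ}, a ≠ 0 → LocC ℚ_[3] (-9 * m) (16 * m) 0 a 1 →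
      IsSquare ((a : ℚ_[3]) * d1) → LocC ℚ_[3] (-9 * m) (16 * m) 0 d1 d2 := by
    intro a ha h h3
    rcases (by omega : d2 % 3 = 1 ∨ d2 % 3 = 2) with h4 | h4
    · refine locC_congr15 ha one_ne_zero h h3 ?_
      rw [Int.cast_one, one_mul]
      exact sq3_of h4
    · refine locC_congr15 ha (mul_ne_zero (neg_ne_zero.2 hm0) one_ne_zero) (locC_Tv hm0 h) h3 ?_
      have h5 : (-m * 1 * d2) % 3 = 1 := by
        have e : -m * 1 * d2 = (-m) * d2 := by ring
        rw [e, Int.mul_emod, (by omega : (-m) % 3 = 2), h4]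
        norm_num
      have := sq3_of h5
      push_cast at this ⊢
      exact this
  rcases (by omega : d1 % 3 = 1 ∨ d1 % 3 = 2) with h4 | h4
  · refine key one_ne_zero (locC_one15 3 m) ?_
    rw [Int.cast_one, one_mul]
    exact sq3_of h4
  · refine key (a := -1) (by norm_num) ?_ ?_
    · refine locC_int (x := 2) (by norm_num) (by omega) (by omega) ?_ ?_ (by norm_num)
        one_ne_zero ?_
      · exact sq3_of (by omega)
      · exact sq3_of (by omega)
      · exact sq3_of (by norm_num)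
    · have := sq3_of (n := -1 * d1) (by omega)
      push_cast at this ⊢
      exact this

/-- **The prime `3`, split.** -/
theorem locC_3s {m d1 d2 : ℤ} (hm3 : m % 3 = 2)
    (h1 : ¬ (3 : ℤ) ∣ d1 ∨ ∃ k : ℤ, d1 = 3 * k ∧ ¬ (3 : ℤ) ∣ k) (h2 : IsSquare (d2 : ℚ_[3])) :
    LocC ℚ_[3] (-9 * m) (16 * m) 0 d1 d2 := by
  have hm0 : m ≠ 0 := by rintro rfl; norm_num at hm3
  rcases h1 with h1 | ⟨k, rfl, hk⟩
  · refine locC_tor hm0 (locC_one15 3 m) ?_ (Or.inl h2)
    rcases (by omega : d1 % 3 = 1 ∨ d1 % 3 = 2) with h4 | h4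
    · exact Or.inl (sq3_of h4)
    · right
      have := sq3_of (n := d1 * m) (by rw [Int.mul_emod, h4, hm3]; norm_num)
      push_cast at this
      exact this
  · have h0 : LocC ℚ_[3] (-9 * m) (16 * m) 0 3 1 := by
      refine locC_int (x := 3) (by norm_num) (by omega) (by omega) ?_ ?_ (by norm_num)
        one_ne_zero ?_
      · have e : (((3 + 9 * m) * 3 : ℤ) : ℚ_[3]) = 3 * 3 * ((1 + 3 * m : ℤ) : ℚ_[3]) := by
          push_cast; ring
        rw [e]
        exact (IsSquare.mul_self _).mul (sq3_of (by omega))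
      · exact sq3_of (by omega)
      · exact ⟨3, by norm_num⟩
    have q2 : IsSquare (((1 : ℤ) : ℚ_[3]) * d2) := by rwa [Int.cast_one, one_mul]
    rcases (by omega : k % 3 = 1 ∨ k % 3 = 2) with h4 | h4
    · refine locC_congr15 (by norm_num) one_ne_zero h0 ?_ q2
      have e : ((3 : ℤ) : ℚ_[3]) * ((3 * k : ℤ) : ℚ_[3]) = 3 * 3 * (k : ℚ_[3]) := by
        push_cast; ring
      rw [e]
      exact (IsSquare.mul_self _).mul (sq3_of h4)
    · refine locC_congr15 (mul_ne_zero hm0 (by norm_num)) one_ne_zero (locC_Tu hm0 h0) ?_ q2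
      have e : ((m * 3 : ℤ) : ℚ_[3]) * ((3 * k : ℤ) : ℚ_[3]) = 3 * 3 * ((m * k : ℤ) : ℚ_[3]) := by
        push_cast; ring
      rw [e]
      exact (IsSquare.mul_self _).mul (sq3_of (by rw [Int.mul_emod, h4, hm3]; norm_num))

/-- **The prime `5`, nonsplit.** -/
theorem locC_5n {m d1 d2 : ℤ} (hm5 : m % 5 = 2 ∨ m % 5 = 3) (h1 : ¬ (5 : ℤ) ∣ d1)
    (h2 : ¬ (5 : ℤ) ∣ d2) : LocC ℚ_[5] (-9 * m) (16 * m) 0 d1 d2 := by
  have hm0 : m ≠ 0 := by rintro rfl; norm_num at hm5
  have key : ∀ a b : ℤ, (a % 5 = 2 ∨ a % 5 = 3) → (b % 5 = 2 ∨ b % 5 = 3) →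
      IsSquare ((a : ℚ_[5]) * b) := by
    intro a b ha hb
    have h : (a * b) % 5 = 1 ∨ (a * b) % 5 = 4 := by
      rw [Int.mul_emod]
      rcases ha with ha | ha <;> rcases hb with hb | hb <;> rw [ha, hb] <;> norm_num
    have := sq5_of h
    push_cast at this
    exact this
  refine locC_tor hm0 (locC_one15 5 m) ?_ ?_
  · rcases (by omega : (d1 % 5 = 1 ∨ d1 % 5 = 4) ∨ (d1 % 5 = 2 ∨ d1 % 5 = 3)) with h | h
    · exact Or.inl (sq5_of h)
    · exact Or.inr (key _ _ h hm5)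
  · rcases (by omega : (d2 % 5 = 1 ∨ d2 % 5 = 4) ∨ (d2 % 5 = 2 ∨ d2 % 5 = 3)) with h | h
    · exact Or.inl (sq5_of h)
    · right
      have := key d2 (-m) h (by omega)
      push_cast at this
      exact this

/-- **The prime `5`, split.** -/
theorem locC_5s {m d1 d2 : ℤ} (hm5 : m % 5 = 1 ∨ m % 5 = 4) (hd1 : d1 ≠ 0)
    (h1 : ¬ (5 : ℤ) ∣ d1 ∨ ∃ k : ℤ, d1 = 5 * k ∧ ¬ (5 : ℤ) ∣ k)
    (h2 : IsSquare ((d1 : ℚ_[5]) * d2)) : LocC ℚ_[5] (-9 * m) (16 * m) 0 d1 d2 := by
  have hm0 : m ≠ 0 := by rintro rfl; norm_num at hm5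
  have hd1' : (d1 : ℚ_[5]) ≠ 0 := nzi hd1
  -- a class with equal coordinates
  have key : ∀ {a : ℤ}, a ≠ 0 → LocC ℚ_[5] (-9 * m) (16 * m) 0 a a →
      IsSquare ((a : ℚ_[5]) * d1) → LocC ℚ_[5] (-9 * m) (16 * m) 0 d1 d2 := by
    intro a ha h h3
    refine locC_congr15 ha ha h h3 ?_
    refine sq_of (h3.mul h2) hd1' ?_
    ring
  have sqs : ∀ a b : ℤ, (a % 5 = 2 ∨ a % 5 = 3) → (b % 5 = 2 ∨ b % 5 = 3) →
      IsSquare ((a * b : ℤ) : ℚ_[5]) := by
    intro a b ha hb
    refine sq5_of ?_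
    rw [Int.mul_emod]
    rcases ha with ha | ha <;> rcases hb with hb | hb <;> rw [ha, hb] <;> norm_num
  rcases h1 with h1 | ⟨k, rfl, hk⟩
  · rcases (by omega : (d1 % 5 = 1 ∨ d1 % 5 = 4) ∨ (d1 % 5 = 2 ∨ d1 % 5 = 3)) with h | h
    · refine key one_ne_zero (locC_one15 5 m) ?_
      rw [Int.cast_one, one_mul]
      exact sq5_of h
    · rcases hm5 with h5 | h5
      · refine key (a := 3) (by norm_num) ?_ (by
          have := sqs 3 d1 (by norm_num) h
          push_cast at this ⊢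
          exact this)
        refine locC_int (x := 3 - 9 * m) (by omega) (by omega) (by omega) ?_ ?_ (by norm_num)
          (by norm_num) ?_
        · exact sqs _ _ (by omega) (by norm_num)
        · exact sqs _ _ (by omega) (by norm_num)
        · have e : ((((3 - 9 * m) * 3 * 3 : ℤ)) : ℚ_[5]) = 3 * 3 * ((3 - 9 * m : ℤ) : ℚ_[5]) := by
            push_cast; ring
          rw [e]
          exact (IsSquare.mul_self _).mul (sq5_of (by omega))
      · refine key (a := 2) (by norm_num) ?_ (by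
          have := sqs 2 d1 (by norm_num) h
          push_cast at this ⊢
          exact this)
        refine locC_int (x := 2 - 9 * m) (by omega) (by omega) (by omega) ?_ ?_ (by norm_num)
          (by norm_num) ?_
        · exact sqs _ _ (by omega) (by norm_num)
        · exact sqs _ _ (by omega) (by norm_num)
        · have e : ((((2 - 9 * m) * 2 * 2 : ℤ)) : ℚ_[5]) = 2 * 2 * ((2 - 9 * m : ℤ) : ℚ_[5]) := by
            push_cast; ring
          rw [e]
          exact (IsSquare.mul_self _).mul (sq5_of (by omega))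
  · rcases (by omega : (k % 5 = 1 ∨ k % 5 = 4) ∨ (k % 5 = 2 ∨ k % 5 = 3)) with h | h
    · refine key (a := 5) (by norm_num) ?_ ?_
      · refine locC_int (x := 5 - 9 * m) (by omega) (by omega) (by omega) ?_ ?_ (by norm_num)
          (by norm_num) ?_
        · exact ⟨5, by push_cast; ring⟩
        · have e : ((((5 - 9 * m - 16 * m) * 5 : ℤ)) : ℚ_[5]) =
              5 * 5 * ((1 - 5 * m : ℤ) : ℚ_[5]) := by
            push_cast; ring
          rw [e]
          exact (IsSquare.mul_self _).mul (sq5_of (by omega))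
        · have e : ((((5 - 9 * m) * 5 * 5 : ℤ)) : ℚ_[5]) = 5 * 5 * ((5 - 9 * m : ℤ) : ℚ_[5]) := by
            push_cast; ring
          rw [e]
          exact (IsSquare.mul_self _).mul (sq5_of (by omega))
      · have e : ((5 : ℤ) : ℚ_[5]) * ((5 * k : ℤ) : ℚ_[5]) = 5 * 5 * (k : ℚ_[5]) := by
          push_cast; ring
        rw [e]
        exact (IsSquare.mul_self _).mul (sq5_of h)
    · refine key (a := 10) (by norm_num) ?_ ?_
      · refine locC_int (x := 10 - 9 * m) (by omega) (by omega) (by omega) ?_ ?_ (by norm_num)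
          (by norm_num) ?_
        · exact ⟨10, by push_cast; ring⟩
        · have e : ((((10 - 9 * m - 16 * m) * 10 : ℤ)) : ℚ_[5]) =
              5 * 5 * ((4 - 10 * m : ℤ) : ℚ_[5]) := by
            push_cast; ring
          rw [e]
          exact (IsSquare.mul_self _).mul (sq5_of (by omega))
        · have e : ((((10 - 9 * m) * 10 * 10 : ℤ)) : ℚ_[5]) =
              10 * 10 * ((10 - 9 * m : ℤ) : ℚ_[5]) := by
            push_cast; ring
          rw [e]
          exact (IsSquare.mul_self _).mul (sq5_of (by omega))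
      · have e : ((10 : ℤ) : ℚ_[5]) * ((5 * k : ℤ) : ℚ_[5]) = 5 * 5 * ((2 * k : ℤ) : ℚ_[5]) := by
          push_cast; ring
        rw [e]
        exact (IsSquare.mul_self _).mul (sq5_of (by omega))

end Pool.Agent.N875.D15
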