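import Pool.Agent.N875.D15.Lo1

/-!
# The converse of the local conditions, level 15: the prime `2`
-/

set_option autoImplicit false

open Finset

namespace Pool.Agent.N875.D15

open Pool.Agent.N875.X15
open Pool.Agent.N875.P17 (sq_of sq2 nz2 mod_mul hz oz hz_mul hz_neg)
open Pool.Agent.TH841.SH (LocC SelG)

/-- a square times a number congruent to `1` modulo `8` -/
lemma sqk {n z k : ℤ} (h : k % 8 = 1) (e : n = z * z * k) : IsSquare (n : ℚ_[2]) := by
  refine sq2 (z := (z : ℚ_[2])) h ?_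
  rw [e]
  push_cast
  ring

lemma sq8 {a : ℤ} (ha : a % 2 = 1) : (a * a) % 8 = 1 := by
  rcases (by omega : a % 8 = 1 ∨ a % 8 = 3 ∨ a % 8 = 5 ∨ a % 8 = 7) with h | h | h | h <;>
    rw [mod_mul h h] <;> norm_num

lemma congr8' {m a b d1 d2 : ℤ} (h : LocC ℚ_[2] (-9 * m) (16 * m) 0 a b) (h1 : (a * d1) % 8 = 1)
    (h2 : (b * d2) % 8 = 1) : LocC ℚ_[2] (-9 * m) (16 * m) 0 d1 d2 := by
  have ha : a ≠ 0 := by rintro rfl; rw [zero_mul] at h1; norm_num at h1
  have hb : b ≠ 0 := by rintro rfl; rw [zero_mul] at h2; norm_num at h2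
  refine locC_congr15 ha hb h ?_ ?_
  · have := sq_int h1
    push_cast at this
    exact this
  · have := sq_int h2
    push_cast at this
    exact this

/-- the class `(1, 5)` -/
lemma locC_15 {m : ℤ} (hm : m % 2 = 1) : LocC ℚ_[2] (-9 * m) (16 * m) 0 1 5 := by
  have h1 : (5 + 36 * m) % 8 = 1 := by omega
  have h2 : (5 - 64 * m) % 8 = 5 := by omega
  have n4 : (4 : ℚ_[2]) ≠ 0 := by norm_num
  have e1 : (5 : ℚ_[2]) / 4 + 9 * m = ((5 + 36 * m : ℤ) : ℚ_[2]) / 4 := by
    push_cast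
    field_simp
    ring
  have e2 : (5 : ℚ_[2]) / 4 - 16 * m = ((5 - 64 * m : ℤ) : ℚ_[2]) / 4 := by
    push_cast
    field_simp
    ring
  refine locC_mk15 (x := (5 : ℚ_[2]) / 4) (div_ne_zero (by norm_num) n4) ?_ ?_ ?_ ?_ ?_
  · rw [e1]
    exact div_ne_zero (nz2 (by omega)) n4
  · rw [e2]
    exact div_ne_zero (nz2 (by omega)) n4
  · rw [e1, e2]
    have h3 : (5 * (5 + 36 * m) * (5 - 64 * m)) % 8 = 1 := by
      rw [mod_mul (mod_mul (by norm_num : (5 : ℤ) % 8 = 5) h1) h2]
      norm_num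
    refine sq2 (z := 1 / 8) h3 ?_
    push_cast
    ring
  · rw [e1]
    refine sq2 (z := 1 / 2) h1 ?_
    push_cast
    ring
  · rw [e2]
    refine sq2 (z := 1 / 2) (n := (5 - 64 * m) * 5) ?_ ?_
    · rw [mod_mul h2 (by norm_num : (5 : ℤ) % 8 = 5)]
      norm_num
    · push_cast
      ring

/-- an integral point -/
lemma locC_pt15 {m w U s g : ℤ} (hg : g = 1 ∨ g = 2) (hs : s ≠ 0) (hx : g * w + 9 * m = s ^ 2)
    (hw : (w * U) % 8 = 1) : LocC ℚ_[2] (-9 * m) (16 * m) 0 1 (g * U) := by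
  have hw2 : w % 2 = 1 := by
    by_contra h
    obtain ⟨k, hk⟩ : ∃ k, w = 2 * k := ⟨w / 2, by omega⟩
    rw [hk, mul_assoc] at hw
    omega
  have hU0 : U ≠ 0 := by rintro rfl; rw [mul_zero] at hw; norm_num at hw
  have hg0 : g ≠ 0 := by rcases hg with rfl | rfl <;> norm_num
  obtain ⟨k, hk⟩ : ∃ k : ℤ, 16 = g * (8 * k) := by
    rcases hg with rfl | rfl
    · exact ⟨2, by norm_num⟩
    · exact ⟨1, by norm_num⟩
  have e1 : g * w - 16 * m = g * (w - 8 * (k * m)) := by
    linear_combination -m * hk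
  have hw' : (w - 8 * (k * m)) % 8 = w % 8 := by omega
  have h8 : ((w - 8 * (k * m)) * U) % 8 = 1 := by
    rw [Int.mul_emod, hw', ← Int.mul_emod]
    exact hw
  refine locC_int (x := g * w) (mul_ne_zero hg0 (by omega)) ?_ ?_ ?_ ?_ one_ne_zero
    (mul_ne_zero hg0 hU0) ?_
  · rw [hx]
    exact pow_ne_zero 2 hs
  · rw [e1]
    exact mul_ne_zero hg0 (by omega)
  · rw [hx]
    exact sqk (z := s) (k := 1) (by norm_num) (by ring)
  · rw [e1]
    exact sqk (z := g) h8 (by ring)
  · exact sqk (z := g) hw (by ring)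

/-- `m ≡ 1 mod 4` -/
theorem locC_two15 {m d1 d2 : ℤ} (h4 : m % 4 = 1) (h1 : d1 % 4 = 1) (h2 : d2 % 2 = 1) :
    LocC ℚ_[2] (-9 * m) (16 * m) 0 d1 d2 := by
  have hm : m ≠ 0 := by rintro rfl; norm_num at h4
  have t0 := locC_one15 2 m
  have t5 := locC_15 (m := m) (by omega)
  -- the first coordinate is one
  have key : ∃ b : ℤ, LocC ℚ_[2] (-9 * m) (16 * m) 0 1 b ∧ b % 8 = d2 % 8 := by
    rcases (by omega : m % 8 = 1 ∨ m % 8 = 5) with h | h <;>
      rcases (by omega : d2 % 8 = 1 ∨ d2 % 8 = 3 ∨ d2 % 8 = 5 ∨ d2 % 8 = 7) with k | k | k | k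
    · exact ⟨1, t0, by rw [k]; norm_num⟩
    · exact ⟨-m * 5, locC_Tv hm t5, by omega⟩
    · exact ⟨5, t5, by rw [k]; norm_num⟩
    · exact ⟨-m * 1, locC_Tv hm t0, by omega⟩
    · exact ⟨1, t0, by rw [k]; norm_num⟩
    · exact ⟨-m * 1, locC_Tv hm t0, by omega⟩
    · exact ⟨5, t5, by rw [k]; norm_num⟩
    · exact ⟨-m * 5, locC_Tv hm t5, by omega⟩
  obtain ⟨b, hb, hb8⟩ := key
  have hbd : (b * d2) % 8 = 1 := by
    rw [Int.mul_emod, hb8, ← Int.mul_emod]
    exact sq8 h2
  rcases (by omega : d1 % 8 = 1 ∨ d1 % 8 = 5) with k1 | k1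
  · exact congr8' hb (by rw [one_mul]; exact k1) hbd
  · rcases (by omega : m % 8 = 1 ∨ m % 8 = 5) with h | h
    · -- the point `x = 4 (d2 + 4)`
      have h5 : LocC ℚ_[2] (-9 * m) (16 * m) 0 5 d2 := by
        refine locC_int (x := 4 * (d2 + 4)) (by omega) (by omega) (by omega) ?_ ?_ (by norm_num)
          (by omega) ?_
        · exact sq_int (by omega)
        · refine sqk (z := 2) (k := (d2 + 4 - 4 * m) * d2) ?_ (by ring)
          have e : (d2 + 4 - 4 * m) % 8 = d2 % 8 := by omega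
          rw [Int.mul_emod, e, ← Int.mul_emod]
          exact sq8 h2
        · refine sqk (z := 2) (k := (5 * (d2 + 4)) * d2) ?_ (by ring)
          have e : (5 * (d2 + 4)) % 8 = d2 % 8 := by omega
          rw [Int.mul_emod, e, ← Int.mul_emod]
          exact sq8 h2
      exact congr8' h5 (by omega) (sq8 h2)
    · refine congr8' (locC_Tu hm hb) ?_ hbd
      rw [mul_one, mod_mul h k1]
      norm_num

/-- the odd classes -/
lemma locC_odd15 {c o U : ℤ} (hc : c = -1 ∨ c = 2 ∨ c = -2) (ho : o % 4 = 1)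
    (hU : U % 2 = 1) (h : hz c U = 0) :
    LocC ℚ_[2] (-9 * (c * o)) (16 * (c * o)) 0 1 U := by
  have h0 : U % 8 = 1 → LocC ℚ_[2] (-9 * (c * o)) (16 * (c * o)) 0 1 U := fun hu8 =>
    congr8' (locC_one15 2 (c * o)) (by norm_num) (by rw [one_mul]; exact hu8)
  have z1 : ¬ ((1 : ZMod 2) = 0) := by decide
  unfold hz at h
  rcases hc with rfl | rfl | rfl
  · rw [if_pos rfl] at h
    have h4 : U % 4 = 1 := by
      by_contra hcon
      rw [if_neg hcon] at h
      exact z1 h
    rcases (by omega : U % 8 = 1 ∨ U % 8 = 5) with h8 | h8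
    · exact h0 h8
    · exact congr8' (locC_15 (by omega)) (by norm_num) (by omega)
  · rw [if_neg (by norm_num), if_pos rfl] at h
    have h4 : U % 8 = 1 ∨ U % 8 = 7 := by
      by_contra hcon
      rw [if_neg hcon] at h
      exact z1 h
    rcases h4 with h8 | h8
    · exact h0 h8
    · have := locC_pt15 (m := 2 * o) (w := 1 - 18 * o) (U := U) (s := 1) (g := 1) (Or.inl rfl)
        (by norm_num) (by ring) (by
          rw [mod_mul (by omega : (1 - 18 * o) % 8 = 7) h8]
          norm_num)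
      rwa [one_mul] at this
  · rw [if_neg (by norm_num), if_neg (by norm_num)] at h
    have h4 : U % 8 = 1 ∨ U % 8 = 3 := by
      by_contra hcon
      rw [if_neg hcon] at h
      exact z1 h
    rcases h4 with h8 | h8
    · exact h0 h8
    · have := locC_pt15 (m := -2 * o) (w := 1 + 18 * o) (U := U) (s := 1) (g := 1) (Or.inl rfl)
        (by norm_num) (by ring) (by
          rw [mod_mul (by omega : (1 + 18 * o) % 8 = 3) h8]
          norm_num)
      rwa [one_mul] at this

/-- the even classes -/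
lemma locC_even15 {c o U : ℤ} (hc : c = -1 ∨ c = 2 ∨ c = -2) (ho : o % 4 = 1)
    (hU : U % 2 = 1) (h : hz c U + oz o = 0) :
    LocC ℚ_[2] (-9 * (c * o)) (16 * (c * o)) 0 1 (2 * U) := by
  have z1 : ¬ ((1 : ZMod 2) = 0) := by decide
  unfold hz oz at h
  rcases hc with rfl | rfl | rfl
  · rw [if_pos rfl] at h
    obtain ⟨w, hw⟩ : ∃ w, 1 + 9 * o = 2 * w := ⟨(1 + 9 * o) / 2, by omega⟩
    have hwu : (w * U) % 8 = 1 ∨ ((w + 4) * U) % 8 = 1 := by
      have h3 : (o % 8 = 1 ∧ U % 4 = 1) ∨ (o % 8 = 5 ∧ U % 4 = 3) := by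
        by_cases h5 : o % 8 = 1
        · left
          refine ⟨h5, ?_⟩
          by_contra hcon
          rw [if_pos h5, if_neg hcon, add_zero] at h
          exact z1 h
        · right
          refine ⟨by omega, ?_⟩
          by_contra hcon
          rw [if_neg h5, if_pos (by omega), zero_add] at h
          exact z1 h
      rcases h3 with ⟨h5, h6⟩ | ⟨h5, h6⟩
      · rcases (by omega : w % 8 = 1 ∨ w % 8 = 5) with a | a <;>
          rcases (by omega : U % 8 = 1 ∨ U % 8 = 5) with b | b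
        · left; rw [mod_mul a b]; norm_num
        · right; rw [mod_mul (by omega : (w + 4) % 8 = 5) b]; norm_num
        · right; rw [mod_mul (by omega : (w + 4) % 8 = 1) b]; norm_num
        · left; rw [mod_mul a b]; norm_num
      · rcases (by omega : w % 8 = 3 ∨ w % 8 = 7) with a | a <;>
          rcases (by omega : U % 8 = 3 ∨ U % 8 = 7) with b | b
        · left; rw [mod_mul a b]; norm_num
        · right; rw [mod_mul (by omega : (w + 4) % 8 = 7) b]; norm_num
        · right; rw [mod_mul (by omega : (w + 4) % 8 = 3) b]; norm_num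
        · left; rw [mod_mul a b]; norm_num
    rcases hwu with hwu | hwu
    · exact locC_pt15 (m := -1 * o) (w := w) (U := U) (s := 1) (g := 2) (Or.inr rfl)
        (by norm_num) (by linear_combination -hw) hwu
    · exact locC_pt15 (m := -1 * o) (w := w + 4) (U := U) (s := 3) (g := 2) (Or.inr rfl)
        (by norm_num) (by linear_combination -hw) hwu
  · rw [if_neg (by norm_num), if_pos rfl] at h
    have p4 : ((2 - 9 * o) * U) % 8 = 1 →
        LocC ℚ_[2] (-9 * (2 * o)) (16 * (2 * o)) 0 1 (2 * U) :=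
      fun hwu => locC_pt15 (m := 2 * o) (w := 2 - 9 * o) (U := U) (s := 2) (g := 2) (Or.inr rfl)
        (by norm_num) (by ring) hwu
    have p16 : ((8 - 9 * o) * U) % 8 = 1 →
        LocC ℚ_[2] (-9 * (2 * o)) (16 * (2 * o)) 0 1 (2 * U) :=
      fun hwu => locC_pt15 (m := 2 * o) (w := 8 - 9 * o) (U := U) (s := 4) (g := 2) (Or.inr rfl)
        (by norm_num) (by ring) hwu
    by_cases h5 : o % 8 = 1
    · rw [if_pos h5, add_zero] at h
      have h4 : U % 8 = 1 ∨ U % 8 = 7 := by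
        by_contra hcon
        rw [if_neg hcon] at h
        exact z1 h
      rcases h4 with h8 | h8
      · exact p4 (by rw [mod_mul (by omega : (2 - 9 * o) % 8 = 1) h8]; norm_num)
      · exact p16 (by rw [mod_mul (by omega : (8 - 9 * o) % 8 = 7) h8]; norm_num)
    · rw [if_neg h5] at h
      have h4 : U % 8 = 3 ∨ U % 8 = 5 := by
        by_contra hcon
        rw [if_pos (by omega), zero_add] at h
        exact z1 h
      rcases h4 with h8 | h8
      · exact p16 (by rw [mod_mul (by omega : (8 - 9 * o) % 8 = 3) h8]; norm_num)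
      · exact p4 (by rw [mod_mul (by omega : (2 - 9 * o) % 8 = 5) h8]; norm_num)
  · rw [if_neg (by norm_num), if_neg (by norm_num)] at h
    have p4 : ((2 + 9 * o) * U) % 8 = 1 →
        LocC ℚ_[2] (-9 * (-2 * o)) (16 * (-2 * o)) 0 1 (2 * U) :=
      fun hwu => locC_pt15 (m := -2 * o) (w := 2 + 9 * o) (U := U) (s := 2) (g := 2) (Or.inr rfl)
        (by norm_num) (by ring) hwu
    have p16 : ((8 + 9 * o) * U) % 8 = 1 →
        LocC ℚ_[2] (-9 * (-2 * o)) (16 * (-2 * o)) 0 1 (2 * U) :=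
      fun hwu => locC_pt15 (m := -2 * o) (w := 8 + 9 * o) (U := U) (s := 4) (g := 2) (Or.inr rfl)
        (by norm_num) (by ring) hwu
    by_cases h5 : o % 8 = 1
    · rw [if_pos h5, add_zero] at h
      have h4 : U % 8 = 1 ∨ U % 8 = 3 := by
        by_contra hcon
        rw [if_neg hcon] at h
        exact z1 h
      rcases h4 with h8 | h8
      · exact p16 (by rw [mod_mul (by omega : (8 + 9 * o) % 8 = 1) h8]; norm_num)
      · exact p4 (by rw [mod_mul (by omega : (2 + 9 * o) % 8 = 3) h8]; norm_num)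
    · rw [if_neg h5] at h
      have h4 : U % 8 = 5 ∨ U % 8 = 7 := by
        by_contra hcon
        rw [if_pos (by omega), zero_add] at h
        exact z1 h
      rcases h4 with h8 | h8
      · exact p16 (by rw [mod_mul (by omega : (8 + 9 * o) % 8 = 5) h8]; norm_num)
      · exact p4 (by rw [mod_mul (by omega : (2 + 9 * o) % 8 = 7) h8]; norm_num)

/-- **The prime `2`, ramified case.** -/
theorem locC_ram15 {m c o d1 d2 U : ℤ} (hm : m = c * o) (hc : c = -1 ∨ c = 2 ∨ c = -2)
    (ho : o % 4 = 1) (hU : U % 2 = 1)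
    (h1 : IsSquare (d1 : ℚ_[2]) ∨ IsSquare ((d1 : ℚ_[2]) * m))
    (h2 : (d2 = U ∧ hz c U = 0) ∨ (d2 = 2 * U ∧ hz c U + oz o = 0)) :
    LocC ℚ_[2] (-9 * m) (16 * m) 0 d1 d2 := by
  subst hm
  have hm0 : c * o ≠ 0 := by
    refine mul_ne_zero ?_ ?_
    · rcases hc with rfl | rfl | rfl <;> norm_num
    · rintro rfl
      norm_num at ho
  have hU0 : U ≠ 0 := by rintro rfl; norm_num at hU
  have base : LocC ℚ_[2] (-9 * (c * o)) (16 * (c * o)) 0 1 d2 ∧ d2 ≠ 0 := by
    rcases h2 with ⟨rfl, h⟩ | ⟨rfl, h⟩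
    · exact ⟨locC_odd15 hc ho hU h, hU0⟩
    · exact ⟨locC_even15 hc ho hU h, mul_ne_zero two_ne_zero hU0⟩
  obtain ⟨hb, hd2⟩ := base
  rcases h1 with h1 | h1
  · refine locC_congr15 one_ne_zero hd2 hb ?_ (IsSquare.mul_self _)
    rwa [Int.cast_one, one_mul]
  · refine locC_congr15 (mul_ne_zero hm0 one_ne_zero) hd2 (locC_Tu hm0 hb) ?_
      (IsSquare.mul_self _)
    rw [mul_one, mul_comm]
    exact h1

end Pool.Agent.N875.D15
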