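import Pool.Agent.N875.P17.Sel
import Pool.Agent.N809.PQ.Def

/-!
# The local conditions of the 2-descent for `y² = x (x + 9 m) (x - 16 m)`, coordinates
`u = x + 9 m`, `v = x - 16 m`
-/

set_option autoImplicit false

namespace Pool.Agent.N875.D15

open Pool.Agent.N875.X15
open Pool.Agent.N875.P17 (sq_of)
open Pool.Agent.TH841.SH (LocC SelG)
open Pool.Agent.Y667.RP (mod_of_sq)

instance f5 : Fact (Nat.Prime 5) := ⟨by norm_num⟩

/-- the local condition in terms of `x` -/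
lemma locC_iff15 {K : Type} [Field K] [CharZero K] {m d1 d2 : ℤ}
    (h : LocC K (-9 * m) (16 * m) 0 d1 d2) :
    ∃ x : K, x ≠ 0 ∧ x + 9 * m ≠ 0 ∧ x - 16 * m ≠ 0 ∧
      IsSquare (x * (x + 9 * m) * (x - 16 * m)) ∧ IsSquare ((x + 9 * m) * d1) ∧
      IsSquare ((x - 16 * m) * d2) := by
  obtain ⟨x, y, hy, hxy, h1, h2⟩ := h
  push_cast at hxy h1 h2
  have e1 : x - 0 = x := sub_zero x
  have e2 : x - -9 * (m : K) = x + 9 * m := by ring
  rw [e1, e2] at hxy
  rw [e2] at h1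
  have h0 : (x + 9 * m) * (x - 16 * m) * x ≠ 0 := by rw [← hxy]; exact pow_ne_zero 2 hy
  refine ⟨x, right_ne_zero_of_mul h0, left_ne_zero_of_mul (left_ne_zero_of_mul h0),
    right_ne_zero_of_mul (left_ne_zero_of_mul h0), ⟨y, ?_⟩, h1, h2⟩
  rw [← pow_two, hxy]
  ring

/-- a point gives the local condition -/
lemma locC_mk15 {K : Type} [Field K] [CharZero K] {m d1 d2 : ℤ} {x : K} (hx : x ≠ 0)
    (hu : x + 9 * m ≠ 0) (hv : x - 16 * m ≠ 0)
    (hs : IsSquare (x * (x + 9 * m) * (x - 16 * m))) (h1 : IsSquare ((x + 9 * m) * d1))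
    (h2 : IsSquare ((x - 16 * m) * d2)) : LocC K (-9 * m) (16 * m) 0 d1 d2 := by
  obtain ⟨y, hy⟩ := hs
  have hy0 : y ≠ 0 := by
    rintro rfl
    rw [mul_zero] at hy
    exact mul_ne_zero (mul_ne_zero hx hu) hv hy
  have e2 : x - -9 * (m : K) = x + 9 * m := by ring
  refine ⟨x, y, hy0, ?_, ?_, ?_⟩
  · rw [pow_two, ← hy]
    push_cast
    ring
  · push_cast
    rwa [e2]
  · push_cast
    exact h2

/-- change of the coordinates -/
lemma locC_swap {K : Type} [Field K] [CharZero K] {m d1 d2 : ℤ}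
    (h : LocC K (-9 * m) (16 * m) 0 d1 d2) : LocC K 0 (-9 * m) (16 * m) (d1 * d2) d1 := by
  obtain ⟨x, y, hy, hxy, h1, h2⟩ := h
  push_cast at hxy h1 h2
  obtain ⟨r, hr⟩ := h1
  obtain ⟨s, hs⟩ := h2
  have h0 : (x - -9 * m) * (x - 16 * m) * (x - 0) ≠ 0 := by
    rw [← hxy]; exact pow_ne_zero 2 hy
  have n1 : x - -9 * (m : K) ≠ 0 := left_ne_zero_of_mul (left_ne_zero_of_mul h0)
  have n2 : x - 16 * (m : K) ≠ 0 := right_ne_zero_of_mul (left_ne_zero_of_mul h0)
  refine ⟨x, y, hy, ?_, ?_, ?_⟩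
  · push_cast
    rw [hxy]
    ring
  · push_cast
    refine ⟨y * r * s / ((x - -9 * m) * (x - 16 * m)), ?_⟩
    have e : y * r * s / ((x - -9 * m) * (x - 16 * m)) * (y * r * s / ((x - -9 * m) * (x - 16 * m)))
        = y ^ 2 * (r * r) * (s * s) / ((x - -9 * m) * (x - 16 * m)) ^ 2 := by
      field_simp
    rw [e, hxy, ← hr, ← hs, eq_div_iff (pow_ne_zero 2 (mul_ne_zero n1 n2))]
    ring
  · push_cast
    exact ⟨r, hr⟩

section odd

variable {p : ℕ} [hp : Fact p.Prime]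

/-- **The local condition at the odd primes dividing `m`.** -/
theorem loc_dvd15 (hp2 : p ≠ 2) {m d1 d2 : ℤ} (hm : Squarefree m) (hpm : (p : ℤ) ∣ m)
    (hd1 : d1 ≠ 0) (h : LocC ℚ_[p] (-9 * m) (16 * m) 0 d1 d2) :
    (IsSquare (d1 : ℚ_[p]) ∨ IsSquare ((d1 : ℚ_[p]) * m)) ∧
      (IsSquare (d2 : ℚ_[p]) ∨ IsSquare ((d2 : ℚ_[p]) * (-m))) := by
  have hd1' : (d1 : ℚ_[p]) ≠ 0 := by exact_mod_cast hd1
  have hm' : (m : ℚ_[p]) ≠ 0 := by exact_mod_cast hm.ne_zero
  have h1 := loc_dvd hp2 hm hpm (locC_swap h)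
  push_cast at h1
  rcases h1 with ⟨a, b⟩ | ⟨a, b⟩ | ⟨a, b⟩ | ⟨a, b⟩
  · exact ⟨Or.inl b, Or.inl (sq_cancel hd1' b a)⟩
  · refine ⟨Or.inr b, Or.inr ?_⟩
    refine sq_of (a.mul b) hd1' ?_
    ring
  · refine ⟨Or.inl b, Or.inr ?_⟩
    refine sq_cancel hd1' b ?_
    rwa [← mul_assoc]
  · refine ⟨Or.inr b, Or.inl ?_⟩
    refine sq_of (a.mul b) (mul_ne_zero hd1' hm') ?_
    ring

lemma nd16 (hp2 : p ≠ 2) : ¬ (p : ℤ) ∣ 16 := fun h => by
  have e : (16 : ℤ) = ((2 : ℕ) : ℤ) ^ 4 := by norm_num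
  rw [e] at h
  exact not_dvd_of_prime Nat.prime_two hp2
    ((Nat.prime_iff_prime_int.1 hp.out).dvd_of_dvd_pow h)

lemma nd9 (hp3 : p ≠ 3) : ¬ (p : ℤ) ∣ 9 := fun h => by
  have e : (9 : ℤ) = ((3 : ℕ) : ℤ) ^ 2 := by norm_num
  rw [e] at h
  exact not_dvd_of_prime (by norm_num) hp3
    ((Nat.prime_iff_prime_int.1 hp.out).dvd_of_dvd_pow h)

lemma nd25 (hp5 : p ≠ 5) : ¬ (p : ℤ) ∣ 25 := fun h => by
  have e : (25 : ℤ) = ((5 : ℕ) : ℤ) ^ 2 := by norm_num
  rw [e] at h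
  exact not_dvd_of_prime (by norm_num) hp5
    ((Nat.prime_iff_prime_int.1 hp.out).dvd_of_dvd_pow h)

lemma vneg (x : ℚ_[p]) : (-x).valuation = x.valuation := Pool.Agent.N875.P17.val_neg x

lemma v16' (hp2 : p ≠ 2) {m : ℤ} (hm : m ≠ 0) :
    (16 * (m : ℚ_[p])).valuation = (m : ℚ_[p]).valuation := by
  have := val_mul_unit (p := p) (n := m) 16 (nd16 hp2) hm
  push_cast at this
  exact this

lemma v9' (hp3 : p ≠ 3) {m : ℤ} (hm : m ≠ 0) :
    (9 * (m : ℚ_[p])).valuation = (m : ℚ_[p]).valuation := by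
  have := val_mul_unit (p := p) (n := m) 9 (nd9 hp3) hm
  push_cast at this
  exact this

lemma v25' (hp5 : p ≠ 5) {m : ℤ} (hm : m ≠ 0) :
    (25 * (m : ℚ_[p])).valuation = (m : ℚ_[p]).valuation := by
  have := val_mul_unit (p := p) (n := m) 25 (nd25 hp5) hm
  push_cast at this
  exact this

/-- **The good odd primes.** -/
theorem loc_good15 (hp2 : p ≠ 2) (hp3 : p ≠ 3) (hp5 : p ≠ 5) {m d1 d2 : ℤ} (hm0 : m ≠ 0)
    (hpm : ¬ (p : ℤ) ∣ m) (hd1 : Squarefree d1) (hd2 : Squarefree d2)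
    (h : LocC ℚ_[p] (-9 * m) (16 * m) 0 d1 d2) : ¬ (p : ℤ) ∣ d1 ∧ ¬ (p : ℤ) ∣ d2 := by
  obtain ⟨u, hu, hv, hw, hs, h1, h2⟩ := locC_iff15 h
  have hm' : (m : ℚ_[p]) ≠ 0 := by exact_mod_cast hm0
  have vm := val_zero hpm
  have v16 := v16' hp2 hm0
  have v9 := v9' hp3 hm0
  have v25 := v25' hp5 hm0
  rw [vm] at v16 v9 v25
  have E1 : u + 9 * (m : ℚ_[p]) - u = 9 * m := by ring
  have E2 : u - 16 * (m : ℚ_[p]) - u = -(16 * m) := by ring
  have E3 : u - 16 * (m : ℚ_[p]) - (u + 9 * m) = -(25 * m) := by ring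
  have n9 : (9 * (m : ℚ_[p])) ≠ 0 := mul_ne_zero (by norm_num) hm'
  have n16 : (16 * (m : ℚ_[p])) ≠ 0 := mul_ne_zero (by norm_num) hm'
  have n25 : (25 * (m : ℚ_[p])) ≠ 0 := mul_ne_zero (by norm_num) hm'
  have := loc_unr hp2 (u := u) (v := u + 9 * m) (w := u - 16 * m) hu hv hw hs
    (by rw [E1]; exact n9) (by rw [E2]; exact neg_ne_zero.2 n16)
    (by rw [E3]; exact neg_ne_zero.2 n25) (l := 0) (k := 0) (by rw [E1, v9])
    (by rw [E2, vneg, v16]) (by rw [E3, vneg, v25]) (by norm_num) (by decide) (by decide)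
    (fun h => absurd h (by norm_num))
  exact ⟨not_dvd_of_even hv this.2.1 hd1 h1, not_dvd_of_even hw this.2.2 hd2 h2⟩

end odd

lemma zmod3_of {k m : ℤ} (h : ((m : ℤ) : ZMod 3) = (k : ZMod 3)) : (3 : ℤ) ∣ m - k := by
  have : ((m - k : ℤ) : ZMod 3) = 0 := by
    push_cast
    rw [h, sub_self]
  exact_mod_cast (ZMod.intCast_zmod_eq_zero_iff_dvd (m - k) 3).1 this

lemma zmod5_of {k m : ℤ} (h : ((m : ℤ) : ZMod 5) = (k : ZMod 5)) : (5 : ℤ) ∣ m - k := by
  have : ((m - k : ℤ) : ZMod 5) = 0 := by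
    push_cast
    rw [h, sub_self]
  exact_mod_cast (ZMod.intCast_zmod_eq_zero_iff_dvd (m - k) 5).1 this

/-- **The prime `3`, nonsplit.** -/
theorem loc_3n {m d1 d2 : ℤ} (hm3 : m % 3 = 1) (hd1 : Squarefree d1) (hd2 : Squarefree d2)
    (h : LocC ℚ_[3] (-9 * m) (16 * m) 0 d1 d2) : ¬ (3 : ℤ) ∣ d1 ∧ ¬ (3 : ℤ) ∣ d2 := by
  obtain ⟨u, hu, hv, hw, hs, h1, h2⟩ := locC_iff15 h
  have hm0 : m ≠ 0 := by rintro rfl; norm_num at hm3
  have hm' : (m : ℚ_[3]) ≠ 0 := by exact_mod_cast hm0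
  have hpm : ¬ ((3 : ℕ) : ℤ) ∣ m := by push_cast; omega
  have vm := val_zero (p := 3) hpm
  have v16 := v16' (p := 3) (by norm_num) hm0
  have v25 := v25' (p := 3) (by norm_num) hm0
  rw [vm] at v16 v25
  have E1 : u + 9 * (m : ℚ_[3]) - u = 9 * m := by ring
  have E2 : u - 16 * (m : ℚ_[3]) - u = -(16 * m) := by ring
  have E3 : u - 16 * (m : ℚ_[3]) - (u + 9 * m) = -(25 * m) := by ring
  have n9 : (9 * (m : ℚ_[3])) ≠ 0 := mul_ne_zero (by norm_num) hm'
  have n16 : (16 * (m : ℚ_[3])) ≠ 0 := mul_ne_zero (by norm_num) hm'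
  have n25 : (25 * (m : ℚ_[3])) ≠ 0 := mul_ne_zero (by norm_num) hm'
  have v9 : (9 * (m : ℚ_[3])).valuation = 2 := by
    have e : (9 : ℚ_[3]) = ((3 : ℕ) : ℚ_[3]) ^ 2 := by norm_num
    rw [Padic.valuation_mul (by norm_num) hm', vm, e, Padic.valuation_pow, val_p]
    norm_num
  have := loc_unr (by norm_num) (u := u) (v := u + 9 * m) (w := u - 16 * m) hu hv hw hs
    (by rw [E1]; exact n9) (by rw [E2]; exact neg_ne_zero.2 n16)
    (by rw [E3]; exact neg_ne_zero.2 n25) (l := 2) (k := 0) (by rw [E1, v9])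
    (by rw [E2, vneg, v16]) (by rw [E3, vneg, v25]) (by norm_num) (by decide) (by decide)
    (fun _ hsq => by
      rw [E2] at hsq
      have e : -(16 * (m : ℚ_[3])) = 16 * (-m) := by ring
      rw [e] at hsq
      have hsq' : IsSquare (((-m : ℤ) : ℤ) : ℚ_[3]) := by
        push_cast
        exact sq_cancel (by norm_num) sq4 hsq
      have h7 := zmod_of_sq hsq'
      rcases sq_mod3 _ h7 with h | h
      · have := zmod3_of (k := 0) (m := -m) (by simpa using h)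
        omega
      · have := zmod3_of (k := 1) (m := -m) (by simpa using h)
        omega)
  exact ⟨by exact_mod_cast not_dvd_of_even hv this.2.1 hd1 h1,
    by exact_mod_cast not_dvd_of_even hw this.2.2 hd2 h2⟩

/-- **The prime `3`, split.** -/
theorem loc_3s {m d1 d2 : ℤ} (hm3 : m % 3 = 2) (h : LocC ℚ_[3] (-9 * m) (16 * m) 0 d1 d2) :
    IsSquare (d2 : ℚ_[3]) := by
  obtain ⟨u, hu, hv, hw, hs, h1, h2⟩ := locC_iff15 h
  have hm0 : m ≠ 0 := by rintro rfl; norm_num at hm3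
  have hm' : (m : ℚ_[3]) ≠ 0 := by exact_mod_cast hm0
  have hpm : ¬ ((3 : ℕ) : ℤ) ∣ m := by push_cast; omega
  have vm := val_zero (p := 3) hpm
  have v16 := v16' (p := 3) (by norm_num) hm0
  rw [vm] at v16
  have n9 : (9 * (m : ℚ_[3])) ≠ 0 := mul_ne_zero (by norm_num) hm'
  have n16 : -(16 * (m : ℚ_[3])) ≠ 0 := neg_ne_zero.2 (mul_ne_zero (by norm_num) hm')
  have v9 : (9 * (m : ℚ_[3])).valuation = 2 := by
    have e : (9 : ℚ_[3]) = ((3 : ℕ) : ℚ_[3]) ^ 2 := by norm_num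
    rw [Padic.valuation_mul (by norm_num) hm', vm, e, Padic.valuation_pow, val_p]
    norm_num
  have key : IsSquare (u - 16 * (m : ℚ_[3])) := by
    rcases lt_or_ge u.valuation 2 with c | c
    · have h3 := (closeV (by norm_num) hv hu (by rw [add_sub_cancel_left]; exact n9)
        (by rw [add_sub_cancel_left, v9]; exact c)).1
      refine sq_cancel (mul_ne_zero hv hu) h3 ?_
      have e : (u + 9 * (m : ℚ_[3])) * u * (u - 16 * m) = u * (u + 9 * m) * (u - 16 * m) := by ring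
      rwa [e]
    · have e0 : u - 16 * (m : ℚ_[3]) - -(16 * m) = u := by ring
      have h3 := (closeV (by norm_num) hw n16 (by rw [e0]; exact hu)
        (by rw [e0, vneg, v16]; omega)).1
      have h4 : IsSquare ((-m : ℤ) : ℚ_[3]) := sq_of_zmod (by norm_num)
        (by push_cast; omega) ⟨1, by
          have : ((-m - 1 : ℤ) : ZMod 3) = 0 := by
            rw [ZMod.intCast_zmod_eq_zero_iff_dvd]
            push_cast
            omega
          push_cast at this ⊢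
          linear_combination this⟩
      have h5 : IsSquare (-(16 * (m : ℚ_[3]))) := by
        have e : -(16 * (m : ℚ_[3])) = 16 * ((-m : ℤ) : ℚ_[3]) := by push_cast; ring
        rw [e]
        exact sq4.mul h4
      exact sq_cancel n16 h5 (by rwa [mul_comm])
  exact sq_cancel hw key h2

/-- **The prime `5`, nonsplit.** -/
theorem loc_5n {m d1 d2 : ℤ} (hm5 : m % 5 = 2 ∨ m % 5 = 3) (hd1 : Squarefree d1)
    (hd2 : Squarefree d2) (h : LocC ℚ_[5] (-9 * m) (16 * m) 0 d1 d2) :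
    ¬ (5 : ℤ) ∣ d1 ∧ ¬ (5 : ℤ) ∣ d2 := by
  obtain ⟨u, hu, hv, hw, hs, h1, h2⟩ := locC_iff15 h
  have hm0 : m ≠ 0 := by rintro rfl; norm_num at hm5
  have hm' : (m : ℚ_[5]) ≠ 0 := by exact_mod_cast hm0
  have hpm : ¬ ((5 : ℕ) : ℤ) ∣ m := by push_cast; omega
  have vm := val_zero (p := 5) hpm
  have v16 := v16' (p := 5) (by norm_num) hm0
  have v9 := v9' (p := 5) (by norm_num) hm0
  rw [vm] at v16 v9
  have E3 : u - 16 * (m : ℚ_[5]) - (u + 9 * m) = -(25 * m) := by ring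
  have E1' : u - (u + 9 * (m : ℚ_[5])) = -(9 * m) := by ring
  have E2' : u - (u - 16 * (m : ℚ_[5])) = 16 * m := by ring
  have n9 : (9 * (m : ℚ_[5])) ≠ 0 := mul_ne_zero (by norm_num) hm'
  have n16 : (16 * (m : ℚ_[5])) ≠ 0 := mul_ne_zero (by norm_num) hm'
  have n25 : (25 * (m : ℚ_[5])) ≠ 0 := mul_ne_zero (by norm_num) hm'
  have v25 : (25 * (m : ℚ_[5])).valuation = 2 := by
    have e : (25 : ℚ_[5]) = ((5 : ℕ) : ℚ_[5]) ^ 2 := by norm_num
    rw [Padic.valuation_mul (by norm_num) hm', vm, e, Padic.valuation_pow, val_p]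
    norm_num
  have hs' : IsSquare ((u + 9 * (m : ℚ_[5])) * (u - 16 * m) * u) := by
    have e : (u + 9 * (m : ℚ_[5])) * (u - 16 * m) * u = u * (u + 9 * m) * (u - 16 * m) := by
      ring
    rwa [e]
  have := loc_unr (by norm_num) (u := u + 9 * (m : ℚ_[5]))
    (v := u - 16 * (m : ℚ_[5])) (w := u) hv hw hu hs'
    (by rw [E3]; exact neg_ne_zero.2 n25) (by rw [E1']; exact neg_ne_zero.2 n9)
    (by rw [E2']; exact n16) (l := 2) (k := 0) (by rw [E3, vneg, v25])
    (by rw [E1', vneg, v9]) (by rw [E2', v16]) (by norm_num) (by decide) (by decide)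
    (fun _ hsq => by
      rw [E1'] at hsq
      have e : -(9 * (m : ℚ_[5])) = 9 * (-m) := by ring
      rw [e] at hsq
      have hsq' : IsSquare (((-m : ℤ) : ℤ) : ℚ_[5]) := by
        push_cast
        exact sq_cancel (by norm_num) sq3 hsq
      have h7 := zmod_of_sq hsq'
      rcases sq_mod5 _ h7 with h | h | h
      · have := zmod5_of (k := 0) (m := -m) (by simpa using h)
        omega
      · have := zmod5_of (k := 1) (m := -m) (by simpa using h)
        omega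
      · have := zmod5_of (k := 4) (m := -m) (by simpa using h)
        omega)
  exact ⟨by exact_mod_cast not_dvd_of_even hv this.1 hd1 h1,
    by exact_mod_cast not_dvd_of_even hw this.2.1 hd2 h2⟩

/-- **The prime `5`, split.** -/
theorem loc_5s {m d1 d2 : ℤ} (hm5 : m % 5 = 1 ∨ m % 5 = 4)
    (h : LocC ℚ_[5] (-9 * m) (16 * m) 0 d1 d2) : IsSquare ((d1 : ℚ_[5]) * d2) := by
  obtain ⟨u, hu, hv, hw, hs, h1, h2⟩ := locC_iff15 h
  have hm0 : m ≠ 0 := by rintro rfl; norm_num at hm5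
  have hm' : (m : ℚ_[5]) ≠ 0 := by exact_mod_cast hm0
  have hpm : ¬ ((5 : ℕ) : ℤ) ∣ m := by push_cast; omega
  have vm := val_zero (p := 5) hpm
  have v9 := v9' (p := 5) (by norm_num) hm0
  rw [vm] at v9
  have n9 : -(9 * (m : ℚ_[5])) ≠ 0 := neg_ne_zero.2 (mul_ne_zero (by norm_num) hm')
  have n25 : (25 * (m : ℚ_[5])) ≠ 0 := mul_ne_zero (by norm_num) hm'
  have v25 : (25 * (m : ℚ_[5])).valuation = 2 := by
    have e : (25 : ℚ_[5]) = ((5 : ℕ) : ℚ_[5]) ^ 2 := by norm_num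
    rw [Padic.valuation_mul (by norm_num) hm', vm, e, Padic.valuation_pow, val_p]
    norm_num
  have key : IsSquare ((u + 9 * (m : ℚ_[5])) * (u - 16 * m)) := by
    rcases lt_or_ge (u + 9 * (m : ℚ_[5])).valuation 2 with c | c
    · have e0 : u - 16 * (m : ℚ_[5]) - (u + 9 * m) = -(25 * m) := by ring
      have h3 := (closeV (by norm_num) hw hv (by rw [e0]; exact neg_ne_zero.2 n25)
        (by rw [e0, vneg, v25]; exact c)).1
      rwa [mul_comm]
    · have e0 : u - -(9 * (m : ℚ_[5])) = u + 9 * m := by ring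
      have h3 := (closeV (by norm_num) hu n9 (by rw [e0]; exact hv)
        (by rw [e0, vneg, v9]; omega)).1
      have h4 : IsSquare ((-m : ℤ) : ℚ_[5]) := by
        refine sq_of_zmod (by norm_num) (by push_cast; omega) ?_
        rcases hm5 with h | h
        · refine ⟨2, ?_⟩
          have : ((-m - 4 : ℤ) : ZMod 5) = 0 := by
            rw [ZMod.intCast_zmod_eq_zero_iff_dvd]
            push_cast
            omega
          push_cast at this ⊢
          linear_combination this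
        · refine ⟨1, ?_⟩
          have : ((-m - 1 : ℤ) : ZMod 5) = 0 := by
            rw [ZMod.intCast_zmod_eq_zero_iff_dvd]
            push_cast
            omega
          push_cast at this ⊢
          linear_combination this
      have h5 : IsSquare (-(9 * (m : ℚ_[5]))) := by
        have e : -(9 * (m : ℚ_[5])) = 9 * ((-m : ℤ) : ℚ_[5]) := by push_cast; ring
        rw [e]
        exact sq3.mul h4
      have h6 : IsSquare u := sq_cancel n9 h5 (by rwa [mul_comm])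
      refine sq_cancel hu h6 ?_
      rwa [← mul_assoc]
  refine sq_cancel (mul_ne_zero hv hw) key ?_
  have e : (u + 9 * (m : ℚ_[5])) * (u - 16 * m) * (d1 * d2) =
    ((u + 9 * m) * d1) * ((u - 16 * m) * d2) := by ring
  rw [e]
  exact h1.mul h2

/-- the signs -/
lemma loc_sign15 {m d1 d2 : ℤ} (hd1 : d1 ≠ 0) (hd2 : d2 ≠ 0)
    (h : LocC ℝ (-9 * m) (16 * m) 0 d1 d2) : (0 < m → 0 < d1) ∧ (m < 0 → 0 < d2) := by
  obtain ⟨u, hu, hv, hw, hs, h1, h2⟩ := locC_iff15 h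
  have k1 : 0 ≤ (u + 9 * m) * d1 := by
    obtain ⟨r, hr⟩ := h1
    rw [hr]
    exact mul_self_nonneg r
  have k2 : 0 ≤ (u - 16 * m) * d2 := by
    obtain ⟨r, hr⟩ := h2
    rw [hr]
    exact mul_self_nonneg r
  have k3 : 0 < u * (u + 9 * m) * (u - 16 * m) := by
    obtain ⟨r, hr⟩ := hs
    refine lt_of_le_of_ne ?_ (mul_ne_zero (mul_ne_zero hu hv) hw).symm
    rw [hr]
    exact mul_self_nonneg r
  have pos_of : ∀ {a : ℝ} {d : ℤ}, d ≠ 0 → 0 < a → 0 ≤ a * d → 0 < d := by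
    intro a d hd ha h0
    by_contra hcon
    have h3 : (d : ℝ) < 0 := by
      have : d < 0 := by omega
      exact_mod_cast this
    nlinarith
  constructor
  · intro hm
    have hm' : (0 : ℝ) < m := by exact_mod_cast hm
    refine pos_of hd1 ?_ k1
    by_contra hcon
    push Not at hcon
    have c4 : u < 0 := by linarith
    have c5 : u - 16 * m < 0 := by linarith
    have : 0 ≤ u * (u + 9 * m) := mul_nonneg_of_nonpos_of_nonpos c4.le hcon
    have : u * (u + 9 * m) * (u - 16 * m) ≤ 0 := mul_nonpos_of_nonneg_of_nonpos this c5.le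
    linarith
  · intro hm
    have hm' : (m : ℝ) < 0 := by exact_mod_cast hm
    refine pos_of hd2 ?_ k2
    by_contra hcon
    push Not at hcon
    have c4 : u < 0 := by linarith
    have c5 : u + 9 * m < 0 := by linarith
    have : 0 < u * (u + 9 * m) := mul_pos_of_neg_of_neg c4 c5
    have : u * (u + 9 * m) * (u - 16 * m) ≤ 0 := mul_nonpos_of_nonneg_of_nonpos this.le hcon
    linarith

/-- **The prime `2`, first coordinate.** -/
lemma loc_two15 {m d1 d2 : ℤ} (hm : Squarefree m) (h : LocC ℚ_[2] (-9 * m) (16 * m) 0 d1 d2) :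
    (m % 4 = 1 → IsSquare (d1 : ℚ_[2]) ∨ IsSquare (5 * (d1 : ℚ_[2]))) ∧
      (m % 4 ≠ 1 → IsSquare (d1 : ℚ_[2]) ∨ IsSquare ((d1 : ℚ_[2]) * m)) := by
  obtain ⟨u, hu, hv, hw, hs, h1, h2⟩ := locC_iff15 h
  have hm0 : m ≠ 0 := hm.ne_zero
  have hm' : (m : ℚ_[2]) ≠ 0 := by exact_mod_cast hm0
  have h5 : (5 : ℚ_[2]) ≠ 0 := by norm_num
  have hcase := two_v hm0 hu hv hw hs
  constructor
  · intro h4
    have key : IsSquare ((d1 : ℚ_[2]) * m) → IsSquare (d1 : ℚ_[2]) ∨ IsSquare (5 * (d1 : ℚ_[2])) := by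
      intro h6
      rcases (by omega : m % 8 = 1 ∨ m % 8 = 5) with h8 | h8
      · left
        refine sq_cancel hm' (sq_int h8) ?_
        rwa [mul_comm]
      · right
        have h7 : IsSquare ((5 * m : ℤ) : ℚ_[2]) := sq_int (by omega)
        push_cast at h7
        refine sq_of (h6.mul h7) hm' ?_
        ring
    rcases hcase with h3 | h3 | ⟨h3, h3'⟩
    · exact Or.inl (sq_cancel hv h3 h1)
    · exact key (to_coord hv h3 h1)
    · right
      have h6 := to_coord hv h3 h1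
      refine sq_cancel hm' h3' ?_
      have e : (m : ℚ_[2]) * (5 * d1) = d1 * (5 * m) := by ring
      rwa [e]
  · intro h4
    rcases hcase with h3 | h3 | ⟨h3, h3'⟩
    · exact Or.inl (sq_cancel hv h3 h1)
    · exact Or.inr (to_coord hv h3 h1)
    · exfalso
      have := odd_of_sq hm h3'
      omega

/-- **The prime `2`, second coordinate.** -/
lemma loc_two_v15 {m d1 d2 : ℤ} (hm4 : m % 4 = 1) (hd2 : Squarefree d2)
    (h : LocC ℚ_[2] (-9 * m) (16 * m) 0 d1 d2) : ¬ (2 : ℤ) ∣ d2 := by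
  obtain ⟨u, hu, hv, hw, hs, h1, h2⟩ := locC_iff15 h
  have hm0 : m ≠ 0 := by rintro rfl; norm_num at hm4
  have hm' : (m : ℚ_[2]) ≠ 0 := by exact_mod_cast hm0
  have h5 : (5 : ℚ_[2]) ≠ 0 := by norm_num
  have vm : (m : ℚ_[2]).valuation = 0 := val_zero (p := 2) (by push_cast; omega)
  have v5 : (5 : ℚ_[2]).valuation = 0 := by
    have : ((5 : ℤ) : ℚ_[2]).valuation = 0 := val_zero (by norm_num)
    exact_mod_cast this
  have e1 := two_u hm4 hu hv hw hs
  have e2 : Even (u + 9 * (m : ℚ_[2])).valuation := by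
    rcases two_v hm0 hu hv hw hs with h3 | h3 | ⟨h3, -⟩
    · exact even_val hv h3
    · have := even_val (mul_ne_zero hv hm') h3
      rwa [Padic.valuation_mul hv hm', vm, add_zero] at this
    · have := even_val (mul_ne_zero hv (mul_ne_zero h5 hm')) h3
      rwa [Padic.valuation_mul hv (mul_ne_zero h5 hm'), Padic.valuation_mul h5 hm', vm, v5,
        add_zero, add_zero] at this
  have e3 : Even (u - 16 * (m : ℚ_[2])).valuation := by
    have := even_val (mul_ne_zero (mul_ne_zero hu hv) hw) hs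
    rw [Padic.valuation_mul (mul_ne_zero hu hv) hw, Padic.valuation_mul hu hv] at this
    obtain ⟨a, ha⟩ := e1
    obtain ⟨b, hb⟩ := e2
    obtain ⟨c, hc⟩ := this
    exact ⟨c - a - b, by omega⟩
  exact_mod_cast not_dvd_of_even hw e3 hd2 h2

end Pool.Agent.N875.D15
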