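import Pool.Agent.N875.D15.Loc
import Pool.Agent.N875.P17.Cn2

/-!
# Representation of the square classes by exponents, level 15
-/

set_option autoImplicit false

open Finset

namespace Pool.Agent.N875.D15

open Pool.Agent.N875.X15
open Pool.Agent.N875.P17 (sq_of Lm al ind two_zmod sum_ind ra_iff ra_mul ra_prod zmod_cases
  ra_neg_one ra_rec ra_two oz)

open scoped Classical in
/-- the prime discriminants of `d` -/
noncomputable def SY (m d : ℤ) : Finset ℕ :=
  (PR m).filter (fun p : ℕ => if p = 2 then d % 4 ≠ 1 else (p : ℤ) ∣ d)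

/-- the condition at `2` -/
def T2 (m d : ℤ) : Prop := d % 4 = 1 ∨ (d % 4 = 3 ∧ m % 4 = 3) ∨
  ∃ d' m' : ℤ, d = 2 * d' ∧ m = 2 * m' ∧ (d' * m') % 4 = 1

section

variable {m d : ℤ}

lemma SY_sub : SY m d ⊆ PR m := by
  classical
  exact Finset.filter_subset _ _

lemma mem_SY_two : 2 ∈ SY m d ↔ 2 ∈ PR m ∧ d % 4 ≠ 1 := by
  classical
  unfold SY
  rw [Finset.mem_filter, if_pos rfl]

lemma mem_SY {p : ℕ} (hp2 : p ≠ 2) : p ∈ SY m d ↔ p ∈ PR m ∧ (p : ℤ) ∣ d := by
  classical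
  unfold SY
  rw [Finset.mem_filter, if_neg hp2]

/-- **the product** -/
theorem prod_SY (hs : Squarefree m) (hds : Squarefree d)
    (hsup : ∀ p : ℕ, p.Prime → (p : ℤ) ∣ d → Ram m p) (h14 : m % 4 = 1 → d % 4 = 1)
    (h2 : m % 4 ≠ 1 → T2 m d) : ∏ p ∈ SY m d, ps m p = d := by
  classical
  have hm0 := hs.ne_zero
  have hd0 := hds.ne_zero
  have he : (SY m d).erase 2 = d.natAbs.primeFactors.erase 2 := by
    ext p
    rw [Finset.mem_erase, Finset.mem_erase]
    refine and_congr_right fun hp2 => ?_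
    rw [mem_SY hp2, Nat.mem_primeFactors, mem_PR hm0, Int.natCast_dvd]
    constructor
    · rintro ⟨⟨h1, -⟩, h2⟩
      exact ⟨h1, h2, Int.natAbs_ne_zero.2 hd0⟩
    · rintro ⟨h1, h2, -⟩
      exact ⟨⟨h1, hsup p h1 (Int.natCast_dvd.2 h2)⟩, h2⟩
  rw [prod_ps, he]
  have h3 : (∏ p ∈ d.natAbs.primeFactors.erase 2, sgp p) = oe d := rfl
  rw [h3]
  have ho := oe_mod d
  have hom := oe_mod m
  obtain ⟨e1, e2⟩ := d2_spec hs
  have hcases := oe_cases hds
  by_cases hP : 2 ∈ PR m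
  · have hm4 := (two_mem_PR hm0).1 hP
    by_cases h : d % 4 = 1
    · rw [if_neg (fun h' => (mem_SY_two.1 h').2 h), one_mul]
      rcases hcases with ⟨-, h5 | h5⟩ | ⟨h5, -⟩
      · exact h5.symm
      · omega
      · omega
    · rw [if_pos (mem_SY_two.2 ⟨hP, h⟩)]
      rcases (h2 hm4).resolve_left h with ⟨h5, h6⟩ | ⟨d', m', h5, h6, h7⟩
      · rcases e2 with ⟨-, h8 | h8⟩ | ⟨h8, -⟩
        · rw [h8] at e1
          omega
        · rw [h8, neg_one_mul]
          rcases hcases with ⟨-, h9 | h9⟩ | ⟨h9, -⟩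
          · omega
          · exact h9.symm
          · omega
        · omega
      · have h8 : ((d' % 4) * (m' % 4)) % 4 = 1 := by rw [← Int.mul_emod]; exact h7
        rcases e2 with ⟨h9, -⟩ | ⟨-, h9 | h9⟩
        · exact absurd ⟨m', h6⟩ h9
        · rw [h9] at e1 ⊢
          have c1 : m' % 4 = 1 := by omega
          rcases hcases with ⟨h10, -⟩ | ⟨-, h10 | h10⟩
          · exact absurd ⟨d', h5⟩ h10
          · exact h10.symm
          · exfalso
            have c2 : d' % 4 = 3 := by omega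
            rw [c1, c2] at h8
            omega
        · rw [h9] at e1 ⊢
          have c1 : m' % 4 = 3 := by omega
          rcases hcases with ⟨h10, -⟩ | ⟨-, h10 | h10⟩
          · exact absurd ⟨d', h5⟩ h10
          · exfalso
            have c2 : d' % 4 = 1 := by omega
            rw [c1, c2] at h8
            omega
          · exact h10.symm
  · rw [if_neg (fun h => hP (SY_sub h)), one_mul]
    have hm4 : m % 4 = 1 := by
      by_contra h
      exact hP ((two_mem_PR hm0).2 h)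
    have hd4 := h14 hm4
    rcases hcases with ⟨-, h | h⟩ | ⟨h, -⟩
    · exact h.symm
    · omega
    · omega

/-- a product which is a square in the 2-adic numbers -/
lemma sq_prod_two (hs : Squarefree m) (hd : Squarefree d) (h : IsSquare ((d : ℚ_[2]) * m)) :
    (d % 2 = 1 ∧ m % 2 = 1 ∧ (d * m) % 8 = 1) ∨
      ∃ d' m' : ℤ, d = 2 * d' ∧ m = 2 * m' ∧ d' % 2 = 1 ∧ m' % 2 = 1 ∧ (d' * m') % 8 = 1 := by
  have hd0' : (d : ℚ_[2]) ≠ 0 := by exact_mod_cast hd.ne_zero
  have hm0' : (m : ℚ_[2]) ≠ 0 := by exact_mod_cast hs.ne_zero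
  have hev := even_val (mul_ne_zero hd0' hm0') h
  rw [Padic.valuation_mul hd0' hm0'] at hev
  by_cases c1 : (2 : ℤ) ∣ d
  · by_cases c2 : (2 : ℤ) ∣ m
    · right
      obtain ⟨d', hd'⟩ := c1
      obtain ⟨m', hm'⟩ := c2
      have hodd' : ¬ (2 : ℤ) ∣ d' := by
        rintro ⟨k, hk⟩
        have := hd 2 ⟨k, by rw [hd', hk]; ring⟩
        exact absurd (Int.isUnit_iff.1 this) (by norm_num)
      have hodm' : ¬ (2 : ℤ) ∣ m' := by
        rintro ⟨k, hk⟩
        have := hs 2 ⟨k, by rw [hm', hk]; ring⟩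
        exact absurd (Int.isUnit_iff.1 this) (by norm_num)
      have h6 : IsSquare (((d' * m' : ℤ)) : ℚ_[2]) := by
        refine sq_of h (two_ne_zero (α := ℚ_[2])) ?_
        rw [hd', hm']; push_cast; ring
      have h7 := Pool.Agent.Y667.RP.mod_of_sq (d := d' * m') (by
        intro h
        rcases Int.prime_two.dvd_or_dvd h with h | h
        · exact hodd' h
        · exact hodm' h) h6
      exact ⟨d', m', hd', hm', by omega, by omega, h7⟩
    · rw [val_one (p := 2) (by exact_mod_cast c1) hd,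
        val_zero (p := 2) (n := m) (by exact_mod_cast c2)] at hev
      exact absurd hev (by decide)
  · by_cases c2 : (2 : ℤ) ∣ m
    · rw [val_zero (p := 2) (n := d) (by exact_mod_cast c1),
        val_one (p := 2) (by exact_mod_cast c2) hs] at hev
      exact absurd hev (by decide)
    · left
      have h6 : IsSquare (((d * m : ℤ)) : ℚ_[2]) := by
        push_cast
        exact h
      have h7 := Pool.Agent.Y667.RP.mod_of_sq (d := d * m) (by
        intro h
        rcases Int.prime_two.dvd_or_dvd h with h | h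
        · exact c1 h
        · exact c2 h) h6
      exact ⟨by omega, by omega, h7⟩

lemma mod4_mul {a b : ℤ} (ha : a % 2 = 1) (h : (a * b) % 8 = 1) :
    (a % 4 = 1 ∧ b % 4 = 1) ∨ (a % 4 = 3 ∧ b % 4 = 3) := by
  have h1 : ((a % 8) * (b % 8)) % 8 = 1 := by rw [← Int.mul_emod]; exact h
  have h3 : b % 8 = 0 ∨ b % 8 = 1 ∨ b % 8 = 2 ∨ b % 8 = 3 ∨ b % 8 = 4 ∨ b % 8 = 5 ∨ b % 8 = 6 ∨
    b % 8 = 7 := by omega
  rcases (by omega : a % 8 = 1 ∨ a % 8 = 3 ∨ a % 8 = 5 ∨ a % 8 = 7) with h2 | h2 | h2 | h2 <;>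
    rcases h3 with h3 | h3 | h3 | h3 | h3 | h3 | h3 | h3 <;> rw [h2, h3] at h1 <;> omega

lemma T2_of (hs : Squarefree m) (hd : Squarefree d)
    (h : IsSquare (d : ℚ_[2]) ∨ IsSquare ((d : ℚ_[2]) * m)) (h4 : m % 4 ≠ 1) : T2 m d := by
  rcases h with h | h
  · left
    have := odd_of_sq hd h
    omega
  · rcases sq_prod_two hs hd h with ⟨h1, h2, h3⟩ | ⟨d', m', h1, h2, h3, h4, h5⟩
    · right; left
      rcases mod4_mul h1 h3 with h5 | h5
      · exact absurd h5.2 h4
      · exact h5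
    · right; right
      refine ⟨d', m', h1, h2, ?_⟩
      omega

end

/-! ### the factors at `3` and `5` -/

/-- the factor of the first coordinate -/
def tt (a c : ZMod 2) : ℤ := (if a = 1 then -3 else 1) * (if c = 1 then 5 else 1)

/-- the factor of the second coordinate -/
def TT (s c : ZMod 2) : ℤ := (if s = 1 then -1 else 1) * (if c = 1 then 5 else 1)

lemma tt_mod (a c : ZMod 2) : tt a c % 4 = 1 := by
  unfold tt
  split_ifs <;> norm_num

lemma tt_ne (a c : ZMod 2) : tt a c ≠ 0 := by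
  have := tt_mod a c
  intro h
  rw [h] at this
  norm_num at this

lemma TT_ne (s c : ZMod 2) : TT s c ≠ 0 := by
  unfold TT
  split_ifs <;> norm_num

lemma gd_c {p : ℕ} (hp : p.Prime) {q : ℕ} (hq : q.Prime) (hpq : p ≠ q) (hp2 : p ≠ 2) :
    Gd p (q : ℤ) := gd_nat hq hp hp2 hpq.symm

lemma gd_neg {p : ℕ} (hp2 : p ≠ 2) {a : ℤ} (h : Gd p a) : Gd p (-a) := by
  rw [gd_odd hp2] at h ⊢
  rwa [dvd_neg]

lemma gd_m3 {p : ℕ} (hp : p.Prime) (hp3 : p ≠ 3) : Gd p (-3) := by
  by_cases hp2 : p = 2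
  · subst hp2
    rw [gd_two]
    norm_num
  · exact gd_neg hp2 (by exact_mod_cast gd_c hp Nat.prime_three hp3 hp2)

lemma gd_5 {p : ℕ} (hp : p.Prime) (hp5 : p ≠ 5) : Gd p 5 := by
  by_cases hp2 : p = 2
  · subst hp2
    rw [gd_two]
    norm_num
  · exact_mod_cast gd_c hp (by norm_num : Nat.Prime 5) hp5 hp2

lemma gd_m1 {p : ℕ} (hp : p.Prime) (hp2 : p ≠ 2) : Gd p (-1) := gd_neg hp2 (gd_one hp)

lemma ra_one {p : ℕ} (hp : p.Prime) : ra p 1 = 0 := by
  have : Fact p.Prime := ⟨hp⟩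
  exact (ra_iff (gd_one hp)).2 ⟨1, by push_cast; ring⟩

lemma gd_tt {p : ℕ} (hp : p.Prime) {a c : ZMod 2} (h3 : a = 1 → p ≠ 3) (h5 : c = 1 → p ≠ 5) :
    Gd p (tt a c) := by
  unfold tt
  refine gd_mul hp ?_ ?_
  · split_ifs with h
    · exact gd_m3 hp (h3 h)
    · exact gd_one hp
  · split_ifs with h
    · exact gd_5 hp (h5 h)
    · exact gd_one hp

lemma ra_ite {p : ℕ} (hp : p.Prime) (a : ZMod 2) (n : ℤ) :
    ra p (if a = 1 then n else 1) = a * ra p n := by
  rcases zmod_cases a with rfl | rfl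
  · rw [if_neg (by decide), ra_one hp, zero_mul]
  · rw [if_pos rfl, one_mul]

lemma ra_tt {p : ℕ} (hp : p.Prime) {a c : ZMod 2} (h3 : a = 1 → p ≠ 3) (h5 : c = 1 → p ≠ 5) :
    ra p (tt a c) = a * ra p (-3) + c * ra p 5 := by
  unfold tt
  rw [ra_mul hp, ra_ite hp, ra_ite hp]
  · split_ifs with h
    · exact gd_m3 hp (h3 h)
    · exact gd_one hp
  · split_ifs with h
    · exact gd_5 hp (h5 h)
    · exact gd_one hp

lemma gd_TT {p : ℕ} (hp : p.Prime) (hp2 : p ≠ 2) {s c : ZMod 2} (h5 : c = 1 → p ≠ 5) :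
    Gd p (TT s c) := by
  unfold TT
  refine gd_mul hp ?_ ?_
  · split_ifs with h
    · exact gd_m1 hp hp2
    · exact gd_one hp
  · split_ifs with h
    · exact gd_5 hp (h5 h)
    · exact gd_one hp

lemma ra_TT {p : ℕ} (hp : p.Prime) (hp2 : p ≠ 2) {s c : ZMod 2} (h5 : c = 1 → p ≠ 5) :
    ra p (TT s c) = s * ra p (-1) + c * ra p 5 := by
  unfold TT
  rw [ra_mul hp, ra_ite hp, ra_ite hp]
  · split_ifs with h
    · exact gd_m1 hp hp2
    · exact gd_one hp
  · split_ifs with h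
    · exact gd_5 hp (h5 h)
    · exact gd_one hp

/-! ### the representations -/

/-- the representation of the first coordinate -/
structure RepU (m d1 : ℤ) (a c : ZMod 2) (Y : Finset ℕ) : Prop where
  sub : Y ⊆ PR m
  eq : d1 = tt a c * ∏ q ∈ Y, ps m q
  ha : a = 1 ↔ (3 : ℤ) ∣ d1 ∧ ¬ (3 : ℤ) ∣ m
  hc : c = 1 ↔ (5 : ℤ) ∣ d1 ∧ ¬ (5 : ℤ) ∣ m
  mem : ∀ p ∈ PR m, p ≠ 2 → (p ∈ Y ↔ (p : ℤ) ∣ d1)
  two : 2 ∈ PR m → (2 ∈ Y ↔ d1 % 4 ≠ 1)

/-- the representation of the second coordinate -/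
structure RepV (m d2 : ℤ) (s c : ZMod 2) (X : Finset ℕ) : Prop where
  sub : X ⊆ PR m
  eq : d2 = TT s c * ∏ p ∈ X, ((p : ℕ) : ℤ)
  hs : s = 1 ↔ d2 < 0
  hc : c = 1 ↔ (5 : ℤ) ∣ d2 ∧ ¬ (5 : ℤ) ∣ m
  mem : ∀ p ∈ PR m, (p ∈ X ↔ (p : ℤ) ∣ d2)

lemma ite_one_iff {P : Prop} [Decidable P] : ((if P then 1 else 0 : ZMod 2) = 1) ↔ P := by
  split_ifs with h
  · exact ⟨fun _ => h, fun _ => rfl⟩
  · exact ⟨fun h' => absurd h' (by decide), fun h' => absurd h' h⟩

section

variable {m d1 d2 : ℤ}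

theorem exists_repU (hs : Squarefree m) (h1 : Squarefree d1)
    (hsup : ∀ p : ℕ, p.Prime → (p : ℤ) ∣ d1 → Ram m p ∨ p = 3 ∨ p = 5)
    (h14 : m % 4 = 1 → d1 % 4 = 1) (h2 : m % 4 ≠ 1 → T2 m d1) :
    ∃ a c Y, RepU m d1 a c Y := by
  classical
  have hm0 := hs.ne_zero
  set a : ZMod 2 := if (3 : ℤ) ∣ d1 ∧ ¬ (3 : ℤ) ∣ m then 1 else 0 with ha
  set c : ZMod 2 := if (5 : ℤ) ∣ d1 ∧ ¬ (5 : ℤ) ∣ m then 1 else 0 with hc
  have ha' : a = 1 ↔ (3 : ℤ) ∣ d1 ∧ ¬ (3 : ℤ) ∣ m := ite_one_iff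
  have hc' : c = 1 ↔ (5 : ℤ) ∣ d1 ∧ ¬ (5 : ℤ) ∣ m := ite_one_iff
  obtain ⟨d, hd⟩ : ∃ d, d1 = tt a c * d := by
    unfold tt
    by_cases h3 : a = 1
    · have h3' := (ha'.1 h3).1
      by_cases h5 : c = 1
      · have h5' := (hc'.1 h5).1
        rw [if_pos h3, if_pos h5]
        exact ⟨-(d1 / 15), by omega⟩
      · rw [if_pos h3, if_neg h5]
        exact ⟨-(d1 / 3), by omega⟩
    · by_cases h5 : c = 1
      · have h5' := (hc'.1 h5).1
        rw [if_neg h3, if_pos h5]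
        exact ⟨d1 / 5, by omega⟩
      · rw [if_neg h3, if_neg h5]
        exact ⟨d1, by ring⟩
  have hdd : d ∣ d1 := ⟨tt a c, by rw [hd]; ring⟩
  have hds : Squarefree d := h1.squarefree_of_dvd hdd
  have h4 : d1 % 4 = d % 4 := by
    rw [hd, Int.mul_emod, tt_mod, one_mul, Int.emod_emod_of_dvd _ dvd_rfl]
  have no3 : a = 1 → ¬ (3 : ℤ) ∣ d := by
    rintro h ⟨k, hk⟩
    have h9 : (3 : ℤ) * 3 ∣ d1 := by
      rw [hd, hk]
      unfold tt
      rw [if_pos h]
      exact ⟨-((if c = 1 then 5 else 1) * k), by ring⟩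
    exact absurd (Int.isUnit_iff.1 (h1 3 h9)) (by norm_num)
  have no5 : c = 1 → ¬ (5 : ℤ) ∣ d := by
    rintro h ⟨k, hk⟩
    have h9 : (5 : ℤ) * 5 ∣ d1 := by
      rw [hd, hk]
      unfold tt
      rw [if_pos h]
      exact ⟨(if a = 1 then -3 else 1) * k, by ring⟩
    exact absurd (Int.isUnit_iff.1 (h1 5 h9)) (by norm_num)
  have hsup' : ∀ p : ℕ, p.Prime → (p : ℤ) ∣ d → Ram m p := by
    intro p hp hpd
    rcases hsup p hp (hpd.trans hdd) with h | rfl | rfl
    · exact h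
    · left
      by_contra hcon
      exact no3 (ha'.2 ⟨by exact_mod_cast hpd.trans hdd, by exact_mod_cast hcon⟩)
        (by exact_mod_cast hpd)
    · left
      by_contra hcon
      exact no5 (hc'.2 ⟨by exact_mod_cast hpd.trans hdd, by exact_mod_cast hcon⟩)
        (by exact_mod_cast hpd)
  have hT : m % 4 ≠ 1 → T2 m d := by
    intro h
    rcases h2 h with h5 | ⟨h5, h6⟩ | ⟨d', m', h5, h6, h7⟩
    · left; omega
    · right; left; exact ⟨by omega, h6⟩
    · right; right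
      have ht := tt_mod a c
      have hev : (2 : ℤ) ∣ d := by
        have h8 : (2 : ℤ) ∣ tt a c * d := ⟨d', by rw [← hd, h5]⟩
        rcases Int.prime_two.dvd_or_dvd h8 with h9 | h9
        · omega
        · exact h9
      obtain ⟨k, hk⟩ := hev
      refine ⟨k, m', hk, h6, ?_⟩
      have h9 : d' = tt a c * k := by
        have : 2 * d' = 2 * (tt a c * k) := by
          rw [← h5, hd, hk]
          ring
        omega
      rw [h9, mul_assoc, Int.mul_emod, ht, one_mul, Int.emod_emod_of_dvd _ dvd_rfl] at h7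
      exact h7
  have hprod := prod_SY hs hds hsup' (fun h => by have := h14 h; omega) hT
  refine ⟨a, c, SY m d, SY_sub, ?_, ha', hc', ?_, ?_⟩
  · rw [hprod, hd]
  · intro p hp hp2
    rw [mem_SY hp2]
    have hpp := ((mem_PR hm0).1 hp).1
    have hpm : (p : ℤ) ∣ m := by
      rcases ((mem_PR hm0).1 hp).2 with h | h
      · exact h
      · exact absurd h.1 hp2
    constructor
    · rintro ⟨-, h⟩
      exact h.trans hdd
    · intro h
      refine ⟨hp, ?_⟩
      rw [hd] at h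
      rcases (Nat.prime_iff_prime_int.1 hpp).dvd_or_dvd h with h5 | h5
      · exfalso
        have g := gd_tt hpp (a := a) (c := c) (fun h0 => by
          rintro rfl
          exact (ha'.1 h0).2 (by exact_mod_cast hpm)) (fun h0 => by
          rintro rfl
          exact (hc'.1 h0).2 (by exact_mod_cast hpm))
        rw [gd_odd hp2] at g
        exact g h5
      · exact h5
  · intro h
    rw [mem_SY_two, h4]
    exact ⟨fun h => h.2, fun h' => ⟨h, h'⟩⟩

theorem exists_repV (hs : Squarefree m) (h2 : Squarefree d2)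
    (hsup : ∀ p : ℕ, p.Prime → (p : ℤ) ∣ d2 → Ram m p ∨ p = 5) :
    ∃ s c X, RepV m d2 s c X := by
  classical
  have hm0 := hs.ne_zero
  set s : ZMod 2 := if d2 < 0 then 1 else 0 with hs'
  set c : ZMod 2 := if (5 : ℤ) ∣ d2 ∧ ¬ (5 : ℤ) ∣ m then 1 else 0 with hc
  have hs1 : s = 1 ↔ d2 < 0 := ite_one_iff
  have hc' : c = 1 ↔ (5 : ℤ) ∣ d2 ∧ ¬ (5 : ℤ) ∣ m := ite_one_iff
  set X : Finset ℕ := (PR m).filter (fun p => (p : ℤ) ∣ d2) with hX
  have h5P : 5 ∈ PR m ↔ (5 : ℤ) ∣ m := by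
    rw [mem_PR hm0]
    constructor
    · rintro ⟨-, h | h⟩
      · exact_mod_cast h
      · exact absurd h.1 (by norm_num)
    · intro h
      exact ⟨by norm_num, Or.inl (by exact_mod_cast h)⟩
  refine ⟨s, c, X, Finset.filter_subset _ _, ?_, hs1, hc', ?_⟩
  · have h1 : ∏ p ∈ d2.natAbs.primeFactors, p = d2.natAbs :=
      Nat.prod_primeFactors_of_squarefree (Int.squarefree_natAbs.2 h2)
    have hd0 := h2.ne_zero
    have key : (∏ p ∈ X, p) * (if c = 1 then 5 else 1) = d2.natAbs := by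
      rw [← h1]
      by_cases h5 : c = 1
      · rw [if_pos h5]
        have h6 := hc'.1 h5
        have h5n : 5 ∈ d2.natAbs.primeFactors := Nat.mem_primeFactors.2
          ⟨by norm_num, Int.natCast_dvd.1 (by exact_mod_cast h6.1), Int.natAbs_ne_zero.2 hd0⟩
        rw [← Finset.prod_erase_mul _ _ h5n]
        congr 1
        refine Finset.prod_congr ?_ fun _ _ => rfl
        ext p
        rw [hX, Finset.mem_filter, Finset.mem_erase, Nat.mem_primeFactors, mem_PR hm0]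
        constructor
        · rintro ⟨⟨h7, h8⟩, h9⟩
          refine ⟨?_, h7, Int.natCast_dvd.1 h9, Int.natAbs_ne_zero.2 hd0⟩
          rintro rfl
          exact h6.2 (h5P.1 ((mem_PR hm0).2 ⟨h7, h8⟩))
        · rintro ⟨h7, h8, h9, -⟩
          have h10 := Int.natCast_dvd.2 h9
          exact ⟨⟨h8, (hsup p h8 h10).resolve_right h7⟩, h10⟩
      · rw [if_neg h5, mul_one]
        refine Finset.prod_congr ?_ fun _ _ => rfl
        ext p
        rw [hX, Finset.mem_filter, Nat.mem_primeFactors, mem_PR hm0]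
        constructor
        · rintro ⟨⟨h7, h8⟩, h9⟩
          exact ⟨h7, Int.natCast_dvd.1 h9, Int.natAbs_ne_zero.2 hd0⟩
        · rintro ⟨h8, h9, -⟩
          have h10 := Int.natCast_dvd.2 h9
          refine ⟨⟨h8, ?_⟩, h10⟩
          rcases hsup p h8 h10 with h11 | rfl
          · exact h11
          · left
            by_contra hcon
            exact h5 (hc'.2 ⟨by exact_mod_cast h10, by exact_mod_cast hcon⟩)
    have h3 : (∏ p ∈ X, ((p : ℕ) : ℤ)) = ((∏ p ∈ X, p : ℕ) : ℤ) := by push_cast; rfl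
    have key' : ((∏ p ∈ X, p : ℕ) : ℤ) * (if c = 1 then 5 else 1) = (d2.natAbs : ℤ) := by
      rw [← key]
      push_cast
      rfl
    unfold TT
    rw [h3]
    by_cases h : s = 1
    · rw [if_pos h]
      have h4 := hs1.1 h
      have h5 : (d2.natAbs : ℤ) = -d2 := by omega
      rw [h5] at key'
      linear_combination key'
    · rw [if_neg h]
      have h4 : ¬ d2 < 0 := fun h' => h (hs1.2 h')
      have h5 : (d2.natAbs : ℤ) = d2 := by omega
      rw [h5] at key'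
      linear_combination -key'
  · intro p hp
    rw [hX, Finset.mem_filter]
    exact ⟨fun h => h.2, fun h => ⟨hp, h⟩⟩

end

end Pool.Agent.N875.D15
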