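import Pool.Agent.N875.D15.Rep

/-!
# The elements of the 2-Selmer group give solutions of the symmetric system, level 15
-/

set_option autoImplicit false

open Finset

namespace Pool.Agent.N875.D15

open Pool.Agent.N875.X15
open Pool.Agent.N875.P17 (sq_of Lm al ind two_zmod sum_ind ra_iff ra_mul ra_prod zmod_cases
  ra_neg_one ra_rec ra_two oz row_notMem row_mem col_notMem col_mem row_sum prod_sign)
open Pool.Agent.TH841.SH (LocC SelG)
open Pool.Agent.N809.PQ (B3 B5 Sol15 Sg15)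

section

variable {m d1 d2 : ℤ} {a c s : ZMod 2} {X Y : Finset ℕ}

lemma nsq_odd {p : ℕ} [Fact p.Prime] {a : ℚ_[p]} (ha : a ≠ 0) (h : Odd a.valuation) :
    ¬ IsSquare a := Pool.Agent.N875.P17.nsq_odd ha h

lemma dvd_of_PR (hm0 : m ≠ 0) {p : ℕ} (hp : p ∈ PR m) (hp2 : p ≠ 2) : (p : ℤ) ∣ m := by
  rcases ((mem_PR hm0).1 hp).2 with h | h
  · exact h
  · exact absurd h.1 hp2

lemma prime_PR (hm0 : m ≠ 0) {p : ℕ} (hp : p ∈ PR m) : p.Prime := ((mem_PR hm0).1 hp).1

lemma RepU.g3 (R : RepU m d1 a c Y) (hm0 : m ≠ 0) {p : ℕ} (hp : p ∈ PR m) : a = 1 → p ≠ 3 := by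
  intro h0
  rintro rfl
  exact (R.ha.1 h0).2 (by exact_mod_cast dvd_of_PR hm0 hp (by norm_num))

lemma RepU.g5 (R : RepU m d1 a c Y) (hm0 : m ≠ 0) {p : ℕ} (hp : p ∈ PR m) : c = 1 → p ≠ 5 := by
  intro h0
  rintro rfl
  exact (R.hc.1 h0).2 (by exact_mod_cast dvd_of_PR hm0 hp (by norm_num))

lemma RepV.g5 (R : RepV m d2 s c X) (hm0 : m ≠ 0) {p : ℕ} (hp : p ∈ PR m) : c = 1 → p ≠ 5 := by
  intro h0
  rintro rfl
  exact (R.hc.1 h0).2 (by exact_mod_cast dvd_of_PR hm0 hp (by norm_num))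

/-- **The rows.** -/
theorem row_of (hs : Squarefree m) (R : RepU m d1 a c Y) (sd1 : Squarefree d1) {p : ℕ}
    [hpf : Fact p.Prime] (hpP : p ∈ PR m)
    (h : IsSquare (d1 : ℚ_[p]) ∨ IsSquare ((d1 : ℚ_[p]) * m)) :
    ∑ q ∈ PR m, Lm m p q * ind Y q + a * ra p (-3) + c * ra p 5 = 0 := by
  classical
  have hp := hpf.out
  have hm0 := hs.ne_zero
  have h3 := R.g3 hm0 hpP
  have h5 := R.g5 hm0 hpP
  have g := gd_tt hp h3 h5
  rw [add_assoc, ← ra_tt hp h3 h5]
  have gps : ∀ q ∈ PR m, q ≠ p → Gd p (ps m q) := fun q hq hpq =>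
    gd_ps hs (prime_PR hm0 hq) hp hpq
  have hme : m = (∏ q ∈ Y, ps m q) * ∏ q ∈ PR m \ Y, ps m q := by
    rw [mul_comm, Finset.prod_sdiff R.sub, prod_PR hs]
  have hY0 : (∏ q ∈ Y, ps m q) ≠ 0 := by
    intro h0
    rw [h0, zero_mul] at hme
    exact hm0 hme
  have hd1' : (d1 : ℚ_[p]) ≠ 0 := by exact_mod_cast sd1.ne_zero
  have hm' : (m : ℚ_[p]) ≠ 0 := by exact_mod_cast hm0
  by_cases hY : p ∈ Y
  · have hsecond : IsSquare ((d1 : ℚ_[p]) * m) := by
      refine h.resolve_left fun h0 => ?_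
      by_cases hp2 : p = 2
      · subst hp2
        have h6 := (R.two hpP).1 hY
        have := odd_of_sq sd1 h0
        omega
      · exact not_sq sd1 ((R.mem p hpP hp2).1 hY) h0
    have ge : ∀ q ∈ PR m \ Y, Gd p (ps m q) := fun q hq => by
      obtain ⟨h1, h2⟩ := Finset.mem_sdiff.1 hq
      exact gps q h1 (fun h => h2 (h ▸ hY))
    rw [row_mem R.sub hY, ra_prod hp _ _ ge, ← ra_mul hp (gd_prod hp _ _ ge) g,
      ra_iff (gd_mul hp (gd_prod hp _ _ ge) g)]
    have hY0' : ((∏ q ∈ Y, ps m q : ℤ) : ℚ_[p]) ≠ 0 := by exact_mod_cast hY0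
    refine sq_of hsecond hY0' ?_
    have e : d1 * m = (∏ q ∈ Y, ps m q) * (∏ q ∈ Y, ps m q) *
        ((∏ q ∈ PR m \ Y, ps m q) * tt a c) := by
      calc d1 * m = (tt a c * ∏ q ∈ Y, ps m q) *
          ((∏ q ∈ Y, ps m q) * ∏ q ∈ PR m \ Y, ps m q) := by rw [← R.eq, ← hme]
        _ = _ := by ring
    exact_mod_cast e
  · have hfirst : IsSquare (d1 : ℚ_[p]) := by
      refine h.resolve_right fun h0 => ?_
      by_cases hp2 : p = 2
      · subst hp2
        have h6 : d1 % 4 = 1 := by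
          by_contra hcon
          exact hY ((R.two hpP).2 hcon)
        have hm4 := (two_mem_PR hm0).1 hpP
        rcases sq_prod_two hs sd1 h0 with ⟨h7, h8, h9⟩ | ⟨d', m', h7, h8, -⟩
        · rcases mod4_mul h7 h9 with h10 | h10
          · exact hm4 h10.2
          · omega
        · omega
      · have hnd : ¬ (p : ℤ) ∣ d1 := fun h => hY ((R.mem p hpP hp2).2 h)
        refine nsq_odd (mul_ne_zero hd1' hm') ?_ h0
        rw [Padic.valuation_mul hd1' hm', val_zero hnd, val_one (dvd_of_PR hm0 hpP hp2) hs]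
        decide
    have gY : ∀ q ∈ Y, Gd p (ps m q) := fun q hq =>
      gps q (R.sub hq) (fun h => hY (h ▸ hq))
    rw [row_notMem R.sub hY, ra_prod hp _ _ gY, ← ra_mul hp (gd_prod hp _ _ gY) g,
      ra_iff (gd_mul hp (gd_prod hp _ _ gY) g), mul_comm, ← R.eq]
    exact hfirst

/-- **The columns.** -/
theorem col_of (hs : Squarefree m) (R : RepV m d2 s c X) (sd2 : Squarefree d2) {q : ℕ}
    [hqf : Fact q.Prime] (hqP : q ∈ PR m) (hq2 : q ≠ 2)
    (h : IsSquare (d2 : ℚ_[q]) ∨ IsSquare ((d2 : ℚ_[q]) * (-m))) :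
    ∑ p ∈ PR m, Lm m p q * ind X p + s * al m q + c * ra 5 (ps m q) = 0 := by
  classical
  have hq := hqf.out
  have hm0 := hs.ne_zero
  have h5 := R.g5 hm0 hqP
  have g := gd_TT (s := s) hq hq2 h5
  have hqm := dvd_of_PR hm0 hqP hq2
  have hpr : ∀ p ∈ PR m, p.Prime := fun p hp => prime_PR hm0 hp
  have gps : ∀ r ∈ PR m, r ≠ q → Gd q (ps m r) := fun r hr hrq =>
    gd_ps hs (hpr r hr) hq hrq
  have e5 : ra 5 (ps m q) = ra q 5 := by
    rw [ra_rec (by norm_num : Nat.Prime 5) hq hq2]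
    rfl
  rw [e5, ← ra_neg_one (m := m) hq hq2, add_assoc, ← ra_TT hq hq2 h5]
  have hd2' : (d2 : ℚ_[q]) ≠ 0 := by exact_mod_cast sd2.ne_zero
  have hm' : (m : ℚ_[q]) ≠ 0 := by exact_mod_cast hm0
  have hrec : ∀ T : Finset ℕ, T ⊆ PR m →
      ∑ p ∈ T, ra p (ps m q) = ∑ p ∈ T, ra q ((p : ℕ) : ℤ) := by
    intro T hT
    exact Finset.sum_congr rfl fun p hp => ra_rec (hpr p (hT hp)) hq hq2
  by_cases hX : q ∈ X
  · have hqd := (R.mem q hqP).1 hX
    have hsecond := h.resolve_left (not_sq sd2 hqd)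
    rw [col_mem R.sub hX, hrec _ ((Finset.erase_subset _ _).trans R.sub)]
    have g1 : ∀ r ∈ (PR m).erase q, Gd q (ps m r) := fun r hr =>
      gps r (Finset.mem_of_mem_erase hr) (Finset.ne_of_mem_erase hr)
    have g2 : ∀ p ∈ X.erase q, Gd q ((p : ℕ) : ℤ) := fun p hp =>
      gd_nat (hpr p (R.sub (Finset.mem_of_mem_erase hp))) hq hq2 (Finset.ne_of_mem_erase hp)
    have gAB := gd_mul hq (gd_prod hq _ _ g1) (gd_prod hq _ _ g2)
    rw [ra_prod hq _ _ g1, ra_prod hq _ _ g2, ← ra_mul hq (gd_prod hq _ _ g1) (gd_prod hq _ _ g2),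
      ← ra_mul hq gAB g, ra_iff (gd_mul hq gAB g)]
    have e1 : ps m q * ∏ r ∈ (PR m).erase q, ps m r = m := by
      rw [Finset.mul_prod_erase _ _ hqP, prod_PR hs]
    have e2 : ((q : ℕ) : ℤ) * ∏ p ∈ X.erase q, ((p : ℕ) : ℤ) = ∏ p ∈ X, ((p : ℕ) : ℤ) :=
      Finset.mul_prod_erase X (fun p => ((p : ℕ) : ℤ)) hX
    set A : ℤ := ∏ r ∈ (PR m).erase q, ps m r with hA
    set B : ℤ := ∏ p ∈ X.erase q, ((p : ℕ) : ℤ) with hB
    have hq0 : (q : ℚ_[q]) ≠ 0 := by exact_mod_cast hq.ne_zero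
    have e3 : d2 * (-m) = TT s c * (q * B) * (-(ps m q * A)) := by
      rw [e1, e2, ← R.eq]
    have e3' : (d2 : ℚ_[q]) * (-m) = TT s c * (q * B) * (-(ps m q * A)) := by exact_mod_cast e3
    rw [ps_odd hq2] at e3'
    by_cases h4 : q % 4 = 1
    · have hal : al m q = 0 := by
        unfold al
        rw [ps_odd hq2]
        unfold sgp
        rw [if_pos h4, if_neg (by omega)]
      have hm1 : IsSquare (((-1 : ℤ)) : ℚ_[q]) := by
        rw [← ra_iff (gd_m1 hq hq2), ra_neg_one (m := m) hq hq2, hal]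
      have hsg : sgp q = q := if_pos h4
      rw [hsg] at e3'
      refine sq_of (hsecond.mul hm1) hq0 ?_
      rw [e3']
      push_cast
      ring
    · have hsg : sgp q = -q := if_neg h4
      rw [hsg] at e3'
      refine sq_of hsecond hq0 ?_
      rw [e3']
      push_cast
      ring
  · have hnd : ¬ (q : ℤ) ∣ d2 := fun h => hX ((R.mem q hqP).2 h)
    have hfirst : IsSquare (d2 : ℚ_[q]) := by
      refine h.resolve_right fun h0 => ?_
      refine nsq_odd (mul_ne_zero hd2' (neg_ne_zero.2 hm')) ?_ h0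
      rw [Padic.valuation_mul hd2' (neg_ne_zero.2 hm'), vneg, val_zero hnd, val_one hqm hs]
      decide
    have g2 : ∀ p ∈ X, Gd q ((p : ℕ) : ℤ) := fun p hp =>
      gd_nat (hpr p (R.sub hp)) hq hq2 (fun h => hX (h ▸ hp))
    rw [col_notMem R.sub hX, hrec _ R.sub, ra_prod hq _ _ g2, ← ra_mul hq (gd_prod hq _ _ g2) g,
      ra_iff (gd_mul hq (gd_prod hq _ _ g2) g), mul_comm, ← R.eq]
    exact hfirst

lemma ps_ne (hs : Squarefree m) {q : ℕ} (hq : q ∈ PR m) : ps m q ≠ 0 := fun h0 => by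
  have := prod_PR hs
  rw [Finset.prod_eq_zero hq h0] at this
  exact hs.ne_zero this.symm

lemma not_dvd5 (h : B5 m) : ¬ (5 : ℤ) ∣ m := by
  unfold B5 at h
  omega

lemma not_dvd3 (h : B3 m) : ¬ (3 : ℤ) ∣ m := by
  unfold B3 at h
  omega

/-- squares at `5` -/
lemma sq5_of {n : ℤ} (h : n % 5 = 1 ∨ n % 5 = 4) : IsSquare (n : ℚ_[5]) := by
  refine sq_of_zmod (by norm_num) (by push_cast; omega) ?_
  rcases h with h | h
  · refine ⟨1, ?_⟩
    have : ((n - 1 : ℤ) : ZMod 5) = 0 := by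
      rw [ZMod.intCast_zmod_eq_zero_iff_dvd]
      push_cast
      omega
    push_cast at this
    linear_combination this
  · refine ⟨2, ?_⟩
    have : ((n - 4 : ℤ) : ZMod 5) = 0 := by
      rw [ZMod.intCast_zmod_eq_zero_iff_dvd]
      push_cast
      omega
    push_cast at this
    linear_combination this

/-- the sum of the columns -/
theorem tot15 (hs : Squarefree m) {x : ℕ → ZMod 2} (s0 : m < 0 → s = 0) (c0 : ¬ B5 m → c = 0) :
    ∑ q ∈ PR m, (∑ p ∈ PR m, Lm m p q * x p + s * al m q + c * ra 5 (ps m q)) = 0 := by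
  classical
  have hm0 := hs.ne_zero
  rw [Finset.sum_add_distrib, Finset.sum_add_distrib, Finset.sum_comm]
  have h1 : ∑ p ∈ PR m, ∑ q ∈ PR m, Lm m p q * x p = 0 := by
    refine Finset.sum_eq_zero fun p hp => ?_
    rw [← Finset.sum_mul, row_sum hp, zero_mul]
  have h2 : ∑ q ∈ PR m, s * al m q = 0 := by
    rw [← Finset.mul_sum]
    rcases lt_or_gt_of_ne hm0 with h | h
    · rw [s0 h, zero_mul]
    · rcases prod_sign (m := m) (PR m) (fun q hq => ps_ne hs hq) with h3 | h3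
      · rw [h3.1, mul_zero]
      · rw [prod_PR hs] at h3
        omega
  have h3 : ∑ q ∈ PR m, c * ra 5 (ps m q) = 0 := by
    rw [← Finset.mul_sum]
    by_cases h : B5 m
    · have h5 := not_dvd5 h
      have hp5 : Nat.Prime 5 := by norm_num
      have g : ∀ q ∈ PR m, Gd 5 (ps m q) := fun q hq => gd_ps hs (prime_PR hm0 hq) hp5 (by
        rintro rfl
        exact h5 (by exact_mod_cast dvd_of_PR hm0 hq (by norm_num)))
      have g5 : Gd 5 m := by
        rw [gd_odd (by norm_num)]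
        exact_mod_cast h5
      rw [ra_prod hp5 _ _ g, prod_PR hs, (ra_iff g5).2 (sq5_of h), mul_zero]
    · rw [c0 h, zero_mul]
  rw [h1, h2, h3, add_zero, add_zero]

lemma ra3_m1 : ra 3 (-1) = 1 := by
  unfold ra
  rw [ch_odd (by norm_num)]
  norm_num

lemma ra3_5 : ra 3 5 = 1 := by
  unfold ra
  rw [ch_odd (by norm_num)]
  norm_num

lemma ra5_m1 : ra 5 (-1) = 0 := by
  unfold ra
  rw [ch_odd (by norm_num)]
  norm_num

lemma ra5_m3 : ra 5 (-3) = 1 := by
  unfold ra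
  rw [ch_odd (by norm_num)]
  norm_num

lemma ps3 : ps m 3 = -3 := by
  rw [ps_odd (by norm_num)]
  rfl

lemma ps5 : ps m 5 = 5 := by
  rw [ps_odd (by norm_num)]
  rfl

lemma ra_m3 {p : ℕ} (hp : p.Prime) : ra p (-3) = ra 3 ((p : ℕ) : ℤ) := by
  rw [← ps3 (m := 1), ra_rec hp (by norm_num) (by norm_num)]

lemma ra_5 {p : ℕ} (hp : p.Prime) : ra p 5 = ra 5 ((p : ℕ) : ℤ) := by
  have := ra_rec (m := 1) hp (by norm_num : Nat.Prime 5) (by norm_num)
  rwa [ps5] at this

/-- the sum of the characters at `3` -/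
lemma sum_at3 (hs : Squarefree m) (hX : X ⊆ PR m) (h3 : ¬ (3 : ℤ) ∣ m) :
    ∑ p ∈ PR m, ra p (-3) * ind X p = ra 3 (∏ p ∈ X, ((p : ℕ) : ℤ)) ∧
      Gd 3 (∏ p ∈ X, ((p : ℕ) : ℤ)) := by
  have hm0 := hs.ne_zero
  have hp3 : Nat.Prime 3 := by norm_num
  have g : ∀ p ∈ X, Gd 3 ((p : ℕ) : ℤ) := fun p hp =>
    gd_nat (prime_PR hm0 (hX hp)) hp3 (by norm_num) (by
      rintro rfl
      exact h3 (by exact_mod_cast dvd_of_PR hm0 (hX hp) (by norm_num)))
  refine ⟨?_, gd_prod hp3 _ _ g⟩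
  rw [sum_ind hX, ← ra_prod hp3 _ _ g]
  exact Finset.sum_congr rfl fun p hp => ra_m3 (prime_PR hm0 (hX hp))

/-- the sum of the characters at `5` -/
lemma sum_at5 (hs : Squarefree m) (hX : X ⊆ PR m) (h5 : ¬ (5 : ℤ) ∣ m) :
    ∑ p ∈ PR m, ra p 5 * ind X p = ra 5 (∏ p ∈ X, ((p : ℕ) : ℤ)) ∧
      Gd 5 (∏ p ∈ X, ((p : ℕ) : ℤ)) := by
  have hm0 := hs.ne_zero
  have hp5 : Nat.Prime 5 := by norm_num
  have g : ∀ p ∈ X, Gd 5 ((p : ℕ) : ℤ) := fun p hp =>
    gd_nat (prime_PR hm0 (hX hp)) hp5 (by norm_num) (by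
      rintro rfl
      exact h5 (by exact_mod_cast dvd_of_PR hm0 (hX hp) (by norm_num)))
  refine ⟨?_, gd_prod hp5 _ _ g⟩
  rw [sum_ind hX, ← ra_prod hp5 _ _ g]
  exact Finset.sum_congr rfl fun p hp => ra_5 (prime_PR hm0 (hX hp))

lemma sum_at5' (hs : Squarefree m) (hY : Y ⊆ PR m) (h5 : ¬ (5 : ℤ) ∣ m) :
    ∑ q ∈ PR m, ra 5 (ps m q) * ind Y q = ra 5 (∏ q ∈ Y, ps m q) ∧ Gd 5 (∏ q ∈ Y, ps m q) := by
  have hm0 := hs.ne_zero
  have hp5 : Nat.Prime 5 := by norm_num
  have g : ∀ q ∈ Y, Gd 5 (ps m q) := fun q hq => gd_ps hs (prime_PR hm0 (hY hq)) hp5 (by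
    rintro rfl
    exact h5 (by exact_mod_cast dvd_of_PR hm0 (hY hq) (by norm_num)))
  refine ⟨?_, gd_prod hp5 _ _ g⟩
  rw [sum_ind hY, ← ra_prod hp5 _ _ g]

/-- the sign -/
lemma sgn_iff (hs : Squarefree m) (hY : Y ⊆ PR m) :
    ∑ q ∈ PR m, al m q * ind Y q + a = 0 ↔ 0 < tt a c * ∏ q ∈ Y, ps m q := by
  rw [sum_ind hY]
  have h1 := prod_sign (m := m) Y (fun q hq => ps_ne hs (hY hq))
  have h2 : (a = 0 ∧ 0 < tt a c) ∨ (a = 1 ∧ tt a c < 0) := by
    unfold tt
    rcases zmod_cases a with rfl | rfl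
    · left
      refine ⟨rfl, ?_⟩
      rw [if_neg (by decide)]
      split_ifs <;> norm_num
    · right
      refine ⟨rfl, ?_⟩
      rw [if_pos rfl]
      split_ifs <;> norm_num
  rcases h1 with ⟨h3, h4⟩ | ⟨h3, h4⟩ <;> rcases h2 with ⟨h5, h6⟩ | ⟨h5, h6⟩
  · rw [h3]
    exact ⟨fun _ => mul_pos h6 h4, fun _ => by rw [h5, add_zero]⟩
  · rw [h3, h5]
    refine ⟨fun h => absurd h (by decide), fun h => ?_⟩
    rw [h5] at h6
    have := mul_neg_of_neg_of_pos h6 h4
    omega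
  · rw [h3, h5]
    refine ⟨fun h => absurd h (by decide), fun h => ?_⟩
    rw [h5] at h6
    have := mul_neg_of_pos_of_neg h6 h4
    omega
  · rw [h3]
    refine ⟨fun _ => mul_pos_of_neg_of_neg h6 h4, fun _ => ?_⟩
    rw [h5]
    decide

/-- **Solutions from the Selmer group.** -/
theorem sol_of_sel (hs : Squarefree m) (h : (d1, d2) ∈ SelG (-9 * m) (16 * m) 0) :
    ∃ (a s c : ZMod 2) (X Y : Finset ℕ), RepU m d1 a c Y ∧ RepV m d2 s c X ∧
      Sol15 m (ind X) (ind Y) s a c := by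
  obtain ⟨s1, s2, hR, hp⟩ := h
  simp only at s1 s2 hR hp
  have hm0 := hs.ne_zero
  have hsign := loc_sign15 s1.ne_zero s2.ne_zero hR
  have h14 : m % 4 = 1 → d1 % 4 = 1 := by
    intro h4
    rcases (loc_two15 hs (hp 2)).1 h4 with h | h
    · have := odd_of_sq s1 h
      omega
    · have h5 : IsSquare ((5 * d1 : ℤ) : ℚ_[2]) := by
        push_cast
        exact h
      have h6 : ¬ (2 : ℤ) ∣ d1 := by
        have h7 : IsSquare ((5 : ℚ_[2]) * d1) := h
        have : ((5 : ℤ) : ℚ_[2]).valuation = 0 := val_zero (by norm_num)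
        have h5' : (5 : ℚ_[2]).valuation = 0 := by exact_mod_cast this
        exact_mod_cast not_dvd_of_even (p := 2) (u := (5 : ℚ_[2])) (by norm_num)
          (by rw [h5']; exact Even.zero) s1 h7
      have h8 := Pool.Agent.Y667.RP.mod_of_sq (d := 5 * d1) (by omega) h5
      omega
  have hT : m % 4 ≠ 1 → T2 m d1 := fun h4 =>
    T2_of hs s1 ((loc_two15 hs (hp 2)).2 h4) h4
  have sup1 : ∀ p : ℕ, p.Prime → (p : ℤ) ∣ d1 → Ram m p ∨ p = 3 ∨ p = 5 := by
    intro p hpp hd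
    have : Fact p.Prime := ⟨hpp⟩
    by_cases hpm : (p : ℤ) ∣ m
    · exact Or.inl (Or.inl hpm)
    by_cases hp3 : p = 3
    · exact Or.inr (Or.inl hp3)
    by_cases hp5 : p = 5
    · exact Or.inr (Or.inr hp5)
    by_cases hp2 : p = 2
    · subst hp2
      left; right
      refine ⟨rfl, fun h4 => ?_⟩
      have := h14 h4
      push_cast at hd
      omega
    · exact absurd hd (loc_good15 hp2 hp3 hp5 hm0 hpm s1 s2 (hp p)).1
  have sup2 : ∀ p : ℕ, p.Prime → (p : ℤ) ∣ d2 → Ram m p ∨ p = 5 := by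
    intro p hpp hd
    have : Fact p.Prime := ⟨hpp⟩
    by_cases hpm : (p : ℤ) ∣ m
    · exact Or.inl (Or.inl hpm)
    by_cases hp5 : p = 5
    · exact Or.inr hp5
    by_cases hp3 : p = 3
    · exfalso
      subst hp3
      push_cast at hpm hd
      rcases (by omega : m % 3 = 1 ∨ m % 3 = 2) with h3 | h3
      · exact (loc_3n h3 s1 s2 (hp 3)).2 hd
      · exact not_sq s2 (by exact_mod_cast hd) (loc_3s h3 (hp 3))
    by_cases hp2 : p = 2
    · subst hp2
      left; right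
      refine ⟨rfl, fun h4 => ?_⟩
      exact loc_two_v15 h4 s2 (hp 2) (by exact_mod_cast hd)
    · exact absurd hd (loc_good15 hp2 hp3 hp5 hm0 hpm s1 s2 (hp p)).2
  obtain ⟨a, c, Y, RU⟩ := exists_repU hs s1 sup1 h14 hT
  obtain ⟨s, c', X, RV⟩ := exists_repV hs s2 sup2
  have hcc : c = c' := by
    have key : c = 1 ↔ c' = 1 := by
      rw [RU.hc, RV.hc]
      refine and_congr_left fun h5 => ?_
      rcases (by omega : (m % 5 = 2 ∨ m % 5 = 3) ∨ (m % 5 = 1 ∨ m % 5 = 4)) with h6 | h6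
      · obtain ⟨h7, h8⟩ := loc_5n h6 s1 s2 (hp 5)
        exact ⟨fun h => absurd h h7, fun h => absurd h h8⟩
      · have h7 := loc_5s h6 (hp 5)
        have hd1' : (d1 : ℚ_[5]) ≠ 0 := by exact_mod_cast s1.ne_zero
        have hd2' : (d2 : ℚ_[5]) ≠ 0 := by exact_mod_cast s2.ne_zero
        have h8 := even_val (mul_ne_zero hd1' hd2') h7
        rw [Padic.valuation_mul hd1' hd2'] at h8
        constructor
        · intro h9
          by_contra h10
          rw [val_one (p := 5) (by exact_mod_cast h9) s1,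
            val_zero (p := 5) (n := d2) (by exact_mod_cast h10)] at h8
          exact absurd h8 (by decide)
        · intro h9
          by_contra h10
          rw [val_zero (p := 5) (n := d1) (by exact_mod_cast h10),
            val_one (p := 5) (by exact_mod_cast h9) s2] at h8
          exact absurd h8 (by decide)
    rcases zmod_cases c with h | h <;> rcases zmod_cases c' with h' | h'
    · rw [h, h']
    · exact absurd (key.2 h') (by rw [h]; decide)
    · exact absurd (key.1 h) (by rw [h']; decide)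
    · rw [h, h']
  subst hcc
  have s0 : m < 0 → s = 0 := fun h => by
    rcases zmod_cases s with h1 | h1
    · exact h1
    · have := RV.hs.1 h1
      have := hsign.2 h
      omega
  have a0 : ¬ B3 m → a = 0 := fun h => by
    rcases zmod_cases a with h1 | h1
    · exact h1
    · obtain ⟨h2, h3⟩ := RU.ha.1 h1
      have h4 : m % 3 = 1 := by
        unfold B3 at h
        omega
      exact absurd h2 (loc_3n h4 s1 s2 (hp 3)).1
  have c0 : ¬ B5 m → c = 0 := fun h => by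
    rcases zmod_cases c with h1 | h1
    · exact h1
    · obtain ⟨h2, h3⟩ := RU.hc.1 h1
      have h4 : m % 5 = 2 ∨ m % 5 = 3 := by
        unfold B5 at h
        omega
      exact absurd h2 (loc_5n h4 s1 s2 (hp 5)).1
  have hcol : ∀ q ∈ PR m, q ≠ 2 →
      ∑ p ∈ PR m, Lm m p q * ind X p + s * al m q + c * ra 5 (ps m q) = 0 := by
    intro q hq hq2
    have : Fact q.Prime := ⟨prime_PR hm0 hq⟩
    exact col_of hs RV s2 hq hq2 (loc_dvd15 hq2 hs (dvd_of_PR hm0 hq hq2) s1.ne_zero (hp q)).2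
  refine ⟨a, s, c, X, Y, RU, RV, s0, a0, c0, ?_, ?_, ?_, ?_, ?_⟩
  · intro p hpP
    have : Fact p.Prime := ⟨prime_PR hm0 hpP⟩
    refine row_of hs RU s1 hpP ?_
    by_cases hp2 : p = 2
    · subst hp2
      exact (loc_two15 hs (hp 2)).2 ((two_mem_PR hm0).1 hpP)
    · exact (loc_dvd15 hp2 hs (dvd_of_PR hm0 hpP hp2) s1.ne_zero (hp p)).1
  · intro q hq
    by_cases hq2 : q = 2
    · subst hq2
      have h1 := tot15 (x := ind X) hs s0 c0
      rwa [← Finset.add_sum_erase _ _ hq, Finset.sum_eq_zero (s := (PR m).erase 2) (fun q hq =>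
        hcol q (Finset.mem_of_mem_erase hq) (Finset.ne_of_mem_erase hq)), add_zero] at h1
    · exact hcol q hq hq2
  · intro h
    rw [sgn_iff (c := c) hs RU.sub, ← RU.eq]
    exact hsign.1 h
  · intro h
    obtain ⟨h1, h2⟩ := sum_at3 hs RV.sub (not_dvd3 h)
    have gT : Gd 3 (TT s c) := gd_TT (by norm_num) (by norm_num) (fun _ => by norm_num)
    have h3 := loc_3s h (hp 3)
    rw [RV.eq, ← ra_iff (gd_mul (by norm_num) gT h2), ra_mul (by norm_num) gT h2,
      ra_TT (by norm_num) (by norm_num) (fun _ => by norm_num), ra3_m1, ra3_5, ← h1] at h3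
    rw [← h3]
    ring
  · intro h
    have h5 := not_dvd5 h
    obtain ⟨h1, h2⟩ := sum_at5 hs RV.sub h5
    obtain ⟨h3, h4⟩ := sum_at5' hs RU.sub h5
    have h6 := loc_5s h (hp 5)
    have gs : Gd 5 (if s = 1 then -1 else 1) := by
      split_ifs
      · exact gd_m1 (by norm_num) (by norm_num)
      · exact gd_one (by norm_num)
    have ga : Gd 5 (if a = 1 then -3 else 1) := by
      split_ifs
      · exact gd_m3 (by norm_num) (by norm_num)
      · exact gd_one (by norm_num)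
    set P : ℤ := ∏ p ∈ X, ((p : ℕ) : ℤ) with hP
    set Q : ℤ := ∏ q ∈ Y, ps m q with hQ
    have h7 : IsSquare ((((if a = 1 then -3 else 1) * Q * ((if s = 1 then -1 else 1) * P) : ℤ)) :
        ℚ_[5]) := by
      have hc5 : (((if c = 1 then 5 else 1 : ℤ)) : ℚ_[5]) ≠ 0 := by
        split_ifs <;> norm_num
      refine sq_of h6 hc5 ?_
      rw [RU.eq, RV.eq, ← hP, ← hQ]
      unfold tt TT
      push_cast
      ring
    rw [← ra_iff (gd_mul (by norm_num) (gd_mul (by norm_num) ga h4)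
      (gd_mul (by norm_num) gs h2)), ra_mul (by norm_num) (gd_mul (by norm_num) ga h4)
      (gd_mul (by norm_num) gs h2), ra_mul (by norm_num) ga h4, ra_mul (by norm_num) gs h2,
      ra_ite (by norm_num), ra_ite (by norm_num), ra5_m1, ra5_m3, ← h1, ← h3] at h7
    rw [← h7]
    ring

end

end Pool.Agent.N875.D15
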